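import Pool.Agent.Q112.LE.TailLaw

/-!
# The collection of all classes
-/

set_option autoImplicit false

namespace Pool.Agent.Q112.LE

open Finset Filter MeasureTheory
open scoped Topology Nat

variable {Q : ℕ}

/-- The classes of positive density modulo `d`. -/
def allCls (Q d : ℕ) : Finset ℕ := (range d).filter (fun a => Nat.gcd a (Nat.gcd d Q) = 1)

theorem card_allCls (hQ : 1 ≤ Q) {d : ℕ} (hd : 4 * Q ≤ d) : (d : ℝ) / (2 * Q) ≤ (allCls Q d).card := by
  obtain ⟨g, hg⟩ : ∃ g, g = Nat.gcd d Q := ⟨_, rfl⟩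
  have hg0 : 0 < g := by rw [hg]; exact Nat.gcd_pos_of_pos_right d (by omega)
  have hgQ : g ≤ Q := by rw [hg]; exact Nat.gcd_le_right d (by omega)
  have h1 : (range ((d - 1) / g)).image (fun k => g * k + 1) ⊆ allCls Q d := by
    intro a ha
    rw [mem_image] at ha
    obtain ⟨k, hk, rfl⟩ := ha
    rw [mem_range] at hk
    unfold allCls
    rw [mem_filter, mem_range, ← hg]
    constructor
    · have h2 : g * ((d - 1) / g) ≤ d - 1 := Nat.mul_div_le _ _
      have h3 : g * (k + 1) ≤ g * ((d - 1) / g) := Nat.mul_le_mul_left g hk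
      have h4 : g * (k + 1) = g * k + g := by ring
      omega
    · rw [Nat.gcd_comm, Nat.gcd_mul_left_add_right, Nat.gcd_one_right]
  have h2 := card_le_card h1
  rw [card_image_of_injective _ (fun a b hab => by
    have hab' : g * a + 1 = g * b + 1 := hab
    have h3 : g * a = g * b := by omega
    exact Nat.eq_of_mul_eq_mul_left hg0 h3), card_range] at h2
  have h3 : (d - 1) / Q ≤ (d - 1) / g := Nat.div_le_div_left hgQ hg0
  have h4 : d ≤ Q * ((d - 1) / Q) + Q := by
    have h5 := Nat.div_add_mod (d - 1) Q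
    have h6 := Nat.mod_lt (d - 1) (show Q > 0 by omega)
    omega
  have h5 : (d : ℝ) ≤ Q * ((d - 1) / Q : ℕ) + Q := by exact_mod_cast h4
  have h6 : (((d - 1) / Q : ℕ) : ℝ) ≤ (allCls Q d).card := by exact_mod_cast h3.trans h2
  have hQ0 : (0 : ℝ) < Q := by exact_mod_cast hQ
  have h7 : (4 : ℝ) * Q ≤ d := by exact_mod_cast hd
  rw [div_le_iff₀ (by positivity)]
  nlinarith

theorem collP_all (hQ : 1 ≤ Q) : CollP Q (fun d => {allCls Q d}) := by
  have hQ0 : (0 : ℝ) < Q := by exact_mod_cast hQ
  refine ⟨?_, ?_⟩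
  · intro d S hS a ha
    rw [mem_singleton] at hS
    subst hS
    unfold allCls at ha
    rw [mem_filter, mem_range] at ha
    exact ha
  · intro K
    filter_upwards [log_le_rpow 1 (show (0 : ℝ) < 1 / (2 * (K + 1)) by positivity), eventually_ge_atTop (4 * Q),
      ev_rpow (2 * Q) (show (0 : ℝ) < 1 / 2 by norm_num), hL1.eventually_ge_atTop 1] with d h1 h2 h3 h4 S hS
    rw [mem_singleton] at hS
    subst hS
    have hd : 1 ≤ d := by omega
    have hd0 : (0 : ℝ) < d := by exact_mod_cast hd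
    rw [one_mul] at h1
    refine le_trans ?_ (card_allCls hQ h2)
    rw [card_singleton, Nat.cast_one, Real.log_one, add_zero, mul_one, le_div_iff₀ (by positivity)]
    have h5 : Real.log (d : ℝ) ^ K ≤ (d : ℝ) ^ (1 / 2 : ℝ) := by
      have h6 : Real.log (d : ℝ) ^ K ≤ Real.log (d : ℝ) ^ (K + 1) := pow_le_pow_right₀ h4 (by omega)
      refine h6.trans ((pow_le_pow_left₀ (by linarith) h1 (K + 1)).trans (le_of_eq ?_))
      rw [← Real.rpow_natCast, ← Real.rpow_mul hd0.le]
      congr 1
      push_cast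
      field_simp
    have h7 : (d : ℝ) ^ (1 / 2 : ℝ) * (d : ℝ) ^ (1 / 2 : ℝ) = d := by
      rw [← Real.rpow_add hd0]
      norm_num
    have h8 : 0 < (d : ℝ) ^ (1 / 2 : ℝ) := by positivity
    nlinarith

theorem collT_all (Q : ℕ) : CollT Q (fun d => {allCls Q d}) := by
  refine ⟨?_, ?_⟩
  · intro d S hS a ha
    rw [mem_singleton] at hS
    subst hS
    unfold allCls at ha
    rw [mem_filter, mem_range] at ha
    exact ha
  · intro δ hδ
    filter_upwards with d
    rw [card_singleton, Nat.cast_one, Real.log_one]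
    positivity

end Pool.Agent.Q112.LE
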