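import Mathlib

/-!
# The number of residues `j` modulo `Q` for which `c + m j` is coprime to `Q`
-/

set_option autoImplicit false

namespace Pool.Agent.Q112.LE

open Finset

/-- The number of residues `j` modulo `Q` for which `c + m j` is coprime to `Q`. -/
def cnt (Q : ℕ) (c : ℤ) (m : ℕ) : ℕ := ((range Q).filter (fun j : ℕ => Int.gcd (c + m * j) Q = 1)).card

theorem fib {G H : Type*} [Group G] [Fintype G] [Group H] [Fintype H] [DecidableEq H] (f : G →* H)
    (hf : Function.Surjective f) (h : H) : (univ.filter (fun x => f x = h)).card * Fintype.card H = Fintype.card G := by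
  have h1 : Fintype.card G = ∑ b : H, (univ.filter (fun x => f x = b)).card :=
    Finset.card_eq_sum_card_fiberwise (fun x _ => Finset.mem_coe.2 (mem_univ (f x)))
  have h2 : ∀ b ∈ (univ : Finset H), (univ.filter (fun x => f x = b)).card = (univ.filter (fun x => f x = h)).card :=
    fun b _ => MonoidHom.card_fiber_eq_of_mem_range f (hf b) (hf h)
  rw [h1, sum_congr rfl h2, sum_const, smul_eq_mul, mul_comm]
  rfl

theorem afib {G H : Type*} [AddGroup G] [Fintype G] [AddGroup H] [Fintype H] [DecidableEq H] (f : G →+ H)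
    (hf : Function.Surjective f) (h : H) : (univ.filter (fun x => f x = h)).card * Fintype.card H = Fintype.card G := by
  have h1 : Fintype.card G = ∑ b : H, (univ.filter (fun x => f x = b)).card :=
    Finset.card_eq_sum_card_fiberwise (fun x _ => Finset.mem_coe.2 (mem_univ (f x)))
  have h2 : ∀ b ∈ (univ : Finset H), (univ.filter (fun x => f x = b)).card = (univ.filter (fun x => f x = h)).card :=
    fun b _ => AddMonoidHom.card_fiber_eq_of_mem_range f (hf b) (hf h)
  rw [h1, sum_congr rfl h2, sum_const, smul_eq_mul, mul_comm]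
  rfl

theorem cnt_eq_zmod {Q : ℕ} [NeZero Q] (c : ℤ) (m : ℕ) :
    cnt Q c m = ((univ : Finset (ZMod Q)).filter (fun j => IsUnit ((c : ZMod Q) + m * j))).card := by
  unfold cnt
  have hkey : ∀ j : ℕ, Int.gcd (c + m * j) Q = 1 ↔ IsUnit ((c : ZMod Q) + m * (j : ZMod Q)) := by
    intro j
    have h := ZMod.coe_int_isUnit_iff_isCoprime (c + m * j) Q
    push_cast at h
    rw [h, isCoprime_comm, Int.isCoprime_iff_gcd_eq_one]
  refine Finset.card_bij (fun j _ => (j : ZMod Q)) ?_ ?_ ?_
  · intro j hj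
    rw [mem_filter] at hj ⊢
    exact ⟨mem_univ _, (hkey j).1 hj.2⟩
  · intro a ha b hb hab
    rw [mem_filter, mem_range] at ha hb
    have h1 := (ZMod.natCast_eq_natCast_iff' a b Q).1 hab
    rwa [Nat.mod_eq_of_lt ha.1, Nat.mod_eq_of_lt hb.1] at h1
  · intro b hb
    rw [mem_filter] at hb
    refine ⟨b.val, ?_, ZMod.natCast_zmod_val b⟩
    rw [mem_filter, mem_range]
    refine ⟨ZMod.val_lt b, (hkey _).2 ?_⟩
    rw [ZMod.natCast_zmod_val]
    exact hb.2

/-- The range of the multiplication by `m`. -/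
theorem range_mul {Q : ℕ} [NeZero Q] (m : ℕ) (b : ZMod Q) :
    b ∈ Set.range (AddMonoidHom.mulLeft (m : ZMod Q)) ↔
      ZMod.castHom (Nat.gcd_dvd_right m Q) (ZMod (Nat.gcd m Q)) b = 0 := by
  constructor
  · rintro ⟨j, rfl⟩
    rw [AddMonoidHom.coe_mulLeft, map_mul, map_natCast]
    rw [(ZMod.natCast_eq_zero_iff m (Nat.gcd m Q)).2 (Nat.gcd_dvd_left m Q), zero_mul]
  · intro h
    have h1 : (b.val : ZMod (Nat.gcd m Q)) = 0 := by
      rw [← h, ZMod.castHom_apply, ZMod.cast_eq_val]
    rw [ZMod.natCast_eq_zero_iff] at h1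
    obtain ⟨t, ht⟩ := h1
    refine ⟨((Nat.gcdA m Q * t : ℤ) : ZMod Q), ?_⟩
    rw [AddMonoidHom.coe_mulLeft]
    have h2 : ((Nat.gcd m Q : ℕ) : ℤ) = m * Nat.gcdA m Q + Q * Nat.gcdB m Q := Nat.gcd_eq_gcd_ab m Q
    have h3 : ((b.val : ℕ) : ZMod Q) = b := ZMod.natCast_zmod_val b
    have h4 : (((Nat.gcd m Q : ℕ) : ℤ) : ZMod Q) = ((m * Nat.gcdA m Q + Q * Nat.gcdB m Q : ℤ) : ZMod Q) := by rw [h2]
    push_cast at h4
    rw [ZMod.natCast_self, zero_mul, add_zero] at h4
    rw [← h3, ht]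
    push_cast
    rw [h4]
    ring

theorem cnt_mul {Q : ℕ} (hQ : 1 ≤ Q) {c : ℤ} {m : ℕ} (hc : Int.gcd c (Nat.gcd m Q) = 1) :
    cnt Q c m * Nat.totient (Nat.gcd m Q) = Nat.gcd m Q * Nat.totient Q := by
  classical
  haveI : NeZero Q := ⟨by omega⟩
  have hg : 0 < Nat.gcd m Q := Nat.gcd_pos_of_pos_right m (by omega)
  haveI : NeZero (Nat.gcd m Q) := ⟨hg.ne'⟩
  obtain ⟨g, hgd⟩ : ∃ g, g = Nat.gcd m Q := ⟨_, rfl⟩
  have hdvd := Nat.gcd_dvd_right m Q
  have hrange := range_mul (Q := Q) m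
  rw [← hgd] at hg hdvd hc ⊢
  haveI : NeZero g := ⟨hg.ne'⟩
  obtain ⟨r, hr⟩ : ∃ r : ZMod Q →+* ZMod g, r = ZMod.castHom hdvd (ZMod g) := ⟨_, rfl⟩
  have hrs : Function.Surjective r := by rw [hr]; exact ZMod.castHom_surjective hdvd
  obtain ⟨f, hf⟩ : ∃ f : ZMod Q →+ ZMod Q, f = AddMonoidHom.mulLeft (m : ZMod Q) := ⟨_, rfl⟩
  have hrange' : ∀ b, b ∈ Set.range f ↔ r b = 0 := by
    intro b
    rw [hf, hr]
    subst hgd
    exact hrange b
  obtain ⟨k, hk⟩ : ∃ k, k = (univ.filter (fun j => f j = 0)).card := ⟨_, rfl⟩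
  have hfiber : ∀ b, (univ.filter (fun j => f j = b)).card = if r b = 0 then k else 0 := by
    intro b
    split_ifs with h
    · rw [hk]
      exact AddMonoidHom.card_fiber_eq_of_mem_range f ((hrange' b).2 h) ⟨0, map_zero f⟩
    · rw [card_eq_zero, filter_eq_empty_iff]
      intro j _ hj
      exact h ((hrange' b).1 ⟨j, hj⟩)
  -- the size of the kernel
  have hk2 : k = g := by
    have h1 : Fintype.card (ZMod Q) = ∑ b : ZMod Q, (univ.filter (fun j => f j = b)).card :=
      Finset.card_eq_sum_card_fiberwise (fun x _ => Finset.mem_coe.2 (mem_univ (f x)))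
    rw [sum_congr rfl (fun b _ => hfiber b), ← sum_filter, sum_const, smul_eq_mul, ZMod.card] at h1
    have h2 := afib r.toAddMonoidHom hrs 0
    rw [ZMod.card, ZMod.card] at h2
    have h3 : (univ.filter (fun x => r.toAddMonoidHom x = 0)).card = (univ.filter (fun x => r x = 0)).card := rfl
    rw [h3] at h2
    have h4 : 0 < (univ.filter (fun x => r x = 0)).card := card_pos.2 ⟨0, by simp⟩
    have h5 : (univ.filter (fun x => r x = 0)).card * k = (univ.filter (fun x => r x = 0)).card * g := by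
      rw [← h1, h2]
    exact Nat.eq_of_mul_eq_mul_left h4 h5
  -- the count
  have hcnt : cnt Q c m = ∑ n ∈ univ.filter (fun n : ZMod Q => IsUnit n), (univ.filter (fun j => f j = n - c)).card := by
    rw [cnt_eq_zmod]
    have h1 : ((univ : Finset (ZMod Q)).filter (fun j => IsUnit ((c : ZMod Q) + m * j))).card =
        ∑ n ∈ univ.filter (fun n : ZMod Q => IsUnit n),
          (((univ : Finset (ZMod Q)).filter (fun j => IsUnit ((c : ZMod Q) + m * j))).filter
            (fun j => (c : ZMod Q) + m * j = n)).card := by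
      refine Finset.card_eq_sum_card_fiberwise (fun x hx => ?_)
      rw [Finset.mem_coe, mem_filter] at hx ⊢
      exact ⟨mem_univ _, hx.2⟩
    rw [h1]
    refine sum_congr rfl (fun n hn => ?_)
    rw [mem_filter] at hn
    congr 1
    ext j
    rw [mem_filter, mem_filter, mem_filter, hf, AddMonoidHom.coe_mulLeft]
    constructor
    · rintro ⟨_, h2⟩
      exact ⟨mem_univ _, by rw [← h2]; ring⟩
    · rintro ⟨_, h2⟩
      have h3 : (c : ZMod Q) + m * j = n := by rw [h2]; ring
      exact ⟨⟨mem_univ _, by rw [h3]; exact hn.2⟩, h3⟩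
  rw [hcnt, sum_congr rfl (fun n _ => hfiber _), ← sum_filter, sum_const, smul_eq_mul, hk2]
  -- units in a class
  have hu : IsUnit ((c : ZMod g)) := by
    rw [ZMod.coe_int_isUnit_iff_isCoprime, isCoprime_comm, Int.isCoprime_iff_gcd_eq_one]
    exact hc
  obtain ⟨w, hw⟩ := hu
  have h6 := fib (ZMod.unitsMap hdvd) (ZMod.unitsMap_surjective hdvd) w
  rw [ZMod.card_units_eq_totient, ZMod.card_units_eq_totient] at h6
  have h7 : ((univ.filter (fun n : ZMod Q => IsUnit n)).filter (fun n => r (n - c) = 0)).card =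
      (univ.filter (fun x => ZMod.unitsMap hdvd x = w)).card := by
    symm
    refine Finset.card_bij (fun x _ => (x : ZMod Q)) ?_ ?_ ?_
    · intro x hx
      rw [mem_filter] at hx
      rw [mem_filter, mem_filter]
      refine ⟨⟨mem_univ _, x.isUnit⟩, ?_⟩
      rw [map_sub, map_intCast, ← hw, ← hx.2, ZMod.unitsMap_def, Units.coe_map, hr]
      simp
    · intro x _ y _ hxy
      exact Units.ext hxy
    · intro n hn
      rw [mem_filter, mem_filter] at hn
      obtain ⟨⟨_, x, rfl⟩, h8⟩ := hn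
      refine ⟨x, ?_, rfl⟩
      rw [mem_filter]
      refine ⟨mem_univ _, Units.ext ?_⟩
      rw [map_sub, map_intCast, ← hw, sub_eq_zero] at h8
      rw [← h8, ZMod.unitsMap_def, Units.coe_map, hr]
      simp
  rw [h7, ← h6]
  ring

end Pool.Agent.Q112.LE
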