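import Pool.Agent.Q112.LE.Res

/-!
# Exponential inequalities for the number of independent events
-/

set_option autoImplicit false

namespace Pool.Agent.Q112.LE

open Finset Filter MeasureTheory ProbabilityTheory Pool.Agent.Q120.GM
open scoped Topology

variable {Ω : Type*} [MeasurableSpace Ω] {μ : Measure Ω} [IsProbabilityMeasure μ] {κ : Type*} [DecidableEq κ]

/-- The events are independent (for intersections of subfamilies). -/
def Mutual (μ : Measure Ω) (J : Finset κ) (G : κ → Set Ω) : Prop :=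
  ∀ T ⊆ J, μ.real (⋂ a ∈ T, G a) = ∏ a ∈ T, μ.real (G a)

omit [DecidableEq κ] in
theorem exp_moment {J : Finset κ} {G : κ → Set Ω} (hG : ∀ j ∈ J, MeasurableSet (G j)) (hm : Mutual μ J G) (l : ℝ) :
    Integrable (fun ω => Real.exp (l * num J G ω)) μ ∧
      ∫ ω, Real.exp (l * num J G ω) ∂μ = ∏ a ∈ J, (1 + (Real.exp l - 1) * μ.real (G a)) := by
  classical
  obtain ⟨z, hz⟩ : ∃ z, z = Real.exp l - 1 := ⟨_, rfl⟩
  have h1 : ∀ ω, Real.exp (l * num J G ω) = ∑ T ∈ J.powerset, z ^ T.card * (⋂ a ∈ T, G a).indicator (fun _ => (1 : ℝ)) ω := by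
    intro ω
    have e1 : Real.exp (l * num J G ω) = ∏ a ∈ J, (1 + z * (G a).indicator (fun _ => (1 : ℝ)) ω) := by
      unfold num
      rw [mul_sum, Real.exp_sum]
      refine prod_congr rfl (fun a _ => ?_)
      by_cases h : ω ∈ G a
      · rw [Set.indicator_of_mem h, hz]
        ring_nf
      · rw [Set.indicator_of_notMem h]
        simp
    rw [e1, Finset.prod_one_add]
    refine sum_congr rfl (fun T _ => ?_)
    rw [prod_mul_distrib, prod_const]
    congr 1
    by_cases h : ω ∈ ⋂ a ∈ T, G a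
    · rw [Set.indicator_of_mem h]
      refine prod_eq_one (fun a ha => ?_)
      exact Set.indicator_of_mem (Set.mem_iInter₂.1 h a ha) _
    · rw [Set.indicator_of_notMem h]
      rw [Set.mem_iInter₂] at h
      push Not at h
      obtain ⟨a, ha, h2⟩ := h
      exact prod_eq_zero ha (Set.indicator_of_notMem h2 _)
  have hT : ∀ T ∈ J.powerset, MeasurableSet (⋂ a ∈ T, G a) := fun T hT =>
    Finset.measurableSet_biInter T (fun a ha => hG a (mem_powerset.1 hT ha))
  have hint : ∀ T ∈ J.powerset, Integrable (fun ω => z ^ T.card * (⋂ a ∈ T, G a).indicator (fun _ => (1 : ℝ)) ω) μ :=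
    fun T hT' => ((integrable_const (1 : ℝ)).indicator (hT T hT')).const_mul _
  have h2 : (fun ω => Real.exp (l * num J G ω)) =
      fun ω => ∑ T ∈ J.powerset, z ^ T.card * (⋂ a ∈ T, G a).indicator (fun _ => (1 : ℝ)) ω := funext h1
  rw [h2]
  refine ⟨integrable_finsetSum _ hint, ?_⟩
  rw [integral_finsetSum _ hint, Finset.prod_one_add]
  refine sum_congr rfl (fun T hT' => ?_)
  rw [integral_const_mul, integral_indicator_const _ (hT T hT'), prod_mul_distrib, prod_const, ← hz]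
  rw [hm T (mem_powerset.1 hT')]
  simp

omit [DecidableEq κ] in
theorem tail_up {J : Finset κ} {G : κ → Set Ω} (hG : ∀ j ∈ J, MeasurableSet (G j)) (hm : Mutual μ J G) {l : ℝ}
    (hl : 0 ≤ l) (t : ℝ) :
    μ.real {ω | t ≤ num J G ω} ≤ Real.exp ((Real.exp l - 1) * ∑ a ∈ J, μ.real (G a) - l * t) := by
  obtain ⟨h1, h2⟩ := exp_moment hG hm l
  have h3 := mul_meas_ge_le_integral_of_nonneg (μ := μ) (f := fun ω => Real.exp (l * num J G ω))
    (Eventually.of_forall (fun ω => (Real.exp_pos _).le)) h1 (Real.exp (l * t))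
  rw [h2] at h3
  have h4 : {ω | t ≤ num J G ω} ⊆ {ω | Real.exp (l * t) ≤ Real.exp (l * num J G ω)} := by
    intro ω hω
    exact Real.exp_le_exp.2 (mul_le_mul_of_nonneg_left hω hl)
  have h5 : μ.real {ω | t ≤ num J G ω} ≤ μ.real {ω | Real.exp (l * t) ≤ Real.exp (l * num J G ω)} :=
    measureReal_mono h4 (measure_ne_top _ _)
  have h6 : ∏ a ∈ J, (1 + (Real.exp l - 1) * μ.real (G a)) ≤ Real.exp ((Real.exp l - 1) * ∑ a ∈ J, μ.real (G a)) := by
    rw [mul_sum, Real.exp_sum]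
    refine Finset.prod_le_prod (fun a _ => ?_) (fun a _ => ?_)
    · have e1 : 0 ≤ μ.real (G a) := measureReal_nonneg
      have e2 : 1 ≤ Real.exp l := Real.one_le_exp hl
      nlinarith
    · have := Real.add_one_le_exp ((Real.exp l - 1) * μ.real (G a))
      linarith
  rw [Real.exp_sub, le_div_iff₀ (Real.exp_pos _), mul_comm]
  exact ((mul_le_mul_of_nonneg_left h5 (Real.exp_pos _).le).trans h3).trans h6

omit [DecidableEq κ] in
theorem tail_down {J : Finset κ} {G : κ → Set Ω} (hG : ∀ j ∈ J, MeasurableSet (G j)) (hm : Mutual μ J G) {l : ℝ}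
    (hl : 0 ≤ l) (t : ℝ) :
    μ.real {ω | num J G ω ≤ t} ≤ Real.exp ((Real.exp (-l) - 1) * ∑ a ∈ J, μ.real (G a) + l * t) := by
  obtain ⟨h1, h2⟩ := exp_moment hG hm (-l)
  have h3 := mul_meas_ge_le_integral_of_nonneg (μ := μ) (f := fun ω => Real.exp (-l * num J G ω))
    (Eventually.of_forall (fun ω => (Real.exp_pos _).le)) h1 (Real.exp (-(l * t)))
  rw [h2] at h3
  have h4 : {ω | num J G ω ≤ t} ⊆ {ω | Real.exp (-(l * t)) ≤ Real.exp (-l * num J G ω)} := by
    intro ω hω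
    apply Real.exp_le_exp.2
    have : l * num J G ω ≤ l * t := mul_le_mul_of_nonneg_left hω hl
    linarith
  have h5 : μ.real {ω | num J G ω ≤ t} ≤ μ.real {ω | Real.exp (-(l * t)) ≤ Real.exp (-l * num J G ω)} :=
    measureReal_mono h4 (measure_ne_top _ _)
  have h6 : ∏ a ∈ J, (1 + (Real.exp (-l) - 1) * μ.real (G a)) ≤ Real.exp ((Real.exp (-l) - 1) * ∑ a ∈ J, μ.real (G a)) := by
    rw [mul_sum, Real.exp_sum]
    refine Finset.prod_le_prod (fun a _ => ?_) (fun a _ => ?_)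
    · have e1 : 0 ≤ μ.real (G a) := measureReal_nonneg
      have e1' : μ.real (G a) ≤ 1 := measureReal_le_one
      have e2 : 0 < Real.exp (-l) := Real.exp_pos _
      nlinarith
    · have := Real.add_one_le_exp ((Real.exp (-l) - 1) * μ.real (G a))
      linarith
  rw [Real.exp_add]
  have h7 : Real.exp (-(l * t)) * μ.real {ω | num J G ω ≤ t} ≤
      Real.exp ((Real.exp (-l) - 1) * ∑ a ∈ J, μ.real (G a)) :=
    ((mul_le_mul_of_nonneg_left h5 (Real.exp_pos _).le).trans h3).trans h6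
  rw [Real.exp_neg, inv_mul_le_iff₀ (Real.exp_pos _)] at h7
  linarith

omit [DecidableEq κ] in
/-- Two-sided deviation. -/
theorem dev_two {J : Finset κ} {G : κ → Set Ω} (hG : ∀ j ∈ J, MeasurableSet (G j)) (hm : Mutual μ J G) {ε : ℝ}
    (hε : 0 ≤ ε) (hε1 : ε ≤ 1) :
    μ.real {ω | ε * J.card ≤ |num J G ω - ∑ a ∈ J, μ.real (G a)|} ≤ 2 * Real.exp (-(ε ^ 2 / 4 * J.card)) := by
  obtain ⟨S, hS⟩ : ∃ S, S = ∑ a ∈ J, μ.real (G a) := ⟨_, rfl⟩
  have hS1 : S ≤ J.card := by
    rw [hS]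
    refine (sum_le_sum (g := fun _ => (1 : ℝ)) (fun a _ => measureReal_le_one)).trans ?_
    rw [sum_const, nsmul_eq_mul, mul_one]
  have hS0 : 0 ≤ S := by rw [hS]; exact sum_nonneg (fun _ _ => measureReal_nonneg)
  have h1 := tail_up hG hm (l := ε / 2) (by linarith) (S + ε * J.card)
  have h2 := tail_down hG hm (l := ε / 2) (by linarith) (S - ε * J.card)
  rw [← hS] at h1 h2
  rw [← hS]
  have e1 : Real.exp (ε / 2) - 1 - ε / 2 ≤ (ε / 2) ^ 2 :=
    (le_abs_self _).trans (Real.abs_exp_sub_one_sub_id_le (by rw [abs_of_nonneg (by linarith)]; linarith))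
  have e2 : Real.exp (-(ε / 2)) - 1 - (-(ε / 2)) ≤ (-(ε / 2)) ^ 2 :=
    (le_abs_self _).trans (Real.abs_exp_sub_one_sub_id_le (by rw [abs_neg, abs_of_nonneg (by linarith)]; linarith))
  have h3 : {ω | ε * J.card ≤ |num J G ω - S|} ⊆ {ω | S + ε * J.card ≤ num J G ω} ∪ {ω | num J G ω ≤ S - ε * J.card} := by
    intro ω hω
    have hω' : ε * J.card ≤ |num J G ω - S| := hω
    rcases le_abs.1 hω' with h | h
    · left
      show S + ε * J.card ≤ num J G ω
      linarith
    · right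
      show num J G ω ≤ S - ε * J.card
      linarith
  refine (measureReal_mono h3 (measure_ne_top _ _)).trans ((measureReal_union_le _ _).trans ?_)
  have h4 : Real.exp ((Real.exp (ε / 2) - 1) * S - ε / 2 * (S + ε * J.card)) ≤ Real.exp (-(ε ^ 2 / 4 * J.card)) := by
    rw [Real.exp_le_exp]
    nlinarith
  have h5 : Real.exp ((Real.exp (-(ε / 2)) - 1) * S + ε / 2 * (S - ε * J.card)) ≤ Real.exp (-(ε ^ 2 / 4 * J.card)) := by
    rw [Real.exp_le_exp]
    nlinarith
  linarith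

omit [DecidableEq κ] in
/-- A crude upper tail. -/
theorem dev_up {J : Finset κ} {G : κ → Set Ω} (hG : ∀ j ∈ J, MeasurableSet (G j)) (hm : Mutual μ J G) (K : ℝ) :
    μ.real {ω | 2 * (∑ a ∈ J, μ.real (G a)) + K ≤ num J G ω} ≤ Real.exp (-K) := by
  have h1 := tail_up hG hm (l := 1) zero_le_one (2 * (∑ a ∈ J, μ.real (G a)) + K)
  refine h1.trans ?_
  rw [Real.exp_le_exp]
  have h2 := Real.exp_one_lt_d9
  have h3 : 0 ≤ ∑ a ∈ J, μ.real (G a) := sum_nonneg (fun _ _ => measureReal_nonneg)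
  nlinarith

omit [DecidableEq κ] in
/-- A crude lower tail. -/
theorem dev_down {J : Finset κ} {G : κ → Set Ω} (hG : ∀ j ∈ J, MeasurableSet (G j)) (hm : Mutual μ J G) :
    μ.real {ω | num J G ω ≤ (∑ a ∈ J, μ.real (G a)) / 2} ≤ Real.exp (-((∑ a ∈ J, μ.real (G a)) / 10)) := by
  have h1 := tail_down hG hm (l := 1) zero_le_one ((∑ a ∈ J, μ.real (G a)) / 2)
  refine h1.trans ?_
  rw [Real.exp_le_exp]
  have h2 : Real.exp (-1) ≤ 0.38 := by
    rw [Real.exp_neg, inv_eq_one_div, div_le_iff₀ (Real.exp_pos _)]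
    have := Real.exp_one_gt_d9
    linarith
  have h3 : 0 ≤ ∑ a ∈ J, μ.real (G a) := sum_nonneg (fun _ _ => measureReal_nonneg)
  nlinarith

/-- The classes modulo `d` give independent events. -/
theorem mutual_cls {A : Ω → Set ℕ} {Q : ℕ} (hA : IsModel μ (level Q) A) {d : ℕ} {U : Finset ℕ} (hU : ∀ a ∈ U, a < d)
    (M : ℕ → ℕ) : Mutual μ U (fun a => free A (cls a d (M a))) := by
  intro T hT
  exact indep_many hA T (fun a => {n | n % d = a}) (fun a _ b _ hab => mod_disjoint hab) _ (fun a ha => F_cls (hU a (hT ha)))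

end Pool.Agent.Q112.LE
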