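import Pool.Agent.Q112.LE.Power
import Pool.Agent.Q120.GM.APPrimes

/-!
# Families of residue classes: probabilities
-/

set_option autoImplicit false

namespace Pool.Agent.Q112.LE

open Finset Filter MeasureTheory ProbabilityTheory Pool.Agent.Q120.GM Pool.Agent.Q120.AD
open scoped Topology

/-- The number of the terms `c + m j` up to `t φ_Q(m) (log m)^2`. -/
noncomputable def mt (Q : ℕ) (t : ℝ) (c m : ℕ) : ℕ := MM Q (c : ℤ) m (t * Real.log m)

/-- All elements of `S` in the class of `c` modulo `m` are larger than `y`. -/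
def Late (S : Set ℕ) (c m : ℕ) (y : ℝ) : Prop := ∀ n ∈ S, n % m = c % m → y < n

theorem late_mono {S : Set ℕ} {c m : ℕ} {y y' : ℝ} (h : y ≤ y') (h1 : Late S c m y') : Late S c m y :=
  fun n hn h2 => lt_of_le_of_lt h (h1 n hn h2)

/-- A family of residue classes, about `m ^ θ` of them modulo `m`. -/
structure Fam (Q : ℕ) (θ : ℝ) (𝓒 : ℕ → Finset ℕ) : Prop where
  lt : ∀ m, ∀ c ∈ 𝓒 m, c < m
  cop : ∀ m, ∀ c ∈ 𝓒 m, Nat.gcd c (Nat.gcd m Q) = 1
  card_ge : ∀ δ : ℝ, 0 < δ → ∀ᶠ m : ℕ in atTop, (m : ℝ) ^ (θ - δ) ≤ (𝓒 m).card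
  card_le : ∀ δ : ℝ, 0 < δ → ∀ᶠ m : ℕ in atTop, ((𝓒 m).card : ℝ) ≤ (m : ℝ) ^ (θ + δ)

variable {Ω : Type*} [MeasurableSpace Ω] {μ : Measure Ω} [IsProbabilityMeasure μ] {A : Ω → Set ℕ} {Q : ℕ}

theorem el_nat (c m j : ℕ) : el (c : ℤ) m j = c + m * j := by
  unfold el
  have : (c : ℤ) + m * j = ((c + m * j : ℕ) : ℤ) := by push_cast; ring
  rw [this, Int.toNat_natCast]

theorem one_le_of_le {x : ℝ} {m : ℕ} (hx : 0 < x) (h : x ≤ Real.log m) : 1 ≤ m := by
  rcases Nat.eq_zero_or_pos m with h1 | h1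
  · subst h1
    simp at h
    linarith
  · exact h1

/-- The event that a class is late. -/
theorem late_iff_free (hQ : 1 ≤ Q) {t : ℝ} (ht : 0 < t) : ∀ᶠ m : ℕ in atTop, ∀ c, c < m → ∀ S : Set ℕ,
    (Late S c m (t * phiQ Q m * Real.log m ^ 2) ↔ ∀ n ∈ cls c m (mt Q t c m), n ∉ S) := by
  have hQ0 : (0 : ℝ) < Q := by exact_mod_cast hQ
  have h1 : Tendsto (fun m : ℕ => t / Q * Real.log m ^ 2) atTop atTop :=
    (hl2).const_mul_atTop (by positivity)
  filter_upwards [h1.eventually_ge_atTop 1, eventually_ge_atTop 1] with m h2 hm c hc S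
  obtain ⟨y, hy⟩ : ∃ y, y = t * phiQ Q m * Real.log m ^ 2 := ⟨_, rfl⟩
  have hm0 : (0 : ℝ) < m := by exact_mod_cast hm
  have hcm : (c : ℝ) ≤ m := by exact_mod_cast hc.le
  have hk := kap_pos hQ m
  have hmy : (m : ℝ) ≤ y := by
    have e1 : (m : ℝ) / Q ≤ phiQ Q m := by
      rw [phiQ_eq hQ]
      exact div_le_div_of_nonneg_left hm0.le hk (kap_le hQ m)
    have e2 : t * (m / Q) * Real.log m ^ 2 ≤ y := by
      rw [hy]
      gcongr
    have e3 : t * (m / Q) * Real.log m ^ 2 = m * (t / Q * Real.log m ^ 2) := by ring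
    nlinarith
  have hM : mt Q t c m = ⌊(y - c) / m⌋₊ := by
    unfold mt MM
    rw [hy]
    congr 2
    push_cast
    ring
  rw [← hy]
  constructor
  · intro h n hn hS
    rw [mem_cls] at hn
    obtain ⟨j, hj, rfl⟩ := hn
    have h3 := h _ hS (by rw [Nat.add_mul_mod_self_left])
    rw [hM] at hj
    have h4 : (j : ℝ) ≤ (y - c) / m := by
      refine le_trans ?_ (Nat.floor_le (div_nonneg (by linarith) hm0.le))
      exact_mod_cast hj
    rw [le_div_iff₀ hm0] at h4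
    push_cast at h3
    linarith
  · intro h n hn hmod
    by_contra hcon
    push Not at hcon
    rw [Nat.mod_eq_of_lt hc] at hmod
    have h4 : c + m * (n / m) = n := by
      have h5 := Nat.mod_add_div n m
      omega
    refine h n (mem_cls.2 ⟨n / m, ?_, h4.symm⟩) hn
    rw [hM]
    apply Nat.le_floor
    rw [le_div_iff₀ hm0]
    have h5 : (c : ℝ) + m * ((n / m : ℕ) : ℝ) = n := by exact_mod_cast h4
    linarith

/-- The probability that a class is late. -/
theorem fam_prob (hA : IsModel μ (level Q) A) (hQ : 1 ≤ Q) {t : ℝ} (ht : 0 ≤ t) {δ : ℝ} (hδ : 0 < δ) :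
    ∀ᶠ m : ℕ in atTop, ∀ c, c < m → Nat.gcd c (Nat.gcd m Q) = 1 →
      μ.real (free A (cls c m (mt Q t c m))) ≤ (m : ℝ) ^ (-(t - δ)) ∧
        (level Q c ≤ 1 / 2 → (m : ℝ) ^ (-(t + δ)) ≤ μ.real (free A (cls c m (mt Q t c m)))) := by
  have g1 : ∀ᶠ m : ℕ in atTop, (2 : ℝ) ≤ (m : ℝ) ^ (δ / 2) := by
    have := (tendsto_rpow_atTop (show 0 < δ / 2 by linarith)).comp tendsto_natCast_atTop_atTop
    exact this.eventually_ge_atTop 2
  filter_upwards [prod_power hQ ht (show 0 < δ / 2 by linarith), g1, eventually_ge_atTop 1] with m h1 h2 hm c hc hg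
  have hm0 : (0 : ℝ) < m := by exact_mod_cast hm
  have hm1 : (1 : ℝ) ≤ m := by exact_mod_cast hm
  obtain ⟨b1, b2⟩ := h1 (c : ℤ) (by
    rw [abs_of_nonneg (by positivity)]
    exact_mod_cast hc.le) (fun j hj => by
    rw [el_nat]
    have e1 : m ≤ c + m * j := by nlinarith
    have e2 : (m : ℝ) ≤ ((c + m * j : ℕ) : ℝ) := by exact_mod_cast e1
    linarith) (by
    rw [Int.gcd_natCast_natCast]
    exact hg)
  have hM : MM Q (c : ℤ) m (t * Real.log m) = mt Q t c m := rfl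
  rw [hM] at b1 b2
  have hprod : μ.real (free A (cls c m (mt Q t c m))) =
      (1 - level Q c) * ∏ j ∈ Icc 1 (mt Q t c m), (1 - level Q (el (c : ℤ) m j)) := by
    rw [real_free hA, prod_cls hm]
    have h3 : Ico 0 (mt Q t c m + 1) = insert 0 (Icc 1 (mt Q t c m)) := by
      ext j
      rw [mem_insert, mem_Ico, mem_Icc]
      omega
    rw [h3, prod_insert (by simp)]
    congr 1
  have hP0 : 0 ≤ ∏ j ∈ Icc 1 (mt Q t c m), (1 - level Q (el (c : ℤ) m j)) :=
    prod_nonneg (fun j _ => by linarith [level_le_one Q (el (c : ℤ) m j)])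
  rw [hprod]
  constructor
  · have h3 := level_nonneg Q c
    have h4 : (m : ℝ) ^ (-(t - δ / 2)) ≤ (m : ℝ) ^ (-(t - δ)) := Real.rpow_le_rpow_of_exponent_le hm1 (by linarith)
    nlinarith
  · intro hc2
    have h3 : (m : ℝ) ^ (-(t + δ / 2)) = (m : ℝ) ^ (-(t + δ)) * (m : ℝ) ^ (δ / 2) := by
      rw [← Real.rpow_add hm0]
      congr 1
      ring
    have h4 : 0 < (m : ℝ) ^ (-(t + δ)) := by positivity
    nlinarith

/-- Some class of the family is free. -/
def lateU (A : Ω → Set ℕ) (U : ℕ → Finset ℕ) (M : ℕ → ℕ → ℕ) (d : ℕ) : Set Ω := ⋃ a ∈ U d, free A (cls a d (M a d))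

/-- The sum of the probabilities. -/
noncomputable def sumU (μ : Measure Ω) (A : Ω → Set ℕ) (U : ℕ → Finset ℕ) (M : ℕ → ℕ → ℕ) (d : ℕ) : ℝ :=
  ∑ a ∈ U d, μ.real (free A (cls a d (M a d)))

theorem meas_lateU (hA : IsModel μ (level Q) A) (U : ℕ → Finset ℕ) (M : ℕ → ℕ → ℕ) (d : ℕ) :
    MeasurableSet (lateU A U M d) :=
  Finset.measurableSet_biUnion _ (fun _ _ => meas_free hA _)

omit [IsProbabilityMeasure μ] in
theorem lateU_le (U : ℕ → Finset ℕ) (M : ℕ → ℕ → ℕ) (d : ℕ) : μ.real (lateU A U M d) ≤ sumU μ A U M d :=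
  measureReal_biUnion_finset_le _ _

theorem compl_lateU (hA : IsModel μ (level Q) A) {U : ℕ → Finset ℕ} (hU : ∀ d, ∀ a ∈ U d, a < d) (M : ℕ → ℕ → ℕ)
    (d : ℕ) : μ.real (lateU A U M d)ᶜ = ∏ a ∈ U d, (1 - μ.real (free A (cls a d (M a d)))) := by
  classical
  have h1 : (lateU A U M d)ᶜ = ⋂ a ∈ U d, (free A (cls a d (M a d)))ᶜ := by
    unfold lateU
    rw [Set.compl_iUnion₂]
  rw [h1, indep_many hA (U d) (fun a => {n | n % d = a}) (fun a _ b _ hab => mod_disjoint hab) _ (fun a ha =>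
    MeasurableSet.compl (F_cls (hU d a ha)))]
  refine prod_congr rfl (fun a _ => ?_)
  rw [measureReal_compl (meas_free hA _), probReal_univ]

theorem compl_lateU_le (hA : IsModel μ (level Q) A) {U : ℕ → Finset ℕ} (hU : ∀ d, ∀ a ∈ U d, a < d) (M : ℕ → ℕ → ℕ)
    (d : ℕ) : μ.real (lateU A U M d)ᶜ ≤ Real.exp (-sumU μ A U M d) := by
  rw [compl_lateU hA hU]
  unfold sumU
  rw [← sum_neg_distrib, Real.exp_sum]
  refine Finset.prod_le_prod (fun a _ => ?_) (fun a _ => ?_)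
  · have : μ.real (free A (cls a d (M a d))) ≤ 1 := measureReal_le_one
    linarith
  · have := Real.add_one_le_exp (-μ.real (free A (cls a d (M a d))))
    linarith

theorem le_lateU (hA : IsModel μ (level Q) A) {U : ℕ → Finset ℕ} (hU : ∀ d, ∀ a ∈ U d, a < d) (M : ℕ → ℕ → ℕ)
    (d : ℕ) : sumU μ A U M d * (1 - sumU μ A U M d) ≤ μ.real (lateU A U M d) := by
  have hc := compl_lateU_le hA hU M d
  rw [measureReal_compl (meas_lateU hA U M d), probReal_univ] at hc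
  obtain ⟨S, hS⟩ : ∃ S, S = sumU μ A U M d := ⟨_, rfl⟩
  have hS0 : 0 ≤ S := by rw [hS]; exact sum_nonneg (fun _ _ => measureReal_nonneg)
  rw [← hS] at hc ⊢
  have h3 : Real.exp (-S) ≤ 1 - S + S ^ 2 := by
    rw [Real.exp_neg, inv_eq_one_div, div_le_iff₀ (Real.exp_pos _)]
    have e1 := Real.add_one_le_exp S
    have e2 : 0 ≤ 1 - S + S ^ 2 := by nlinarith [sq_nonneg (S - 1 / 2)]
    have e3 : (1 - S + S ^ 2) * (S + 1) ≤ (1 - S + S ^ 2) * Real.exp S := mul_le_mul_of_nonneg_left e1 e2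
    have e4 : 0 ≤ S ^ 3 := by positivity
    nlinarith
  nlinarith

/-- The pair bound. -/
theorem pair_lateU (hA : IsModel μ (level Q) A) {U : ℕ → Finset ℕ} (hU : ∀ d, ∀ a ∈ U d, a < d) {M : ℕ → ℕ → ℕ}
    {T T' : ℝ} {l l' R : ℕ} (hco : l.Coprime l')
    (hR : ∀ a ∈ U l, M a l + 1 ≤ R) (hRl : R ≤ l') (hT : 0 ≤ T) (hT' : 0 ≤ T')
    (hp : ∀ a ∈ U l, ∀ n ∈ cls a l (M a l), level Q n ≤ 1 / 2)
    (h1 : ∀ a ∈ U l, μ.real (free A (cls a l (M a l))) ≤ T)
    (h2 : ∀ a ∈ U l', μ.real (free A (cls a l' (M a l'))) ≤ T') :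
    μ.real (lateU A U M l ∩ lateU A U M l') ≤ sumU μ A U M l * sumU μ A U M l' + ((U l).card * R : ℝ) * (T * T') := by
  classical
  have hsub : lateU A U M l ∩ lateU A U M l' ⊆ ⋃ q ∈ U l ×ˢ U l',
      (free A (cls q.1 l (M q.1 l)) ∩ free A (cls q.2 l' (M q.2 l'))) := by
    rintro ω ⟨h3, h4⟩
    unfold lateU at h3 h4
    rw [Set.mem_iUnion₂] at h3 h4
    obtain ⟨a, ha, h5⟩ := h3
    obtain ⟨b, hb, h6⟩ := h4
    exact Set.mem_biUnion (x := (a, b)) (by
      show (a, b) ∈ U l ×ˢ U l'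
      exact mem_product.2 ⟨ha, hb⟩) ⟨h5, h6⟩
  refine (measureReal_mono hsub (measure_ne_top _ _)).trans ((measureReal_biUnion_finset_le _ _).trans ?_)
  have hterm : ∀ q ∈ U l ×ˢ U l',
      μ.real (free A (cls q.1 l (M q.1 l)) ∩ free A (cls q.2 l' (M q.2 l'))) ≤
        μ.real (free A (cls q.1 l (M q.1 l))) * μ.real (free A (cls q.2 l' (M q.2 l'))) +
        (if ¬ Disjoint (cls q.1 l (M q.1 l)) (cls q.2 l' (M q.2 l')) then T * T' else 0) := by
    rintro ⟨a, b⟩ hq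
    rw [mem_product] at hq
    have h5 := pair_free (μ := μ) hA hco (hU l a hq.1) (hU l' b hq.2) ((hR a hq.1).trans hRl) (M' := M b l')
      (hp a hq.1)
    refine h5.trans ?_
    gcongr
    by_cases h6 : Disjoint (cls a l (M a l)) (cls b l' (M b l'))
    · rw [if_pos h6, if_neg (not_not.2 h6)]
    · rw [if_neg h6, if_pos h6]
      exact mul_le_mul (h1 a hq.1) (h2 b hq.2) measureReal_nonneg hT
  refine (sum_le_sum hterm).trans ?_
  rw [sum_add_distrib, ← sum_filter, sum_const, nsmul_eq_mul]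
  refine add_le_add ?_ ?_
  · unfold sumU
    rw [sum_mul_sum, sum_product]
  · have hcard : ((U l ×ˢ U l').filter (fun q => ¬ Disjoint (cls q.1 l (M q.1 l)) (cls q.2 l' (M q.2 l')))).card
        ≤ (U l).card * R := by
      have h5 : (U l ×ˢ U l').filter (fun q => ¬ Disjoint (cls q.1 l (M q.1 l)) (cls q.2 l' (M q.2 l'))) ⊆
          (U l ×ˢ range R).image (fun q : ℕ × ℕ => (q.1, (q.1 + l * q.2) % l')) := by
        rintro ⟨a, b⟩ hq
        rw [mem_filter, mem_product, Finset.not_disjoint_iff] at hq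
        obtain ⟨⟨ha, hb⟩, n, hn1, hn2⟩ := hq
        have hn1' : n ∈ cls a l (M a l) := hn1
        have hn2' : n ∈ cls b l' (M b l') := hn2
        rw [mem_image]
        have h7 := mod_cls (hU l' b hb) hn2'
        rw [mem_cls] at hn1'
        obtain ⟨j, hj, rfl⟩ := hn1'
        refine ⟨(a, j), mem_product.2 ⟨ha, ?_⟩, ?_⟩
        · rw [mem_range]
          have := hR a ha
          show j < R
          omega
        · show (a, (a + l * j) % l') = (a, b)
          rw [h7]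
      refine (card_le_card h5).trans (card_image_le.trans ?_)
      rw [card_product, card_range]
    have hcard' : (((U l ×ˢ U l').filter (fun q => ¬ Disjoint (cls q.1 l (M q.1 l)) (cls q.2 l' (M q.2 l')))).card : ℝ)
        ≤ ((U l).card : ℝ) * R := by exact_mod_cast hcard
    exact mul_le_mul_of_nonneg_right hcard' (mul_nonneg hT hT')

end Pool.Agent.Q112.LE
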