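import Pool.Agent.Q112.LE.Fam

/-!
# Families of residue classes: the extreme values of the least elements
-/

set_option autoImplicit false

namespace Pool.Agent.Q112.LE

open Finset Filter MeasureTheory ProbabilityTheory Pool.Agent.Q120.GM Pool.Agent.Q120.AD
open scoped Topology

variable {Ω : Type*} [MeasurableSpace Ω] {μ : Measure Ω} [IsProbabilityMeasure μ] {A : Ω → Set ℕ} {Q : ℕ}

theorem ev_rpow (K : ℝ) {δ : ℝ} (hδ : 0 < δ) : ∀ᶠ m : ℕ in atTop, K ≤ (m : ℝ) ^ δ := by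
  have := (tendsto_rpow_atTop hδ).comp tendsto_natCast_atTop_atTop
  exact this.eventually_ge_atTop K

/-- The probability that some class of the family is late. -/
theorem fam_upper_prob (hA : IsModel μ (level Q) A) (hQ : 1 ≤ Q) {θ : ℝ} {𝓒 : ℕ → Finset ℕ} (h𝓒 : Fam Q θ 𝓒)
    {t : ℝ} (ht : 0 ≤ t) {δ : ℝ} (hδ : 0 < δ) :
    ∀ᶠ m : ℕ in atTop, μ.real (lateU A 𝓒 (mt Q t) m) ≤ (m : ℝ) ^ (-(t - θ - δ)) := by
  filter_upwards [fam_prob (μ := μ) hA hQ ht (show 0 < δ / 2 by linarith), h𝓒.card_le (δ / 2) (by linarith),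
    eventually_ge_atTop 1] with m h1 h2 hm
  have hm0 : (0 : ℝ) < m := by exact_mod_cast hm
  refine (lateU_le 𝓒 (mt Q t) m).trans ?_
  have h3 : sumU μ A 𝓒 (mt Q t) m ≤ (𝓒 m).card * (m : ℝ) ^ (-(t - δ / 2)) := by
    unfold sumU
    rw [← nsmul_eq_mul]
    exact Finset.sum_le_card_nsmul _ _ _ (fun c hc => (h1 c (h𝓒.lt m c hc) (h𝓒.cop m c hc)).1)
  refine h3.trans ((mul_le_mul_of_nonneg_right h2 (by positivity)).trans (le_of_eq ?_))
  rw [← Real.rpow_add hm0]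
  congr 1
  ring

/-- **Upper bound for all moduli.** -/
theorem fam_upper (hA : IsModel μ (level Q) A) (hQ : 1 ≤ Q) {θ : ℝ} {𝓒 : ℕ → Finset ℕ} (h𝓒 : Fam Q θ 𝓒)
    (hθ : 0 ≤ θ) {t : ℝ} (ht : 1 + θ < t) : ∀ᵐ ω ∂μ, ∀ᶠ m : ℕ in atTop, ω ∉ lateU A 𝓒 (mt Q t) m := by
  have h1 := fam_upper_prob (μ := μ) hA hQ h𝓒 (t := t) (by linarith) (show 0 < (t - θ - 1) / 2 by linarith)
  refine bc (g := fun m : ℕ => (m : ℝ) ^ (-(t - θ - (t - θ - 1) / 2))) ?_ h1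
  exact Real.summable_nat_rpow.2 (by linarith)

/-- **Upper bound for the number of exceptional moduli.** -/
theorem fam_few (hA : IsModel μ (level Q) A) (hQ : 1 ≤ Q) {θ : ℝ} {𝓒 : ℕ → Finset ℕ} (h𝓒 : Fam Q θ 𝓒)
    {t : ℝ} (ht0 : 0 ≤ t) (ht : t ≤ 1 + θ) {δ : ℝ} (hδ : 0 < δ) :
    ∀ᵐ ω ∂μ, ∀ᶠ x : ℕ in atTop, num (range (x + 1)) (fun m => lateU A 𝓒 (mt Q t) m) ω ≤ (x : ℝ) ^ (1 + θ - t + δ) := by
  have h1 := fam_upper_prob (μ := μ) hA hQ h𝓒 (t := t) ht0 (show 0 < δ / 2 by linarith)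
  have h2 := upper_count (μ := μ) (E := fun m => lateU A 𝓒 (mt Q t) m) (fun m => meas_lateU hA _ _ m)
    (show t - θ - δ / 2 ≤ 1 by linarith) h1 (show 0 < δ / 2 by linarith)
  filter_upwards [h2] with ω hω
  filter_upwards [hω] with x hx
  refine hx.trans (le_of_eq ?_)
  congr 1
  ring

/-- The classes of the family with a small probability of the least residue. -/
noncomputable def sub (Q : ℕ) (𝓒 : ℕ → Finset ℕ) (m : ℕ) : Finset ℕ := by
  classical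
  exact (𝓒 m).filter (fun c => level Q c ≤ 1 / 2)

theorem mem_sub {𝓒 : ℕ → Finset ℕ} {m c : ℕ} : c ∈ sub Q 𝓒 m ↔ c ∈ 𝓒 m ∧ level Q c ≤ 1 / 2 := by
  unfold sub
  rw [mem_filter]

theorem card_sub (hQ : 1 ≤ Q) {θ : ℝ} {𝓒 : ℕ → Finset ℕ} (h𝓒 : Fam Q θ 𝓒) (hθ : 0 < θ) {δ : ℝ} (hδ : 0 < δ) :
    ∀ᶠ m : ℕ in atTop, (m : ℝ) ^ (θ - δ) ≤ (sub Q 𝓒 m).card := by
  classical
  obtain ⟨δ', hδ'⟩ : ∃ δ', δ' = min δ θ / 2 := ⟨_, rfl⟩
  have hmin : 0 < min δ θ := lt_min hδ hθ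
  have hm1 : min δ θ ≤ δ := min_le_left _ _
  have hm2 : min δ θ ≤ θ := min_le_right _ _
  have h0 : 0 < δ' := by rw [hδ']; linarith
  have hq := qq_pos hQ
  obtain ⟨c₀, hc₀⟩ : ∃ c₀ : ℕ, ∀ c : ℕ, c₀ ≤ c → level Q c ≤ 1 / 2 := by
    obtain ⟨c₀, hc₀⟩ := eventually_atTop.1 (hL1.eventually_ge_atTop (2 * qq Q))
    refine ⟨max c₀ 1, fun c hc => ?_⟩
    have h1 := hc₀ c (le_trans (le_max_left _ _) hc)
    have h2 : 1 ≤ c := le_trans (le_max_right _ _) hc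
    have h3 : (0 : ℝ) < c := by exact_mod_cast h2
    have h4 := level_le (Q := Q) (x := (c : ℝ)) (m := c) (by linarith) h3 le_rfl
    refine h4.trans ?_
    rw [div_le_iff₀ (by linarith)]
    linarith
  filter_upwards [h𝓒.card_ge δ' h0, ev_rpow (1 + c₀ : ℝ) h0, eventually_ge_atTop 1] with m h1 h2 hm
  have hm0 : (0 : ℝ) < m := by exact_mod_cast hm
  have hm1' : (1 : ℝ) ≤ m := by exact_mod_cast hm
  have h4 : (𝓒 m).card ≤ (sub Q 𝓒 m).card + c₀ := by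
    have h5 : 𝓒 m ⊆ sub Q 𝓒 m ∪ range c₀ := by
      intro c hc
      rw [mem_union, mem_range, mem_sub]
      by_cases h6 : c < c₀
      · exact Or.inr h6
      · exact Or.inl ⟨hc, hc₀ c (by omega)⟩
    refine (card_le_card h5).trans ((card_union_le _ _).trans ?_)
    rw [card_range]
  have h5 : ((𝓒 m).card : ℝ) ≤ (sub Q 𝓒 m).card + c₀ := by exact_mod_cast h4
  have h6 : (m : ℝ) ^ (θ - δ) ≤ (m : ℝ) ^ (θ - 2 * δ') := Real.rpow_le_rpow_of_exponent_le hm1' (by rw [hδ']; linarith)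
  have h7 : (1 : ℝ) ≤ (m : ℝ) ^ (θ - 2 * δ') := Real.one_le_rpow hm1' (by rw [hδ']; linarith)
  have h8 : (m : ℝ) ^ (θ - δ') = (m : ℝ) ^ (θ - 2 * δ') * (m : ℝ) ^ δ' := by
    rw [← Real.rpow_add hm0]
    congr 1
    ring
  have hc0 : (0 : ℝ) ≤ c₀ := Nat.cast_nonneg _
  rw [h8] at h1
  have h9 : (m : ℝ) ^ (θ - 2 * δ') * (1 + c₀) ≤ (m : ℝ) ^ (θ - 2 * δ') * (m : ℝ) ^ δ' :=
    mul_le_mul_of_nonneg_left h2 (by linarith)
  nlinarith

/-- The sum of the probabilities from below. -/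
theorem le_sumU (hA : IsModel μ (level Q) A) (hQ : 1 ≤ Q) {θ : ℝ} {𝓒 : ℕ → Finset ℕ} (h𝓒 : Fam Q θ 𝓒) (hθ : 0 < θ)
    {t : ℝ} (ht : 0 ≤ t) {δ : ℝ} (hδ : 0 < δ) :
    ∀ᶠ m : ℕ in atTop, (m : ℝ) ^ (θ - t - δ) ≤ sumU μ A (sub Q 𝓒) (mt Q t) m := by
  filter_upwards [fam_prob (μ := μ) hA hQ ht (show 0 < δ / 2 by linarith), card_sub hQ h𝓒 hθ (show 0 < δ / 2 by linarith),
    eventually_ge_atTop 1] with m h1 h2 hm
  have hm0 : (0 : ℝ) < m := by exact_mod_cast hm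
  have h3 : ((sub Q 𝓒 m).card : ℝ) * (m : ℝ) ^ (-(t + δ / 2)) ≤ sumU μ A (sub Q 𝓒) (mt Q t) m := by
    unfold sumU
    rw [← nsmul_eq_mul]
    refine Finset.card_nsmul_le_sum _ _ _ (fun c hc => ?_)
    rw [mem_sub] at hc
    exact (h1 c (h𝓒.lt m c hc.1) (h𝓒.cop m c hc.1)).2 hc.2
  refine le_trans ?_ h3
  have h4 : (m : ℝ) ^ (θ - t - δ) = (m : ℝ) ^ (θ - δ / 2) * (m : ℝ) ^ (-(t + δ / 2)) := by
    rw [← Real.rpow_add hm0]
    congr 1
    ring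
  rw [h4]
  exact mul_le_mul_of_nonneg_right h2 (by positivity)

theorem sub_lt {θ : ℝ} {𝓒 : ℕ → Finset ℕ} (h𝓒 : Fam Q θ 𝓒) : ∀ d, ∀ a ∈ sub Q 𝓒 d, a < d :=
  fun d a ha => h𝓒.lt d a (mem_sub.1 ha).1

/-- **Lower bound for all moduli.** -/
theorem fam_lower (hA : IsModel μ (level Q) A) (hQ : 1 ≤ Q) {θ : ℝ} {𝓒 : ℕ → Finset ℕ} (h𝓒 : Fam Q θ 𝓒)
    {t : ℝ} (ht : 0 ≤ t) (htθ : t < θ) : ∀ᵐ ω ∂μ, ∀ᶠ m : ℕ in atTop, ω ∈ lateU A (sub Q 𝓒) (mt Q t) m := by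
  have hs : Summable (fun x : ℕ => (x : ℝ) ^ (-(2 : ℝ))) := Real.summable_nat_rpow.2 (by norm_num)
  have hb : ∀ᶠ m : ℕ in atTop, μ.real (lateU A (sub Q 𝓒) (mt Q t) m)ᶜ ≤ (m : ℝ) ^ (-(2 : ℝ)) := by
    filter_upwards [le_sumU (μ := μ) hA hQ h𝓒 (by linarith) ht (show 0 < (θ - t) / 2 by linarith),
      ev_power 2 1 (show 0 < (θ - t) / 2 by linarith), eventually_ge_atTop 1] with m h1 h2 hm
    have hm0 : (0 : ℝ) < m := by exact_mod_cast hm
    refine (compl_lateU_le hA (sub_lt h𝓒) (mt Q t) m).trans ?_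
    rw [Real.rpow_def_of_pos hm0, Real.exp_le_exp]
    rw [show θ - t - (θ - t) / 2 = (θ - t) / 2 by ring] at h1
    rw [pow_one] at h2
    linarith
  filter_upwards [bc hs hb] with ω hω
  filter_upwards [hω] with m hm
  by_contra hcon
  exact hm hcon

/-- **Many prime moduli with a late class.** -/
theorem fam_many (hA : IsModel μ (level Q) A) (hQ : 1 ≤ Q) {θ : ℝ} {𝓒 : ℕ → Finset ℕ} (h𝓒 : Fam Q θ 𝓒)
    (hθ : 0 < θ) {t : ℝ} (ht : θ < t) (ht2 : t < 1 + θ) {δ : ℝ} (hδ : 0 < δ) :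
    ∀ᵐ ω ∂μ, ∀ᶠ x : ℕ in atTop, (x : ℝ) ^ (1 + θ - t - δ) ≤
      num ((range (x + 1)).filter Nat.Prime) (fun m => lateU A (sub Q 𝓒) (mt Q t) m) ω := by
  have hQ0 : (0 : ℝ) < Q := by exact_mod_cast hQ
  have ht0 : 0 < t := by linarith
  obtain ⟨mn, hmn⟩ : ∃ mn, mn = min (min (t - θ) (1 + θ - t)) (min (min δ 1) θ) := ⟨_, rfl⟩
  obtain ⟨κ, hκ⟩ : ∃ κ, κ = mn / 20 := ⟨_, rfl⟩
  have hm : 0 < mn := by
    rw [hmn]
    exact lt_min (lt_min (by linarith) (by linarith)) (lt_min (lt_min hδ one_pos) hθ)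
  have hm1 : mn ≤ t - θ := by rw [hmn]; exact (min_le_left _ _).trans (min_le_left _ _)
  have hm2 : mn ≤ 1 + θ - t := by rw [hmn]; exact (min_le_left _ _).trans (min_le_right _ _)
  have hm3 : mn ≤ δ := by rw [hmn]; exact (min_le_right _ _).trans ((min_le_left _ _).trans (min_le_left _ _))
  have hm4 : mn ≤ 1 := by rw [hmn]; exact (min_le_right _ _).trans ((min_le_left _ _).trans (min_le_right _ _))
  have hm5 : mn ≤ θ := by rw [hmn]; exact (min_le_right _ _).trans (min_le_right _ _)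
  have hκ0 : 0 < κ := by rw [hκ]; linarith
  have hκ1 : 20 * κ ≤ t - θ := by rw [hκ]; linarith
  have hκ2 : 20 * κ ≤ 1 + θ - t := by rw [hκ]; linarith
  have hκ3 : 20 * κ ≤ δ := by rw [hκ]; linarith
  have hκ4 : 20 * κ ≤ 1 := by rw [hκ]; linarith
  have hκ5 : 20 * κ ≤ θ := by rw [hκ]; linarith
  -- the estimates for a single modulus
  have k1 := ev_pk (fam_prob (μ := μ) hA hQ ht0.le hκ0)
  have k2 := ev_pk (le_sumU (μ := μ) hA hQ h𝓒 hθ ht0.le hκ0)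
  have k3 := ev_pk (h𝓒.card_le κ hκ0)
  have k4 : ∀ᶠ k : ℕ in atTop, (8 : ℝ) ^ (t - κ) ≤ ((2 : ℝ) ^ k) ^ κ := by
    have h1 := two_pow_tendsto.eventually (ev_rpow ((8 : ℝ) ^ (t - κ)) hκ0)
    filter_upwards [h1] with k hk
    simpa using hk
  have k5 : ∀ᶠ k : ℕ in atTop, (40 : ℝ) ≤ ((2 : ℝ) ^ k) ^ κ := by
    have h1 := two_pow_tendsto.eventually (ev_rpow (40 : ℝ) hκ0)
    filter_upwards [h1] with k hk
    simpa using hk
  have k6 : ∀ᶠ k : ℕ in atTop, (t + 5) * Real.log ((2 : ℝ) ^ k) ^ 2 ≤ ((2 : ℝ) ^ k) ^ κ := by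
    have h1 := two_pow_tendsto.eventually (ev_power (t + 5) 2 hκ0)
    filter_upwards [h1] with k hk
    simpa using hk
  have k7 : ∀ᶠ k : ℕ in atTop, 4 * Real.log ((2 : ℝ) ^ k) ^ 1 ≤ ((2 : ℝ) ^ k) ^ κ := by
    have h1 := two_pow_tendsto.eventually (ev_power 4 1 hκ0)
    filter_upwards [h1] with k hk
    simpa using hk
  have k8 : ∀ᶠ k : ℕ in atTop, 1 ≤ Real.log ((2 : ℝ) ^ k) := by
    have h1 := two_pow_tendsto.eventually (hl.eventually_ge_atTop 1)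
    filter_upwards [h1] with k hk
    simpa using hk
  -- bounds at level k
  have base : ∀ᶠ k : ℕ in atTop, ∀ l ∈ pk k,
      (∀ a ∈ sub Q 𝓒 l, μ.real (free A (cls a l (mt Q t a l))) ≤ ((2 : ℝ) ^ k) ^ (-(t - 2 * κ))) ∧
      sumU μ A (sub Q 𝓒) (mt Q t) l ≤ ((2 : ℝ) ^ k) ^ (-(2 * κ)) ∧
      ((2 : ℝ) ^ k) ^ (θ - t - 2 * κ) ≤ sumU μ A (sub Q 𝓒) (mt Q t) l ∧
      ((sub Q 𝓒 l).card : ℝ) ≤ ((2 : ℝ) ^ k) ^ (θ + κ) := by
    filter_upwards [k1, k2, k3, k4, k5] with k h1 h2 h3 h4 h5 l hl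
    obtain ⟨D, hD⟩ : ∃ D : ℝ, D = (2 : ℝ) ^ k := ⟨_, rfl⟩
    rw [← hD] at h4 h5 ⊢
    have hD0 : 0 < D := by rw [hD]; positivity
    have hD1 : 1 ≤ D := by rw [hD]; exact one_le_pow₀ (by norm_num)
    have hl' := mem_pk.1 hl
    have hlp : (0 : ℝ) < l := by exact_mod_cast hl'.2.1.pos
    have hlD : (l : ℝ) ≤ D := by rw [hD]; exact_mod_cast hl'.1
    have hDl : D / 8 ≤ l := by
      have : (((2 ^ k : ℕ)) : ℝ) ≤ ((8 * l : ℕ) : ℝ) := by exact_mod_cast hl'.2.2.le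
      push_cast at this
      rw [hD]
      linarith
    have e1 : ∀ a ∈ sub Q 𝓒 l, μ.real (free A (cls a l (mt Q t a l))) ≤ D ^ (-(t - 2 * κ)) := by
      intro a ha
      have ha' := (mem_sub.1 ha).1
      refine (h1 l hl a (h𝓒.lt l a ha') (h𝓒.cop l a ha')).1.trans ?_
      refine (Real.rpow_le_rpow_of_nonpos (by positivity) hDl (by linarith)).trans ?_
      rw [Real.div_rpow hD0.le (by norm_num), Real.rpow_neg (by norm_num : (0 : ℝ) ≤ 8), div_inv_eq_mul]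
      have e2 : D ^ (-(t - 2 * κ)) = D ^ (-(t - κ)) * D ^ κ := by
        rw [← Real.rpow_add hD0]
        congr 1
        ring
      rw [e2]
      exact mul_le_mul_of_nonneg_left h4 (by positivity)
    have e3 : ((sub Q 𝓒 l).card : ℝ) ≤ D ^ (θ + κ) := by
      have e4 : (sub Q 𝓒 l).card ≤ (𝓒 l).card := by
        apply card_le_card
        intro a ha
        exact (mem_sub.1 ha).1
      have e5 : ((sub Q 𝓒 l).card : ℝ) ≤ (𝓒 l).card := by exact_mod_cast e4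
      refine e5.trans ((h3 l hl).trans ?_)
      exact Real.rpow_le_rpow hlp.le hlD (by linarith)
    refine ⟨e1, ?_, ?_, e3⟩
    · have e2 : sumU μ A (sub Q 𝓒) (mt Q t) l ≤ (sub Q 𝓒 l).card * D ^ (-(t - 2 * κ)) := by
        unfold sumU
        rw [← nsmul_eq_mul]
        exact Finset.sum_le_card_nsmul _ _ _ e1
      refine e2.trans ((mul_le_mul_of_nonneg_right e3 (by positivity)).trans ?_)
      rw [← Real.rpow_add hD0]
      exact Real.rpow_le_rpow_of_exponent_le hD1 (by linarith)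
    · have e2 := h2 l hl
      refine le_trans ?_ e2
      rcases le_total 0 (θ - t - κ) with h6 | h6
      · linarith
      · refine le_trans ?_ (Real.rpow_le_rpow_of_nonpos hlp hlD h6)
        exact Real.rpow_le_rpow_of_exponent_le hD1 (by linarith)
  have hτ : ∀ᶠ k : ℕ in atTop, 8 * ((2 : ℝ) ^ k) ^ (-(2 * κ)) ≤ ((2 : ℝ) ^ k) ^ (-κ) ∧ ((2 : ℝ) ^ k) ^ (-(2 * κ)) ≤ 1 / 4 := by
    filter_upwards [k5] with k h5
    obtain ⟨D, hD⟩ : ∃ D : ℝ, D = (2 : ℝ) ^ k := ⟨_, rfl⟩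
    rw [← hD] at h5 ⊢
    have hD0 : 0 < D := by rw [hD]; positivity
    have e1 : D ^ (-(2 * κ)) * D ^ κ = D ^ (-κ) := by
      rw [← Real.rpow_add hD0]
      congr 1
      ring
    have e2 : D ^ (-κ) * D ^ κ = 1 := by rw [← Real.rpow_add hD0, neg_add_cancel, Real.rpow_zero]
    have e3 : 0 < D ^ (-(2 * κ)) := by positivity
    have e4 : 0 < D ^ (-κ) := by positivity
    have e5 : 8 ≤ D ^ κ := by linarith
    have e6 : D ^ (-κ) ≤ 1 / 8 := by nlinarith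
    refine ⟨by nlinarith, ?_⟩
    nlinarith
  -- the lower bound for the probabilities
  have low : ∀ᶠ k : ℕ in atTop, ∀ l ∈ pk k, sumU μ A (sub Q 𝓒) (mt Q t) l * (1 - ((2 : ℝ) ^ k) ^ (-(2 * κ))) ≤
      μ.real (lateU A (sub Q 𝓒) (mt Q t) l) := by
    filter_upwards [base] with k h1 l hl
    refine le_trans ?_ (le_lateU hA (sub_lt h𝓒) (mt Q t) l)
    refine mul_le_mul_of_nonneg_left ?_ (sum_nonneg (fun _ _ => measureReal_nonneg))
    linarith [(h1 l hl).2.1]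
  have hS : ∀ᶠ k : ℕ in atTop, ((2 : ℝ) ^ k) ^ (1 + θ - t - 4 * κ) ≤
      ∑ d ∈ pk k, μ.real (lateU A (sub Q 𝓒) (mt Q t) d) := by
    filter_upwards [base, low, hτ, card_pk, k7, k8] with k h1 h2 h3 h4 h5 h6
    obtain ⟨D, hD⟩ : ∃ D : ℝ, D = (2 : ℝ) ^ k := ⟨_, rfl⟩
    rw [← hD] at h1 h2 h3 h4 h5 h6 ⊢
    have hD0 : 0 < D := by rw [hD]; positivity
    have e1 : ((pk k).card : ℝ) * (D ^ (θ - t - 2 * κ) / 2) ≤ ∑ d ∈ pk k, μ.real (lateU A (sub Q 𝓒) (mt Q t) d) := by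
      rw [← nsmul_eq_mul]
      refine Finset.card_nsmul_le_sum _ _ _ (fun l hl => ?_)
      refine le_trans ?_ (h2 l hl)
      have e2 := (h1 l hl).2.2.1
      have e3 : 0 < D ^ (θ - t - 2 * κ) := by positivity
      nlinarith [h3.2]
    refine le_trans ?_ e1
    have e2 : 2 * D ^ (1 - κ) ≤ (pk k).card := by
      have e3 : D = D ^ (1 - κ) * D ^ κ := by
        rw [← Real.rpow_add hD0, sub_add_cancel, Real.rpow_one]
      rw [pow_one] at h5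
      have e4 : D ^ (1 - κ) * (4 * Real.log D) ≤ D ^ (1 - κ) * D ^ κ := mul_le_mul_of_nonneg_left h5 (by positivity)
      rw [← e3] at e4
      have e5 : (2 * D ^ (1 - κ)) * Real.log D ≤ (pk k).card * Real.log D := by linarith
      exact le_of_mul_le_mul_right e5 (by linarith)
    have e3 : D ^ (1 + θ - t - 4 * κ) ≤ D ^ (1 - κ) * D ^ (θ - t - 2 * κ) := by
      rw [← Real.rpow_add hD0]
      exact Real.rpow_le_rpow_of_exponent_le (by rw [hD]; exact one_le_pow₀ (by norm_num)) (by linarith)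
    have e4 : 0 < D ^ (θ - t - 2 * κ) := by positivity
    nlinarith
  have hc' : ∀ᶠ k : ℕ in atTop, ∀ i ∈ pk k, ∀ j ∈ pk k, i ≠ j →
      μ.real (lateU A (sub Q 𝓒) (mt Q t) i ∩ lateU A (sub Q 𝓒) (mt Q t) j) ≤ (1 + ((2 : ℝ) ^ k) ^ (-κ)) *
        (μ.real (lateU A (sub Q 𝓒) (mt Q t) i) * μ.real (lateU A (sub Q 𝓒) (mt Q t) j)) := by
    have kp := ev_pk (hl.eventually_ge_atTop (2 * qq Q + 2))
    have kp1 := ev_pk (hl.eventually_ge_atTop 1)
    have k9 : ∀ᶠ k : ℕ in atTop, (8 : ℝ) * ((2 : ℝ) ^ k) ^ κ ≤ (2 : ℝ) ^ k := by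
      filter_upwards [k5] with k h5
      obtain ⟨D, hD⟩ : ∃ D : ℝ, D = (2 : ℝ) ^ k := ⟨_, rfl⟩
      rw [← hD] at h5 ⊢
      have hD0 : 0 < D := by rw [hD]; positivity
      have hD1 : 1 ≤ D := by rw [hD]; exact one_le_pow₀ (by norm_num)
      have e1 : D ^ κ * D ^ κ ≤ D := by
        rw [← Real.rpow_add hD0]
        nth_rewrite 2 [← Real.rpow_one D]
        exact Real.rpow_le_rpow_of_exponent_le hD1 (by linarith)
      have e2 : 0 < D ^ κ := by positivity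
      nlinarith
    filter_upwards [base, low, hτ, k6, k8, kp, k9, kp1] with k h1 h2 h3 h4 h5 h6 h7 h8 i hi j hj hij
    obtain ⟨D, hD⟩ : ∃ D : ℝ, D = (2 : ℝ) ^ k := ⟨_, rfl⟩
    rw [← hD] at h1 h2 h3 h4 h5 h7 ⊢
    have hD0 : 0 < D := by rw [hD]; positivity
    have hD1 : 1 ≤ D := by rw [hD]; exact one_le_pow₀ (by norm_num)
    have hi' := mem_pk.1 hi
    have hj' := mem_pk.1 hj
    have hco : i.Coprime j := (Nat.coprime_primes hi'.2.1 hj'.2.1).2 hij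
    have hiD : (i : ℝ) ≤ D := by rw [hD]; exact_mod_cast hi'.1
    have hip : (0 : ℝ) < i := by exact_mod_cast hi'.2.1.pos
    have hDj : D / 8 ≤ j := by
      have : (((2 ^ k : ℕ)) : ℝ) ≤ ((8 * j : ℕ) : ℝ) := by exact_mod_cast hj'.2.2.le
      push_cast at this
      rw [hD]
      linarith
    have hlogi : Real.log i ≤ Real.log D := Real.log_le_log hip hiD
    have hlogi1 := h8 i hi
    obtain ⟨R, hR⟩ : ∃ R : ℕ, R = ⌊t * Real.log i ^ 2 + 1⌋₊ + 1 := ⟨_, rfl⟩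
    have hR1 : ∀ a ∈ sub Q 𝓒 i, mt Q t a i + 1 ≤ R := by
      intro a ha
      rw [hR]
      have ha1 : a < i := sub_lt h𝓒 i a ha
      have e1 := MM_le hQ (c := (a : ℤ)) (m := i) (v := t * Real.log i) (by
        rw [abs_of_nonneg (by positivity)]
        exact_mod_cast ha1.le) hi'.2.1.one_lt.le (by positivity)
      have e2 := one_le_kap hQ i
      have e3 := kap_pos hQ i
      have e4 : (mt Q t a i : ℝ) ≤ t * Real.log i ^ 2 + 1 := by
        have e5 : 0 ≤ t * Real.log (i : ℝ) ^ 2 := by positivity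
        by_contra hcon
        push Not at hcon
        have e6 : (t * Real.log i ^ 2 + 1) * kap Q i < mt Q t a i * kap Q i := mul_lt_mul_of_pos_right hcon e3
        have e7 : (mt Q t a i : ℝ) * kap Q i ≤ t * Real.log i * Real.log i + kap Q i := e1
        nlinarith
      have := Nat.le_floor e4
      omega
    have hR2 : (R : ℝ) ≤ D ^ κ := by
      rw [hR]
      push_cast
      have e1 : (⌊t * Real.log i ^ 2 + 1⌋₊ : ℝ) ≤ t * Real.log i ^ 2 + 1 := Nat.floor_le (by positivity)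
      have e2 : Real.log (i : ℝ) ^ 2 ≤ Real.log D ^ 2 := by nlinarith
      have e3 : t * Real.log i ^ 2 ≤ t * Real.log D ^ 2 := mul_le_mul_of_nonneg_left e2 ht0.le
      have e4 : 1 ≤ Real.log D ^ 2 := one_le_pow₀ h5
      nlinarith
    have hR3 : R ≤ j := by
      have : (R : ℝ) ≤ j := by linarith
      exact_mod_cast this
    obtain ⟨T, hT⟩ : ∃ T : ℝ, T = D ^ (-(t - 2 * κ)) := ⟨_, rfl⟩
    have hT0 : 0 < T := by rw [hT]; positivity
    have hpair := pair_lateU (μ := μ) (A := A) hA (sub_lt h𝓒) (M := mt Q t) (T := T) (T' := T) hco hR1 hR3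
      hT0.le hT0.le
      (fun a ha n hn => by
        rw [mem_cls] at hn
        obtain ⟨b, _, rfl⟩ := hn
        rcases Nat.eq_zero_or_pos b with hb | hb
        · rw [hb, mul_zero, add_zero]
          exact (mem_sub.1 ha).2
        · have hlog2 := Real.log_two_lt_d9
          have e2 := h6 i hi
          have hq := qq_pos hQ
          have e3 : 0 < Real.log (i : ℝ) := by linarith
          refine (level_le e3 hip ?_).trans ?_
          · have e4 : i ≤ a + i * b := by nlinarith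
            exact_mod_cast e4
          · rw [div_le_iff₀ e3]
            linarith)
      (by rw [hT]; exact (h1 i hi).1) (by rw [hT]; exact (h1 j hj).1)
    obtain ⟨S, hS⟩ : ∃ S, S = sumU μ A (sub Q 𝓒) (mt Q t) i := ⟨_, rfl⟩
    obtain ⟨S', hS'⟩ : ∃ S', S' = sumU μ A (sub Q 𝓒) (mt Q t) j := ⟨_, rfl⟩
    have g1 := (h1 i hi).2.2.1
    have g2 := (h1 j hj).2.2.1
    have g3 := h2 i hi
    have g4 := h2 j hj
    rw [← hS] at g1 g3
    rw [← hS'] at g2 g4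
    rw [← hS, ← hS'] at hpair
    obtain ⟨τ, hτd⟩ : ∃ τ : ℝ, τ = D ^ (-(2 * κ)) := ⟨_, rfl⟩
    rw [← hτd] at g3 g4 h3
    have hτ0 : 0 < τ := by rw [hτd]; positivity
    have g0 : 0 < D ^ (θ - t - 2 * κ) := by positivity
    have hSS : D ^ (θ - t - 2 * κ) * D ^ (θ - t - 2 * κ) ≤ S * S' := mul_le_mul g1 g2 g0.le (by linarith)
    have hX : ((sub Q 𝓒 i).card : ℝ) * R * (T * T) ≤ τ * (S * S') := by
      have e1 : ((sub Q 𝓒 i).card : ℝ) * R ≤ D ^ (θ + κ) * D ^ κ :=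
        mul_le_mul (h1 i hi).2.2.2 hR2 (Nat.cast_nonneg _) (by positivity)
      have e2 : ((sub Q 𝓒 i).card : ℝ) * R * (T * T) ≤ D ^ (θ + κ) * D ^ κ * (T * T) :=
        mul_le_mul_of_nonneg_right e1 (by positivity)
      refine e2.trans ?_
      refine le_trans ?_ (mul_le_mul_of_nonneg_left hSS hτ0.le)
      rw [hT, hτd]
      rw [← Real.rpow_add hD0, ← Real.rpow_add hD0, ← Real.rpow_add hD0, ← Real.rpow_add hD0, ← Real.rpow_add hD0]
      exact Real.rpow_le_rpow_of_exponent_le hD1 (by linarith)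
    have hSS0 : 0 < S * S' := lt_of_lt_of_le (by positivity) hSS
    have hPP : S * S' * (1 - τ) ^ 2 ≤ μ.real (lateU A (sub Q 𝓒) (mt Q t) i) * μ.real (lateU A (sub Q 𝓒) (mt Q t) j) := by
      have e1 : (S * (1 - τ)) * (S' * (1 - τ)) ≤
          μ.real (lateU A (sub Q 𝓒) (mt Q t) i) * μ.real (lateU A (sub Q 𝓒) (mt Q t) j) :=
        mul_le_mul g3 g4 (mul_nonneg (by linarith) (by linarith [h3.2])) measureReal_nonneg
      calc S * S' * (1 - τ) ^ 2 = (S * (1 - τ)) * (S' * (1 - τ)) := by ring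
        _ ≤ _ := e1
    have hfin : 1 + τ ≤ (1 + D ^ (-κ)) * (1 - τ) ^ 2 := by
      have e1 : (1 + 8 * τ) * (1 - τ) ^ 2 ≤ (1 + D ^ (-κ)) * (1 - τ) ^ 2 :=
        mul_le_mul_of_nonneg_right (by linarith [h3.1]) (sq_nonneg _)
      have e2 : 1 + τ ≤ (1 + 8 * τ) * (1 - τ) ^ 2 := by nlinarith [h3.2, mul_pos hτ0 hτ0, pow_pos hτ0 3]
      linarith
    calc μ.real (lateU A (sub Q 𝓒) (mt Q t) i ∩ lateU A (sub Q 𝓒) (mt Q t) j)
        ≤ S * S' + ((sub Q 𝓒 i).card : ℝ) * R * (T * T) := hpair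
      _ ≤ (S * S') * (1 + τ) := by nlinarith
      _ ≤ (S * S') * ((1 + D ^ (-κ)) * (1 - τ) ^ 2) := mul_le_mul_of_nonneg_left hfin hSS0.le
      _ = (1 + D ^ (-κ)) * (S * S' * (1 - τ) ^ 2) := by ring
      _ ≤ _ := mul_le_mul_of_nonneg_left hPP (by positivity)
  have hfinal := lower_count (μ := μ) (E := fun d => lateU A (sub Q 𝓒) (mt Q t) d)
    (fun d => meas_lateU hA _ _ d) (P := pk)
    (show 0 < 1 + θ - t - 4 * κ by linarith) hS hκ0 hc' (show 0 < δ / 2 by linarith)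
  filter_upwards [hfinal] with ω hω
  filter_upwards [hω, eventually_ge_atTop 1] with x h1 hx1
  have hx1' : (1 : ℝ) ≤ x := by exact_mod_cast hx1
  have h2 : (x : ℝ) ^ (1 + θ - t - δ) ≤ (x : ℝ) ^ (1 + θ - t - 4 * κ - δ / 2) :=
    Real.rpow_le_rpow_of_exponent_le hx1' (by linarith)
  refine h2.trans (h1.trans ?_)
  have h3 : pk (Nat.log 2 x) ⊆ (range (x + 1)).filter Nat.Prime := by
    intro p hp
    rw [mem_pk] at hp
    rw [mem_filter, mem_range]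
    have := Nat.pow_log_le_self 2 (show x ≠ 0 by omega)
    exact ⟨by omega, hp.2.1⟩
  exact num_mono h3 _ ω

end Pool.Agent.Q112.LE
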