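import Pool.Agent.Q112.LE.FamLaw

/-!
# Families of residue classes: the law of the extreme values
-/

set_option autoImplicit false

namespace Pool.Agent.Q112.LE

open Finset Filter MeasureTheory ProbabilityTheory Pool.Agent.Q120.GM Pool.Agent.Q120.AD
open scoped Topology

/-- Some class of the family modulo `m` has no element up to `t φ_Q(m) (log m)^2`. -/
def Exceeds (S : Set ℕ) (Q : ℕ) (𝓒 : ℕ → Finset ℕ) (t : ℝ) (m : ℕ) : Prop :=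
  ∃ c ∈ 𝓒 m, Late S c m (t * phiQ Q m * Real.log m ^ 2)

/-- The law of the extreme values. -/
structure ExtLaw (S : Set ℕ) (Q : ℕ) (𝓒 : ℕ → Finset ℕ) (θ : ℝ) : Prop where
  upper : ∀ t : ℝ, 1 + θ < t → ∀ᶠ m : ℕ in atTop, ¬ Exceeds S Q 𝓒 t m
  lower : ∀ t : ℝ, t < θ → ∀ᶠ m : ℕ in atTop, Exceeds S Q 𝓒 t m
  few : ∀ t : ℝ, θ < t → t < 1 + θ → ∀ δ : ℝ, 0 < δ → ∀ᶠ x : ℕ in atTop,
    (Set.ncard {m : ℕ | m ≤ x ∧ Exceeds S Q 𝓒 t m} : ℝ) ≤ (x : ℝ) ^ (1 + θ - t + δ)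
  many : ∀ t : ℝ, θ < t → t < 1 + θ → ∀ δ : ℝ, 0 < δ → ∀ᶠ x : ℕ in atTop,
    (x : ℝ) ^ (1 + θ - t - δ) ≤ (Set.ncard {m : ℕ | m ≤ x ∧ m.Prime ∧ Exceeds S Q 𝓒 t m} : ℝ)

theorem exceeds_mono {S : Set ℕ} {Q : ℕ} {𝓒 𝓒' : ℕ → Finset ℕ} {t t' : ℝ} {m : ℕ} (h𝓒 : 𝓒 m ⊆ 𝓒' m) (h : t' ≤ t)
    (h1 : Exceeds S Q 𝓒 t m) : Exceeds S Q 𝓒' t' m := by
  obtain ⟨c, hc, h2⟩ := h1
  refine ⟨c, h𝓒 hc, late_mono ?_ h2⟩
  have := phiQ_nonneg Q m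
  gcongr

theorem fin_le (P : ℕ → Prop) (x : ℕ) : Set.Finite {m : ℕ | m ≤ x ∧ P m} :=
  (Set.finite_le_nat x).subset (fun _ h => h.1)

/-- Comparison of a count with the number of events. -/
theorem ncard_le_num {Ω : Type*} {E : ℕ → Set Ω} {P : ℕ → Prop} {ω : Ω} {m₀ : ℕ} (h : ∀ m, m₀ ≤ m → P m → ω ∈ E m)
    (x : ℕ) : (Set.ncard {m : ℕ | m ≤ x ∧ P m} : ℝ) ≤ num (range (x + 1)) E ω + m₀ := by
  classical
  have h1 : {m : ℕ | m ≤ x ∧ P m} ⊆ (((range (x + 1)).filter (fun m => ω ∈ E m) ∪ range m₀ : Finset ℕ) : Set ℕ) := by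
    rintro m ⟨h2, h3⟩
    rw [mem_coe, mem_union, mem_filter, mem_range, mem_range]
    by_cases h4 : m < m₀
    · exact Or.inr h4
    · exact Or.inl ⟨by omega, h m (by omega) h3⟩
  have h2 := Set.ncard_le_ncard h1 (Finset.finite_toSet _)
  rw [Set.ncard_coe_finset] at h2
  have h3 := h2.trans (card_union_le _ _)
  rw [card_range] at h3
  rw [num_card]
  exact_mod_cast h3

/-- Comparison of the number of events with a count. -/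
theorem num_le_ncard {Ω : Type*} {E : ℕ → Set Ω} {P : ℕ → Prop} {ω : Ω} {m₀ : ℕ} (h : ∀ m, m₀ ≤ m → ω ∈ E m → P m)
    (x : ℕ) : num ((range (x + 1)).filter Nat.Prime) E ω ≤ (Set.ncard {m : ℕ | m ≤ x ∧ m.Prime ∧ P m} : ℝ) + m₀ := by
  classical
  have h1 : ((((range (x + 1)).filter Nat.Prime).filter (fun m => ω ∈ E m) : Finset ℕ) : Set ℕ) ⊆
      {m : ℕ | m ≤ x ∧ m.Prime ∧ P m} ∪ ((range m₀ : Finset ℕ) : Set ℕ) := by
    intro m hm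
    rw [mem_coe, mem_filter, mem_filter, mem_range] at hm
    by_cases h4 : m < m₀
    · exact Or.inr (mem_coe.2 (mem_range.2 h4))
    · exact Or.inl ⟨by omega, hm.1.2, h m (by omega) hm.2⟩
  have h2 := Set.ncard_le_ncard h1 ((fin_le _ x).union (Finset.finite_toSet _))
  rw [Set.ncard_coe_finset] at h2
  have h3 := h2.trans (Set.ncard_union_le _ _)
  rw [Set.ncard_coe_finset, card_range] at h3
  rw [num_card]
  exact_mod_cast h3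

theorem power_add {e δ : ℝ} (hδ : 0 < δ) (he : 0 ≤ e) (K : ℝ) (hK : 0 ≤ K) :
    ∀ᶠ x : ℕ in atTop, (x : ℝ) ^ e + K ≤ (x : ℝ) ^ (e + δ) := by
  filter_upwards [ev_rpow (1 + K) hδ, eventually_ge_atTop 1] with x h1 hx
  have hx0 : (0 : ℝ) < x := by exact_mod_cast hx
  have hx1 : (1 : ℝ) ≤ x := by exact_mod_cast hx
  have h2 : 1 ≤ (x : ℝ) ^ e := Real.one_le_rpow hx1 he
  rw [Real.rpow_add hx0]
  nlinarith

variable {Ω : Type*} [MeasurableSpace Ω] {μ : Measure Ω} [IsProbabilityMeasure μ] {A : Ω → Set ℕ} {Q : ℕ}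

omit [MeasurableSpace Ω] in
theorem exceeds_iff (hQ : 1 ≤ Q) {θ : ℝ} {𝓒 : ℕ → Finset ℕ} (h𝓒 : Fam Q θ 𝓒) {t : ℝ} (ht : 0 < t) :
    ∃ m₀ : ℕ, ∀ m, m₀ ≤ m → ∀ ω : Ω, (ω ∈ lateU A 𝓒 (mt Q t) m ↔ Exceeds (A ω) Q 𝓒 t m) := by
  obtain ⟨m₀, hm₀⟩ := eventually_atTop.1 (late_iff_free hQ ht)
  refine ⟨m₀, fun m hm ω => ?_⟩
  unfold lateU Exceeds
  rw [Set.mem_iUnion₂]
  constructor
  · rintro ⟨c, hc, h1⟩
    exact ⟨c, hc, (hm₀ m hm c (h𝓒.lt m c hc) (A ω)).2 h1⟩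
  · rintro ⟨c, hc, h1⟩
    exact ⟨c, hc, (hm₀ m hm c (h𝓒.lt m c hc) (A ω)).1 h1⟩

omit [MeasurableSpace Ω] in
theorem sub_exceeds (hQ : 1 ≤ Q) {θ : ℝ} {𝓒 : ℕ → Finset ℕ} (h𝓒 : Fam Q θ 𝓒) {t : ℝ} (ht : 0 < t) :
    ∃ m₀ : ℕ, ∀ m, m₀ ≤ m → ∀ ω : Ω, ω ∈ lateU A (sub Q 𝓒) (mt Q t) m → Exceeds (A ω) Q 𝓒 t m := by
  obtain ⟨m₀, hm₀⟩ := eventually_atTop.1 (late_iff_free hQ ht)
  refine ⟨m₀, fun m hm ω h => ?_⟩
  unfold lateU at h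
  rw [Set.mem_iUnion₂] at h
  obtain ⟨c, hc, h1⟩ := h
  have hc' := (mem_sub.1 hc).1
  exact ⟨c, hc', (hm₀ m hm c (h𝓒.lt m c hc') (A ω)).2 h1⟩

/-- **The law of the extreme values for a family.** -/
theorem ext_law (hA : IsModel μ (level Q) A) (hQ : 1 ≤ Q) {θ : ℝ} {𝓒 : ℕ → Finset ℕ} (h𝓒 : Fam Q θ 𝓒) (hθ : 0 < θ) :
    ∀ᵐ ω ∂μ, ExtLaw (A ω) Q 𝓒 θ := by
  have h1 : ∀ᵐ ω ∂μ, ∀ q : ℚ, 1 + θ < (q : ℝ) → ∀ᶠ m : ℕ in atTop, ω ∉ lateU A 𝓒 (mt Q q) m := by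
    rw [ae_all_iff]
    intro q
    by_cases hq : 1 + θ < (q : ℝ)
    · filter_upwards [fam_upper hA hQ h𝓒 hθ.le hq] with ω hω _
      exact hω
    · filter_upwards with ω h
      exact absurd h hq
  have h2 : ∀ᵐ ω ∂μ, ∀ q : ℚ, 0 < (q : ℝ) → (q : ℝ) < θ → ∀ᶠ m : ℕ in atTop, ω ∈ lateU A (sub Q 𝓒) (mt Q q) m := by
    rw [ae_all_iff]
    intro q
    by_cases hq : 0 < (q : ℝ) ∧ (q : ℝ) < θ
    · filter_upwards [fam_lower hA hQ h𝓒 hq.1.le hq.2] with ω hω _ _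
      exact hω
    · filter_upwards with ω h h'
      exact absurd ⟨h, h'⟩ hq
  have h3 : ∀ᵐ ω ∂μ, ∀ q : ℚ, ∀ j : ℕ, θ ≤ (q : ℝ) → (q : ℝ) ≤ 1 + θ → ∀ᶠ x : ℕ in atTop,
      num (range (x + 1)) (fun m => lateU A 𝓒 (mt Q q) m) ω ≤ (x : ℝ) ^ (1 + θ - q + 1 / ((j : ℝ) + 1)) := by
    rw [ae_all_iff]
    intro q
    rw [ae_all_iff]
    intro j
    by_cases hq : θ ≤ (q : ℝ) ∧ (q : ℝ) ≤ 1 + θ
    · filter_upwards [fam_few hA hQ h𝓒 (hθ.le.trans hq.1) hq.2 (show (0 : ℝ) < 1 / ((j : ℝ) + 1) by positivity)]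
        with ω hω _ _
      exact hω
    · filter_upwards with ω h h'
      exact absurd ⟨h, h'⟩ hq
  have h4 : ∀ᵐ ω ∂μ, ∀ q : ℚ, ∀ j : ℕ, θ < (q : ℝ) → (q : ℝ) < 1 + θ → ∀ᶠ x : ℕ in atTop,
      (x : ℝ) ^ (1 + θ - q - 1 / ((j : ℝ) + 1)) ≤
        num ((range (x + 1)).filter Nat.Prime) (fun m => lateU A (sub Q 𝓒) (mt Q q) m) ω := by
    rw [ae_all_iff]
    intro q
    rw [ae_all_iff]
    intro j
    by_cases hq : θ < (q : ℝ) ∧ (q : ℝ) < 1 + θ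
    · filter_upwards [fam_many hA hQ h𝓒 hθ hq.1 hq.2 (show (0 : ℝ) < 1 / ((j : ℝ) + 1) by positivity)]
        with ω hω _ _
      exact hω
    · filter_upwards with ω h h'
      exact absurd ⟨h, h'⟩ hq
  filter_upwards [h1, h2, h3, h4] with ω g1 g2 g3 g4
  refine ⟨?_, ?_, ?_, ?_⟩
  · intro t ht
    obtain ⟨q, hq1, hq2⟩ := exists_rat_btwn ht
    obtain ⟨m₀, hm₀⟩ := exceeds_iff (A := A) hQ h𝓒 (show 0 < (q : ℝ) by linarith)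
    filter_upwards [g1 q hq1, eventually_ge_atTop m₀] with m h5 h6 h7
    exact h5 ((hm₀ m h6 ω).2 (exceeds_mono (subset_refl _) hq2.le h7))
  · intro t ht
    obtain ⟨q, hq1, hq2⟩ := exists_rat_btwn (show max 0 t < θ from max_lt hθ ht)
    have hq0 : 0 < (q : ℝ) := lt_of_le_of_lt (le_max_left _ _) hq1
    have hqt : t < q := lt_of_le_of_lt (le_max_right _ _) hq1
    obtain ⟨m₀, hm₀⟩ := sub_exceeds (A := A) hQ h𝓒 hq0
    filter_upwards [g2 q hq0 hq2, eventually_ge_atTop m₀] with m h5 h6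
    exact exceeds_mono (subset_refl _) hqt.le (hm₀ m h6 ω h5)
  · intro t ht1 ht2 δ hδ
    obtain ⟨q, hq1, hq2⟩ := exists_rat_btwn (show max θ (t - δ / 4) < t from max_lt ht1 (by linarith))
    have hq0 : θ < (q : ℝ) := lt_of_le_of_lt (le_max_left _ _) hq1
    have hqt : t - δ / 4 < q := lt_of_le_of_lt (le_max_right _ _) hq1
    obtain ⟨j, hj⟩ := exists_nat_one_div_lt (show 0 < δ / 4 by linarith)
    obtain ⟨m₀, hm₀⟩ := exceeds_iff (A := A) hQ h𝓒 (show 0 < (q : ℝ) by linarith)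
    filter_upwards [g3 q j hq0.le (by linarith), power_add (show 0 < δ / 4 by linarith)
      (show 0 ≤ 1 + θ - t + δ / 2 by linarith) m₀ (Nat.cast_nonneg _), eventually_ge_atTop 1] with x h5 h6 hx
    have hx1 : (1 : ℝ) ≤ x := by exact_mod_cast hx
    have h7 := ncard_le_num (E := fun m => lateU A 𝓒 (mt Q q) m) (P := fun m => Exceeds (A ω) Q 𝓒 t m) (ω := ω)
      (m₀ := m₀) (fun m hm h8 => (hm₀ m hm ω).2 (exceeds_mono (subset_refl _) hq2.le h8)) x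
    have h8 : (x : ℝ) ^ (1 + θ - q + 1 / ((j : ℝ) + 1)) ≤ (x : ℝ) ^ (1 + θ - t + δ / 2) :=
      Real.rpow_le_rpow_of_exponent_le hx1 (by linarith)
    have h9 : (x : ℝ) ^ (1 + θ - t + δ / 2 + δ / 4) ≤ (x : ℝ) ^ (1 + θ - t + δ) :=
      Real.rpow_le_rpow_of_exponent_le hx1 (by linarith)
    linarith
  · intro t ht1 ht2 δ hδ
    obtain ⟨δ', hδ'⟩ : ∃ δ', δ' = min δ (1 + θ - t) / 4 := ⟨_, rfl⟩
    have hmin : 0 < min δ (1 + θ - t) := lt_min hδ (by linarith)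
    have hmin1 : min δ (1 + θ - t) ≤ δ := min_le_left _ _
    have hmin2 : min δ (1 + θ - t) ≤ 1 + θ - t := min_le_right _ _
    have hδ0 : 0 < δ' := by rw [hδ']; linarith
    have hδ1 : 4 * δ' ≤ δ := by rw [hδ']; linarith
    have hδ2 : 4 * δ' ≤ 1 + θ - t := by rw [hδ']; linarith
    obtain ⟨q, hq1, hq2⟩ := exists_rat_btwn (show t < t + δ' by linarith)
    obtain ⟨j, hj⟩ := exists_nat_one_div_lt hδ0
    obtain ⟨m₀, hm₀⟩ := sub_exceeds (A := A) hQ h𝓒 (show 0 < (q : ℝ) by linarith)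
    filter_upwards [g4 q j (by linarith) (by linarith), power_add hδ0
      (show 0 ≤ 1 + θ - t - 3 * δ' by linarith) m₀ (Nat.cast_nonneg _), eventually_ge_atTop 1] with x h5 h6 hx
    have hx1 : (1 : ℝ) ≤ x := by exact_mod_cast hx
    have h7 := num_le_ncard (E := fun m => lateU A (sub Q 𝓒) (mt Q q) m) (P := fun m => Exceeds (A ω) Q 𝓒 t m) (ω := ω)
      (m₀ := m₀) (fun m hm h8 => exceeds_mono (subset_refl _) hq1.le (hm₀ m hm ω h8)) x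
    have h8 : (x : ℝ) ^ (1 + θ - t - 3 * δ' + δ') ≤ (x : ℝ) ^ (1 + θ - q - 1 / ((j : ℝ) + 1)) :=
      Real.rpow_le_rpow_of_exponent_le hx1 (by linarith)
    have h9 : (x : ℝ) ^ (1 + θ - t - δ) ≤ (x : ℝ) ^ (1 + θ - t - 3 * δ') :=
      Real.rpow_le_rpow_of_exponent_le hx1 (by linarith)
    linarith

end Pool.Agent.Q112.LE
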