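import Pool.Agent.Q112.LE.Res

/-!
# A fixed residue: the extreme values
-/

set_option autoImplicit false

namespace Pool.Agent.Q112.LE

open Finset Filter MeasureTheory ProbabilityTheory Pool.Agent.Q120.GM Pool.Agent.Q120.AD
open scoped Topology

/-- The class of `c` modulo `m` has positive density in the model and its elements, except `c` itself, exceed
`t φ_Q(m) (log m)^2`. -/
def FarOut (S : Set ℕ) (Q : ℕ) (c : ℤ) (t : ℝ) (m : ℕ) : Prop :=
  Int.gcd c (Nat.gcd m Q) = 1 ∧ Beyond S c m (t * phiQ Q m * Real.log m ^ 2)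

/-- The law of the extreme values for a fixed residue. -/
structure FixLaw (S : Set ℕ) (Q : ℕ) (c : ℤ) : Prop where
  upper : ∀ t : ℝ, 1 < t → ∀ᶠ m : ℕ in atTop, ¬ FarOut S Q c t m
  few : ∀ t : ℝ, 0 < t → t < 1 → ∀ δ : ℝ, 0 < δ → ∀ᶠ x : ℕ in atTop,
    (Set.ncard {m : ℕ | m ≤ x ∧ FarOut S Q c t m} : ℝ) ≤ (x : ℝ) ^ (1 - t + δ)
  many : ∀ t : ℝ, 0 < t → t < 1 → ∀ δ : ℝ, 0 < δ → ∀ᶠ x : ℕ in atTop,
    (x : ℝ) ^ (1 - t - δ) ≤ (Set.ncard {m : ℕ | m ≤ x ∧ m.Prime ∧ FarOut S Q c t m} : ℝ)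

theorem farOut_mono {S : Set ℕ} {Q : ℕ} {c : ℤ} {t t' : ℝ} {m : ℕ} (h : t' ≤ t) (h1 : FarOut S Q c t m) :
    FarOut S Q c t' m := by
  refine ⟨h1.1, fun n hn h2 h3 => lt_of_le_of_lt ?_ (h1.2 n hn h2 h3)⟩
  have := phiQ_nonneg Q m
  gcongr

variable {Ω : Type*} [MeasurableSpace Ω] {μ : Measure Ω} [IsProbabilityMeasure μ] {A : Ω → Set ℕ} {Q : ℕ}

/-- The elements. -/
noncomputable def fixSet (Q : ℕ) (c : ℤ) (t : ℝ) (m : ℕ) : Finset ℕ := cl c m (MM Q c m (t * Real.log m))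

theorem mem_fixSet {c : ℤ} {t : ℝ} {m n : ℕ} :
    n ∈ fixSet Q c t m ↔ ∃ j, 1 ≤ j ∧ j ≤ MM Q c m (t * Real.log m) ∧ n = el c m j := by
  unfold fixSet cl
  rw [mem_image]
  constructor
  · rintro ⟨j, hj, rfl⟩
    rw [mem_Icc] at hj
    exact ⟨j, hj.1, hj.2, rfl⟩
  · rintro ⟨j, h1, h2, rfl⟩
    exact ⟨j, mem_Icc.2 ⟨h1, h2⟩, rfl⟩

theorem fix_iff {c : ℤ} {t : ℝ} {m : ℕ} (hm : |c| < (m : ℤ)) (S : Set ℕ) :
    Beyond S c m (t * phiQ Q m * Real.log m ^ 2) ↔ ∀ n ∈ fixSet Q c t m, n ∉ S := by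
  have h1 := beyond_iff (Q := Q) (C := {c}) (u := fun _ => t * Real.log m) (m := m) (fun c' hc' => by
    rw [mem_singleton] at hc'
    rw [hc']
    exact hm) S
  have h2 : WW Q {c} (fun _ => t * Real.log m) m = fixSet Q c t m := by
    unfold WW fixSet
    rw [singleton_biUnion]
  rw [h2] at h1
  rw [← h1]
  have h3 : t * phiQ Q m * Real.log m ^ 2 = t * Real.log m * phiQ Q m * Real.log m := by ring
  constructor
  · intro h c' hc'
    rw [mem_singleton] at hc'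
    rw [hc', ← h3]
    exact h
  · intro h
    rw [h3]
    exact h c (mem_singleton_self c)

theorem fix_prob (hA : IsModel μ (level Q) A) (hQ : 1 ≤ Q) (c : ℤ) {t : ℝ} (ht : 0 ≤ t) {δ : ℝ} (hδ : 0 < δ) :
    ∀ᶠ m : ℕ in atTop, Int.gcd c (Nat.gcd m Q) = 1 →
      (m : ℝ) ^ (-(t + δ)) ≤ μ.real (free A (fixSet Q c t m)) ∧
        μ.real (free A (fixSet Q c t m)) ≤ (m : ℝ) ^ (-(t - δ)) := by
  filter_upwards [prod_power hQ ht hδ, eventually_gt_atTop (2 * c.natAbs)] with m h1 h2 hg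
  have hc : |c| ≤ ((c.natAbs : ℕ) : ℤ) := by rw [Int.abs_eq_natAbs]
  have hcm : |c| ≤ (m : ℤ) := hc.trans (by exact_mod_cast (by omega : c.natAbs ≤ m))
  have h3 := h1 c hcm (fun j hj => le_el hc h2.le hj) hg
  have h4 : μ.real (free A (fixSet Q c t m)) = ∏ j ∈ Icc 1 (MM Q c m (t * Real.log m)), (1 - level Q (el c m j)) := by
    rw [real_free hA]
    unfold fixSet cl
    rw [prod_image]
    intro j hj j' hj' h
    rw [mem_coe, mem_Icc] at hj hj'
    exact (el_inj hc hc h2 hj.1 hj'.1 h).2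
  rw [h4]
  exact h3

/-- The event, with the condition on the modulus. -/
noncomputable def fixEv (A : Ω → Set ℕ) (Q : ℕ) (c : ℤ) (t : ℝ) (m : ℕ) : Set Ω :=
  if Int.gcd c (Nat.gcd m Q) = 1 then free A (fixSet Q c t m) else ∅

theorem meas_fixEv (hA : IsModel μ (level Q) A) (c : ℤ) (t : ℝ) (m : ℕ) : MeasurableSet (fixEv A Q c t m) := by
  unfold fixEv
  split_ifs
  · exact meas_free hA _
  · exact MeasurableSet.empty

omit [MeasurableSpace Ω] in
theorem fixEv_iff (c : ℤ) (t : ℝ) {m : ℕ} (hm : c.natAbs < m) (ω : Ω) : ω ∈ fixEv A Q c t m ↔ FarOut (A ω) Q c t m := by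
  have hcm : |c| < (m : ℤ) := by
    rw [Int.abs_eq_natAbs]
    exact_mod_cast hm
  unfold fixEv FarOut
  rw [fix_iff (Q := Q) (t := t) hcm (A ω)]
  split_ifs with h
  · exact ⟨fun h1 => ⟨h, h1⟩, fun h1 => h1.2⟩
  · exact ⟨fun h1 => absurd h1 (Set.notMem_empty ω), fun h1 => absurd h1.1 h⟩

theorem fixEv_le (hA : IsModel μ (level Q) A) (hQ : 1 ≤ Q) (c : ℤ) {t : ℝ} (ht : 0 ≤ t) {δ : ℝ} (hδ : 0 < δ) :
    ∀ᶠ m : ℕ in atTop, μ.real (fixEv A Q c t m) ≤ (m : ℝ) ^ (-(t - δ)) := by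
  filter_upwards [fix_prob (μ := μ) hA hQ c ht hδ] with m h1
  unfold fixEv
  split_ifs with h
  · exact (h1 h).2
  · rw [measureReal_empty]
    positivity

theorem fix_upper (hA : IsModel μ (level Q) A) (hQ : 1 ≤ Q) (c : ℤ) {t : ℝ} (ht : 1 < t) :
    ∀ᵐ ω ∂μ, ∀ᶠ m : ℕ in atTop, ω ∉ fixEv A Q c t m := by
  have h1 := fixEv_le (μ := μ) hA hQ c (t := t) (by linarith) (show 0 < (t - 1) / 2 by linarith)
  exact bc (Real.summable_nat_rpow.2 (by linarith)) h1

theorem fix_few (hA : IsModel μ (level Q) A) (hQ : 1 ≤ Q) (c : ℤ) {t : ℝ} (ht : 0 ≤ t) (ht1 : t ≤ 1)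
    {δ : ℝ} (hδ : 0 < δ) :
    ∀ᵐ ω ∂μ, ∀ᶠ x : ℕ in atTop, num (range (x + 1)) (fun m => fixEv A Q c t m) ω ≤ (x : ℝ) ^ (1 - t + δ) := by
  have h1 := fixEv_le (μ := μ) hA hQ c ht (show 0 < δ / 2 by linarith)
  have h2 := upper_count (μ := μ) (E := fun m => fixEv A Q c t m) (fun m => meas_fixEv hA c t m)
    (show t - δ / 2 ≤ 1 by linarith) h1 (show 0 < δ / 2 by linarith)
  filter_upwards [h2] with ω hω
  filter_upwards [hω] with x hx
  refine hx.trans (le_of_eq ?_)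
  congr 1
  ring

theorem fix_many (hA : IsModel μ (level Q) A) (hQ : 1 ≤ Q) (c : ℤ) {t : ℝ} (ht0 : 0 < t) (ht1 : t < 1)
    {δ : ℝ} (hδ : 0 < δ) :
    ∀ᵐ ω ∂μ, ∀ᶠ x : ℕ in atTop, (x : ℝ) ^ (1 - t - δ) ≤
      num ((range (x + 1)).filter Nat.Prime) (fun m => fixEv A Q c t m) ω := by
  obtain ⟨κ, hκ⟩ : ∃ κ, κ = min (min δ (1 - t)) 1 / 10 := ⟨_, rfl⟩
  have hmin : 0 < min (min δ (1 - t)) 1 := lt_min (lt_min hδ (by linarith)) one_pos
  have hm1 : min (min δ (1 - t)) 1 ≤ δ := (min_le_left _ _).trans (min_le_left _ _)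
  have hm2 : min (min δ (1 - t)) 1 ≤ 1 - t := (min_le_left _ _).trans (min_le_right _ _)
  have hm3 : min (min δ (1 - t)) 1 ≤ 1 := min_le_right _ _
  have hκ0 : 0 < κ := by rw [hκ]; linarith
  have hκ1 : 10 * κ ≤ δ := by rw [hκ]; linarith
  have hκ2 : 10 * κ ≤ 1 - t := by rw [hκ]; linarith
  have hκ3 : 10 * κ ≤ 1 := by rw [hκ]; linarith
  have hgcd : ∀ᶠ m : ℕ in atTop, m.Prime → Int.gcd c (Nat.gcd m Q) = 1 := by
    filter_upwards [eventually_gt_atTop Q] with m hm hp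
    have h1 : Nat.gcd m Q = 1 := by
      rw [← Nat.coprime_iff_gcd_eq_one, Nat.Prime.coprime_iff_not_dvd hp]
      intro h2
      have := Nat.le_of_dvd hQ h2
      omega
    rw [h1]
    simp
  have kp := ev_pk hgcd
  have k1 := ev_pk (fix_prob (μ := μ) hA hQ c ht0.le hκ0)
  have k2 : ∀ᶠ k : ℕ in atTop, (2 * c.natAbs + (t + 3) * Real.log ((2 : ℝ) ^ k) ^ 2) * 8 ≤ (2 : ℝ) ^ k := by
    have h1 : ∀ᶠ x : ℕ in atTop, (2 * (c.natAbs : ℝ) + (t + 3) * Real.log (x : ℝ) ^ 2) * 8 ≤ (x : ℝ) := by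
      filter_upwards [ev_power (8 * (2 * c.natAbs + (t + 3))) 2 (show (0 : ℝ) < 1 by norm_num),
        hL1.eventually_ge_atTop 1] with x h2 h3
      rw [Real.rpow_one] at h2
      have h4 : 1 ≤ Real.log (x : ℝ) ^ 2 := one_le_pow₀ h3
      have h5 : (0 : ℝ) ≤ 2 * c.natAbs := by positivity
      nlinarith
    have h2 := two_pow_tendsto.eventually h1
    filter_upwards [h2] with k hk
    simpa using hk
  have k7 : ∀ᶠ k : ℕ in atTop, 4 * Real.log ((2 : ℝ) ^ k) ^ 1 ≤ ((2 : ℝ) ^ k) ^ κ := by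
    have h1 := two_pow_tendsto.eventually (ev_power 4 1 hκ0)
    filter_upwards [h1] with k hk
    simpa using hk
  have k8 : ∀ᶠ k : ℕ in atTop, 1 ≤ Real.log ((2 : ℝ) ^ k) := by
    have h1 := two_pow_tendsto.eventually (hl.eventually_ge_atTop 1)
    filter_upwards [h1] with k hk
    simpa using hk
  have hS : ∀ᶠ k : ℕ in atTop, ((2 : ℝ) ^ k) ^ (1 - t - 3 * κ) ≤ ∑ d ∈ pk k, μ.real (fixEv A Q c t d) := by
    filter_upwards [kp, k1, card_pk, k7, k8] with k h1 h2 h4 h5 h6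
    obtain ⟨D, hD⟩ : ∃ D : ℝ, D = (2 : ℝ) ^ k := ⟨_, rfl⟩
    rw [← hD] at h4 h5 h6 ⊢
    have hD0 : 0 < D := by rw [hD]; positivity
    have e1 : ((pk k).card : ℝ) * D ^ (-(t + κ)) ≤ ∑ d ∈ pk k, μ.real (fixEv A Q c t d) := by
      rw [← nsmul_eq_mul]
      refine Finset.card_nsmul_le_sum _ _ _ (fun l hl => ?_)
      have hl' := mem_pk.1 hl
      have hlp : (0 : ℝ) < l := by exact_mod_cast hl'.2.1.pos
      have hlD : (l : ℝ) ≤ D := by rw [hD]; exact_mod_cast hl'.1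
      have hg := h1 l hl hl'.2.1
      have e2 := (h2 l hl hg).1
      have e3 : fixEv A Q c t l = free A (fixSet Q c t l) := by
        unfold fixEv
        rw [if_pos hg]
      rw [e3]
      refine le_trans ?_ e2
      exact Real.rpow_le_rpow_of_nonpos hlp hlD (by linarith)
    refine le_trans ?_ e1
    have e2 : 2 * D ^ (1 - κ) ≤ (pk k).card := by
      have e3 : D = D ^ (1 - κ) * D ^ κ := by
        rw [← Real.rpow_add hD0, sub_add_cancel, Real.rpow_one]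
      rw [pow_one] at h5
      have e4 : D ^ (1 - κ) * (4 * Real.log D) ≤ D ^ (1 - κ) * D ^ κ := mul_le_mul_of_nonneg_left h5 (by positivity)
      rw [← e3] at e4
      have e5 : (2 * D ^ (1 - κ)) * Real.log D ≤ (pk k).card * Real.log D := by linarith
      exact le_of_mul_le_mul_right e5 (by linarith)
    have e3 : D ^ (1 - t - 3 * κ) ≤ D ^ (1 - κ) * D ^ (-(t + κ)) := by
      rw [← Real.rpow_add hD0]
      exact Real.rpow_le_rpow_of_exponent_le (by rw [hD]; exact one_le_pow₀ (by norm_num)) (by linarith)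
    have e4 : 0 < D ^ (-(t + κ)) := by positivity
    have e5 : 0 < D ^ (1 - κ) := by positivity
    refine e3.trans ?_
    exact mul_le_mul_of_nonneg_right (by linarith) e4.le
  have hc' : ∀ᶠ k : ℕ in atTop, ∀ i ∈ pk k, ∀ j ∈ pk k, i ≠ j →
      μ.real (fixEv A Q c t i ∩ fixEv A Q c t j) ≤ (1 + ((2 : ℝ) ^ k) ^ (-κ)) *
        (μ.real (fixEv A Q c t i) * μ.real (fixEv A Q c t j)) := by
    filter_upwards [kp, k2, k8] with k h1 h2 h3 i hi j hj hij
    obtain ⟨D, hD⟩ : ∃ D : ℝ, D = (2 : ℝ) ^ k := ⟨_, rfl⟩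
    rw [← hD] at h2 h3 ⊢
    have hD0 : 0 < D := by rw [hD]; positivity
    have hi' := mem_pk.1 hi
    have hj' := mem_pk.1 hj
    -- all moduli are large, all sets of indices are small
    have big : ∀ l ∈ pk k, 2 * c.natAbs < l ∧ ∀ l' ∈ pk k, MM Q c l' (t * Real.log l') < l := by
      intro l hl
      have hl' := mem_pk.1 hl
      have hDl : D / 8 < l := by
        have : (((2 ^ k : ℕ)) : ℝ) < ((8 * l : ℕ) : ℝ) := by exact_mod_cast hl'.2.2
        push_cast at this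
        rw [hD]
        linarith
      have hlog0 : 0 ≤ (t + 3) * Real.log D ^ 2 := by positivity
      have e1 : 2 * c.natAbs < l := by
        have e2 : (2 : ℝ) * c.natAbs < l := by linarith
        exact_mod_cast e2
      refine ⟨e1, fun l' hl'' => ?_⟩
      have hl3 := mem_pk.1 hl''
      have hlp' : (0 : ℝ) < l' := by exact_mod_cast hl3.2.1.pos
      have hDl' : D / 8 < l' := by
        have : (((2 ^ k : ℕ)) : ℝ) < ((8 * l' : ℕ) : ℝ) := by exact_mod_cast hl3.2.2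
        push_cast at this
        rw [hD]
        linarith
      have hcl' : |c| ≤ (l' : ℤ) := by
        rw [Int.abs_eq_natAbs]
        have e2 : (c.natAbs : ℝ) ≤ l' := by
          have : (0 : ℝ) ≤ c.natAbs := Nat.cast_nonneg _
          linarith
        exact_mod_cast e2
      have hlogl : Real.log l' ≤ Real.log D := Real.log_le_log hlp' (by rw [hD]; exact_mod_cast hl3.1)
      have hlog1 : 0 ≤ Real.log (l' : ℝ) := Real.log_natCast_nonneg l'
      have e2 := MM_le hQ hcl' hl3.2.1.one_lt.le (v := t * Real.log l') (by positivity)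
      have e3 := one_le_kap hQ l'
      have e4 := kap_pos hQ l'
      have e5 : (MM Q c l' (t * Real.log l') : ℝ) ≤ t * Real.log l' ^ 2 + 1 := by
        have e6 : 0 ≤ t * Real.log (l' : ℝ) ^ 2 := by positivity
        by_contra hcon
        push Not at hcon
        have e7 : (t * Real.log l' ^ 2 + 1) * kap Q l' < MM Q c l' (t * Real.log l') * kap Q l' :=
          mul_lt_mul_of_pos_right hcon e4
        nlinarith
      have e6 : Real.log (l' : ℝ) ^ 2 ≤ Real.log D ^ 2 := pow_le_pow_left₀ hlog1 hlogl 2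
      have e7 : t * Real.log (l' : ℝ) ^ 2 ≤ t * Real.log D ^ 2 := mul_le_mul_of_nonneg_left e6 ht0.le
      have e8 : 1 ≤ Real.log D ^ 2 := one_le_pow₀ h3
      have e9 : (0 : ℝ) ≤ c.natAbs := Nat.cast_nonneg _
      have e10 : (MM Q c l' (t * Real.log l') : ℝ) < l := by nlinarith
      exact_mod_cast e10
    have hdis : fixSet Q c t i ∩ fixSet Q c t j = ∅ := by
      rw [← disjoint_iff_inter_eq_empty, Finset.disjoint_left]
      intro n hn hn'
      rw [mem_fixSet] at hn hn'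
      obtain ⟨a, ha1, ha2, e1⟩ := hn
      obtain ⟨b, hb1, hb2, e2⟩ := hn'
      have hci : |c| ≤ (i : ℤ) := by
        rw [Int.abs_eq_natAbs]
        have := (big i hi).1
        exact_mod_cast (by omega : c.natAbs ≤ i)
      have hcj : |c| ≤ (j : ℤ) := by
        rw [Int.abs_eq_natAbs]
        have := (big j hj).1
        exact_mod_cast (by omega : c.natAbs ≤ j)
      have e3 := el_cast hci ha1
      have e4 := el_cast hcj hb1
      rw [← e1] at e3
      rw [← e2, e3] at e4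
      have e5 : i * a = j * b := by
        have : (i : ℤ) * a = j * b := by linarith
        exact_mod_cast this
      have e6 : i ∣ j * b := ⟨a, e5.symm⟩
      rcases (Nat.Prime.dvd_mul hi'.2.1).1 e6 with h7 | h7
      · exact hij ((Nat.prime_dvd_prime_iff_eq hi'.2.1 hj'.2.1).1 h7)
      · have e7 := Nat.le_of_dvd (by omega) h7
        have e8 := (big i hi).2 j hj
        omega
    have e1 : fixEv A Q c t i = free A (fixSet Q c t i) := by
      unfold fixEv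
      rw [if_pos (h1 i hi hi'.2.1)]
    have e2 : fixEv A Q c t j = free A (fixSet Q c t j) := by
      unfold fixEv
      rw [if_pos (h1 j hj hj'.2.1)]
    have h0 := prod_union_inter (s₁ := fixSet Q c t i) (s₂ := fixSet Q c t j) (f := fun n => 1 - level Q n)
    rw [hdis, prod_empty, mul_one] at h0
    rw [e1, e2, free_inter, real_free hA, real_free hA, real_free hA, h0]
    have e3 : 0 ≤ (∏ n ∈ fixSet Q c t i, (1 - level Q n)) * ∏ n ∈ fixSet Q c t j, (1 - level Q n) :=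
      mul_nonneg (prod_nonneg (fun n _ => by linarith [level_le_one Q n]))
        (prod_nonneg (fun n _ => by linarith [level_le_one Q n]))
    have e4 : 0 < D ^ (-κ) := by positivity
    nlinarith
  have hfinal := lower_count (μ := μ) (E := fun d => fixEv A Q c t d)
    (fun d => meas_fixEv hA c t d) (P := pk)
    (show 0 < 1 - t - 3 * κ by linarith) hS hκ0 hc' (show 0 < δ / 2 by linarith)
  filter_upwards [hfinal] with ω hω
  filter_upwards [hω, eventually_ge_atTop 1] with x h1 hx1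
  have hx1' : (1 : ℝ) ≤ x := by exact_mod_cast hx1
  have h2 : (x : ℝ) ^ (1 - t - δ) ≤ (x : ℝ) ^ (1 - t - 3 * κ - δ / 2) :=
    Real.rpow_le_rpow_of_exponent_le hx1' (by linarith)
  refine h2.trans (h1.trans ?_)
  have h3 : pk (Nat.log 2 x) ⊆ (range (x + 1)).filter Nat.Prime := by
    intro p hp
    rw [mem_pk] at hp
    rw [mem_filter, mem_range]
    have := Nat.pow_log_le_self 2 (show x ≠ 0 by omega)
    exact ⟨by omega, hp.2.1⟩
  exact num_mono h3 _ ω

/-- **The law of the extreme values for every fixed residue.** -/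
theorem fix_law (hA : IsModel μ (level Q) A) (hQ : 1 ≤ Q) : ∀ᵐ ω ∂μ, ∀ c : ℤ, FixLaw (A ω) Q c := by
  rw [ae_all_iff]
  intro c
  have h1 : ∀ᵐ ω ∂μ, ∀ q : ℚ, 1 < (q : ℝ) → ∀ᶠ m : ℕ in atTop, ω ∉ fixEv A Q c q m := by
    rw [ae_all_iff]
    intro q
    by_cases hq : 1 < (q : ℝ)
    · filter_upwards [fix_upper hA hQ c hq] with ω hω _
      exact hω
    · filter_upwards with ω h
      exact absurd h hq
  have h3 : ∀ᵐ ω ∂μ, ∀ q : ℚ, ∀ j : ℕ, 0 ≤ (q : ℝ) → (q : ℝ) ≤ 1 → ∀ᶠ x : ℕ in atTop,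
      num (range (x + 1)) (fun m => fixEv A Q c q m) ω ≤ (x : ℝ) ^ (1 - (q : ℝ) + 1 / ((j : ℝ) + 1)) := by
    rw [ae_all_iff]
    intro q
    rw [ae_all_iff]
    intro j
    by_cases hq : 0 ≤ (q : ℝ) ∧ (q : ℝ) ≤ 1
    · filter_upwards [fix_few hA hQ c hq.1 hq.2 (show (0 : ℝ) < 1 / ((j : ℝ) + 1) by positivity)] with ω hω _ _
      exact hω
    · filter_upwards with ω h h'
      exact absurd ⟨h, h'⟩ hq
  have h4 : ∀ᵐ ω ∂μ, ∀ q : ℚ, ∀ j : ℕ, 0 < (q : ℝ) → (q : ℝ) < 1 → ∀ᶠ x : ℕ in atTop,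
      (x : ℝ) ^ (1 - (q : ℝ) - 1 / ((j : ℝ) + 1)) ≤
        num ((range (x + 1)).filter Nat.Prime) (fun m => fixEv A Q c q m) ω := by
    rw [ae_all_iff]
    intro q
    rw [ae_all_iff]
    intro j
    by_cases hq : 0 < (q : ℝ) ∧ (q : ℝ) < 1
    · filter_upwards [fix_many hA hQ c hq.1 hq.2 (show (0 : ℝ) < 1 / ((j : ℝ) + 1) by positivity)] with ω hω _ _
      exact hω
    · filter_upwards with ω h h'
      exact absurd ⟨h, h'⟩ hq
  filter_upwards [h1, h3, h4] with ω g1 g3 g4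
  refine ⟨?_, ?_, ?_⟩
  · intro t ht
    obtain ⟨q, hq1, hq2⟩ := exists_rat_btwn ht
    filter_upwards [g1 q hq1, eventually_gt_atTop c.natAbs] with m h5 h6 h7
    exact h5 ((fixEv_iff c q h6 ω).2 (farOut_mono hq2.le h7))
  · intro t ht1 ht2 δ hδ
    obtain ⟨q, hq1, hq2⟩ := exists_rat_btwn (show max 0 (t - δ / 4) < t from max_lt ht1 (by linarith))
    have hq0 : 0 < (q : ℝ) := lt_of_le_of_lt (le_max_left _ _) hq1
    have hqt : t - δ / 4 < q := lt_of_le_of_lt (le_max_right _ _) hq1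
    obtain ⟨j, hj⟩ := exists_nat_one_div_lt (show 0 < δ / 4 by linarith)
    filter_upwards [g3 q j hq0.le (by linarith), power_add (show 0 < δ / 4 by linarith)
      (show 0 ≤ 1 - t + δ / 2 by linarith) ((c.natAbs + 1 : ℕ) : ℝ) (Nat.cast_nonneg _), eventually_ge_atTop 1]
      with x h5 h6 hx
    have hx1 : (1 : ℝ) ≤ x := by exact_mod_cast hx
    have h7 := ncard_le_num (E := fun m => fixEv A Q c q m) (P := fun m => FarOut (A ω) Q c t m) (ω := ω)
      (m₀ := c.natAbs + 1) (fun m hm h8 => (fixEv_iff c q (by omega) ω).2 (farOut_mono hq2.le h8)) x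
    have h8 : (x : ℝ) ^ (1 - (q : ℝ) + 1 / ((j : ℝ) + 1)) ≤ (x : ℝ) ^ (1 - t + δ / 2) :=
      Real.rpow_le_rpow_of_exponent_le hx1 (by linarith)
    have h9 : (x : ℝ) ^ (1 - t + δ / 2 + δ / 4) ≤ (x : ℝ) ^ (1 - t + δ) :=
      Real.rpow_le_rpow_of_exponent_le hx1 (by linarith)
    linarith
  · intro t ht1 ht2 δ hδ
    obtain ⟨δ', hδ'⟩ : ∃ δ', δ' = min δ (1 - t) / 4 := ⟨_, rfl⟩
    have hmin : 0 < min δ (1 - t) := lt_min hδ (by linarith)
    have hmin1 : min δ (1 - t) ≤ δ := min_le_left _ _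
    have hmin2 : min δ (1 - t) ≤ 1 - t := min_le_right _ _
    have hδ0 : 0 < δ' := by rw [hδ']; linarith
    have hδ1 : 4 * δ' ≤ δ := by rw [hδ']; linarith
    have hδ2 : 4 * δ' ≤ 1 - t := by rw [hδ']; linarith
    obtain ⟨q, hq1, hq2⟩ := exists_rat_btwn (show t < t + δ' by linarith)
    obtain ⟨j, hj⟩ := exists_nat_one_div_lt hδ0
    filter_upwards [g4 q j (by linarith) (by linarith), power_add hδ0
      (show 0 ≤ 1 - t - 3 * δ' by linarith) ((c.natAbs + 1 : ℕ) : ℝ) (Nat.cast_nonneg _), eventually_ge_atTop 1]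
      with x h5 h6 hx
    have hx1 : (1 : ℝ) ≤ x := by exact_mod_cast hx
    have h7 := num_le_ncard (E := fun m => fixEv A Q c q m) (P := fun m => FarOut (A ω) Q c t m) (ω := ω)
      (m₀ := c.natAbs + 1) (fun m hm h8 => farOut_mono hq1.le ((fixEv_iff c q (by omega) ω).1 h8)) x
    have h8 : (x : ℝ) ^ (1 - t - 3 * δ' + δ') ≤ (x : ℝ) ^ (1 - (q : ℝ) - 1 / ((j : ℝ) + 1)) :=
      Real.rpow_le_rpow_of_exponent_le hx1 (by linarith)
    have h9 : (x : ℝ) ^ (1 - t - δ) ≤ (x : ℝ) ^ (1 - t - 3 * δ') :=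
      Real.rpow_le_rpow_of_exponent_le hx1 (by linarith)
    linarith

end Pool.Agent.Q112.LE
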