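import Pool.Agent.Q112.LE.Pairs
import Pool.Agent.Q120.GM.Count

/-!
# The law of the least elements along an arbitrary sequence of moduli
-/

set_option autoImplicit false

namespace Pool.Agent.Q112.LE

open Finset Filter MeasureTheory ProbabilityTheory Pool.Agent.Q120.GM
open scoped Topology

section

variable {Ω : Type*} [MeasurableSpace Ω] {μ : Measure Ω} [IsProbabilityMeasure μ] {κ : Type*}

/-- Chebyshev's inequality for the number of events. -/
theorem cheb (J : Finset κ) (G : κ → Set Ω) (hG : ∀ j ∈ J, MeasurableSet (G j)) {V : ℝ}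
    (hV : ∑ i ∈ J, ∑ j ∈ J, (μ.real (G i ∩ G j) - μ.real (G i) * μ.real (G j)) ≤ V) {t : ℝ} (ht : 0 < t) :
    μ.real {ω | t ≤ |num J G ω - ∑ j ∈ J, μ.real (G j)|} ≤ V / t ^ 2 := by
  obtain ⟨S, hSd⟩ : ∃ S, S = ∑ j ∈ J, μ.real (G j) := ⟨_, rfl⟩
  rw [← hSd]
  obtain ⟨h1, h2⟩ := num_int (μ := μ) J G hG
  rw [← hSd] at h2
  have hind : ∀ (E E' : Set Ω) (ω : Ω), E.indicator (fun _ => (1 : ℝ)) ω * E'.indicator (fun _ => (1 : ℝ)) ω =
      (E ∩ E').indicator (fun _ => (1 : ℝ)) ω := by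
    intro E E' ω
    by_cases h1 : ω ∈ E <;> by_cases h2 : ω ∈ E' <;> simp [h1, h2]
  have hsq : ∀ ω, (num J G ω - S) ^ 2 = (∑ i ∈ J, ∑ j ∈ J, (G i ∩ G j).indicator (fun _ => (1 : ℝ)) ω) -
      2 * S * num J G ω + S ^ 2 := by
    intro ω
    have h3 : num J G ω ^ 2 = ∑ i ∈ J, ∑ j ∈ J, (G i ∩ G j).indicator (fun _ => (1 : ℝ)) ω := by
      rw [sq]
      unfold num
      rw [sum_mul_sum]
      exact sum_congr rfl (fun i _ => sum_congr rfl (fun j _ => hind _ _ _))
    rw [← h3]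
    ring
  have hi1 : ∀ i ∈ J, ∀ j ∈ J, Integrable ((G i ∩ G j).indicator (fun _ => (1 : ℝ))) μ := fun i hi j hj =>
    (integrable_const 1).indicator ((hG i hi).inter (hG j hj))
  have hi2 : ∀ i ∈ J, Integrable (fun ω => ∑ j ∈ J, (G i ∩ G j).indicator (fun _ => (1 : ℝ)) ω) μ := fun i hi =>
    integrable_finsetSum _ (fun j hj => hi1 i hi j hj)
  have hi3 : Integrable (fun ω => ∑ i ∈ J, ∑ j ∈ J, (G i ∩ G j).indicator (fun _ => (1 : ℝ)) ω) μ :=
    integrable_finsetSum _ hi2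
  have hi4 : Integrable (fun ω => 2 * S * num J G ω) μ := h1.const_mul _
  have hi5 : Integrable (fun ω => (∑ i ∈ J, ∑ j ∈ J, (G i ∩ G j).indicator (fun _ => (1 : ℝ)) ω) -
      2 * S * num J G ω) μ := hi3.sub hi4
  have hi6 : Integrable (fun ω => (num J G ω - S) ^ 2) μ :=
    (hi5.add (integrable_const (S ^ 2))).congr (Eventually.of_forall (fun ω => by
      simp only [Pi.add_apply]
      rw [hsq ω]))
  have hint : ∫ ω, (num J G ω - S) ^ 2 ∂μ = (∑ i ∈ J, ∑ j ∈ J, μ.real (G i ∩ G j)) - 2 * S * S + S ^ 2 := by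
    calc ∫ ω, (num J G ω - S) ^ 2 ∂μ = ∫ ω, ((∑ i ∈ J, ∑ j ∈ J, (G i ∩ G j).indicator (fun _ => (1 : ℝ)) ω) -
          2 * S * num J G ω + S ^ 2) ∂μ := integral_congr_ae (Eventually.of_forall hsq)
      _ = _ := by
        rw [integral_add hi5 (integrable_const _), integral_sub hi3 hi4, integral_const_mul, h2, integral_const]
        rw [integral_finsetSum _ hi2]
        congr 1
        · congr 1
          refine sum_congr rfl (fun i hi => ?_)
          rw [integral_finsetSum _ (fun j hj => hi1 i hi j hj)]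
          refine sum_congr rfl (fun j hj => ?_)
          rw [integral_indicator_const _ ((hG i hi).inter (hG j hj))]
          simp
        · simp
  have hSS : ∑ i ∈ J, ∑ j ∈ J, μ.real (G i) * μ.real (G j) = S * S := by rw [hSd, sum_mul_sum]
  have hvar : ∫ ω, (num J G ω - S) ^ 2 ∂μ ≤ V := by
    rw [hint]
    simp_rw [sum_sub_distrib] at hV
    rw [hSS] at hV
    linarith
  have h3 := mul_meas_ge_le_integral_of_nonneg (μ := μ) (f := fun ω => (num J G ω - S) ^ 2)
    (Eventually.of_forall (fun ω => sq_nonneg _)) hi6 (t ^ 2)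
  have h4 : {ω | t ≤ |num J G ω - S|} ⊆ {ω | t ^ 2 ≤ (num J G ω - S) ^ 2} := by
    intro ω hω
    have hω' : t ≤ |num J G ω - S| := hω
    show t ^ 2 ≤ (num J G ω - S) ^ 2
    rw [← sq_abs (num J G ω - S)]
    exact pow_le_pow_left₀ ht.le hω' 2
  have h5 : μ.real {ω | t ≤ |num J G ω - S|} ≤ μ.real {ω | t ^ 2 ≤ (num J G ω - S) ^ 2} :=
    measureReal_mono h4 (measure_ne_top _ _)
  rw [le_div_iff₀ (by positivity)]
  have h6 : t ^ 2 * μ.real {ω | t ≤ |num J G ω - S|} ≤ V :=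
    (mul_le_mul_of_nonneg_left h5 (by positivity)).trans (h3.trans hvar)
  linarith

end

theorem one_sub_sum_le {W : Finset ℕ} {f : ℕ → ℝ} (h0 : ∀ n, 0 ≤ f n) (h1 : ∀ n, f n ≤ 1) :
    1 - ∑ n ∈ W, f n ≤ ∏ n ∈ W, (1 - f n) := by
  induction W using Finset.induction_on with
  | empty => simp
  | insert a W ha ih =>
    rw [prod_insert ha, sum_insert ha]
    have h2 : ∏ n ∈ W, (1 - f n) ≤ 1 := prod_le_one (fun n _ => by linarith [h1 n]) (fun n _ => by linarith [h0 n])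
    have h3 := h0 a
    nlinarith

variable {Ω : Type*} [MeasurableSpace Ω] {μ : Measure Ω} [IsProbabilityMeasure μ] {A : Ω → Set ℕ} {Q : ℕ}

theorem cov_le (hA : IsModel μ (level Q) A) (W W' : Finset ℕ) {t : ℝ} (ht : ∀ n ∈ W', level Q n ≤ t) :
    μ.real (free A W ∩ free A W') - μ.real (free A W) * μ.real (free A W') ≤ ((W ∩ W').card : ℝ) * t := by
  have h0 := prod_union_inter (s₁ := W) (s₂ := W') (f := fun n => 1 - level Q n)
  rw [free_inter, real_free hA, real_free hA, real_free hA, ← h0]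
  have h1 : 1 - ∑ n ∈ W ∩ W', level Q n ≤ ∏ n ∈ W ∩ W', (1 - level Q n) :=
    one_sub_sum_le (level_nonneg Q) (level_le_one Q)
  have h2 : 0 ≤ ∏ n ∈ W ∪ W', (1 - level Q n) := prod_nonneg (fun n _ => by linarith [level_le_one Q n])
  have h3 : ∏ n ∈ W ∪ W', (1 - level Q n) ≤ 1 :=
    prod_le_one (fun n _ => by linarith [level_le_one Q n]) (fun n _ => by linarith [level_nonneg Q n])
  have h4 : ∑ n ∈ W ∩ W', level Q n ≤ ((W ∩ W').card : ℝ) * t := by
    refine (sum_le_sum (g := fun _ => t) (fun n hn => ht n (mem_inter.1 hn).2)).trans ?_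
    rw [sum_const, nsmul_eq_mul]
  have h5 : 0 ≤ ∑ n ∈ W ∩ W', level Q n := sum_nonneg (fun n _ => level_nonneg Q n)
  nlinarith

/-- The variance of the number of the moduli with late least elements. -/
theorem var_le (hA : IsModel μ (level Q) A) (hQ : 1 ≤ Q) {C : Finset ℤ} {u : ℤ → ℝ} (hu : ∀ c ∈ C, 0 ≤ u c) {B : ℕ}
    (hC : ∀ c ∈ C, |c| ≤ (B : ℤ)) {J : Finset ℕ} {K : ℕ} (h0 : ∀ m ∈ J, 4 ≤ m ∧ 2 * B < m) (hK : 1 ≤ K)
    (hJ : J.card ≤ K ^ 2) :
    ∑ i ∈ J, ∑ j ∈ J, (μ.real (free A (WW Q C u i) ∩ free A (WW Q C u j)) -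
      μ.real (free A (WW Q C u i)) * μ.real (free A (WW Q C u j))) ≤
      (1 + 12 * (C.card : ℝ) ^ 2 * ((∑ c ∈ C, u c) + 1) * qq Q) * (K : ℝ) ^ 3 := by
  classical
  obtain ⟨U, hU⟩ : ∃ U, U = ∑ c ∈ C, u c := ⟨_, rfl⟩
  have hU0 : 0 ≤ U := by rw [hU]; exact sum_nonneg hu
  rw [← hU]
  have hq := qq_pos hQ
  have hK0 : (1 : ℝ) ≤ K := by exact_mod_cast hK
  obtain ⟨w, hw⟩ : ∃ w : ℕ → ℕ → ℝ, w = fun m m' =>
    ((WW Q C u m ∩ WW Q C u m').card : ℝ) * (qq Q / Real.log ((m' : ℝ) / 2)) := ⟨_, rfl⟩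
  have hlog : ∀ m ∈ J, 0 < Real.log ((m : ℝ) / 2) ∧ Real.log m ≤ 2 * Real.log ((m : ℝ) / 2) ∧ 1 ≤ Real.log m := by
    intro m hm
    have h1 : (4 : ℝ) ≤ m := by exact_mod_cast (h0 m hm).1
    have h2 : 0 < Real.log ((m : ℝ) / 2) := Real.log_pos (by linarith)
    refine ⟨h2, ?_, ?_⟩
    · have h3 : Real.log ((m : ℝ) ^ 1) ≤ Real.log (((m : ℝ) / 2) ^ 2) := by
        apply Real.log_le_log (by positivity)
        nlinarith
      rw [Real.log_pow, Real.log_pow] at h3
      push_cast at h3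
      linarith
    · rw [Real.le_log_iff_exp_le (by linarith)]
      have := Real.exp_one_lt_d9
      linarith
  -- each modulus and the smaller ones
  have hrow : ∀ m' ∈ J, ∑ m ∈ J.filter (fun m => m < m'), w m m' ≤ 6 * (C.card : ℝ) ^ 2 * (U + 1) * qq Q * K := by
    intro m' hm'
    obtain ⟨l1, l2, l3⟩ := hlog m' hm'
    obtain ⟨R, hR⟩ : ∃ R : ℕ, R = ⌊U * Real.log m' + 1⌋₊ := ⟨_, rfl⟩
    have hMM : ∀ c ∈ C, ∀ m ∈ J, m ≤ m' → MM Q c m (u c) ≤ R := by
      intro c hc m hm hle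
      have hcm : |c| ≤ (m : ℤ) := by
        have h1 : B ≤ m := by have := (h0 m hm).2; omega
        exact (hC c hc).trans (by exact_mod_cast h1)
      have hm1 : 1 ≤ m := by have := (h0 m hm).1; omega
      have h1 := MM_le hQ hcm hm1 (hu c hc)
      have h2 := one_le_kap hQ m
      have h3 := kap_pos hQ m
      have hLm : 0 ≤ Real.log m := Real.log_natCast_nonneg m
      rw [hR]
      apply Nat.le_floor
      have h4 : (MM Q c m (u c) : ℝ) ≤ u c * Real.log m + 1 := by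
        have h5 : 0 ≤ u c * Real.log m := mul_nonneg (hu c hc) hLm
        by_contra hcon
        push Not at hcon
        have h6 : (u c * Real.log m + 1) * kap Q m < MM Q c m (u c) * kap Q m := mul_lt_mul_of_pos_right hcon h3
        nlinarith
      have h5 : u c ≤ U := by rw [hU]; exact single_le_sum hu hc
      have h6 : Real.log m ≤ Real.log m' := Real.log_le_log (by exact_mod_cast hm1) (by exact_mod_cast hle)
      have h7 : u c * Real.log m ≤ U * Real.log m' := mul_le_mul h5 h6 hLm hU0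
      linarith
    have h1 := sum_inter_le (Q := Q) (C := C) (u := u) (J := J.filter (fun m => m < m')) (m' := m') (B := B) (R := R)
      (K := K) hC (fun m hm => by
        rw [mem_filter] at hm
        have := h0 m hm.1
        exact ⟨by omega, by omega, hm.2⟩) hK ((card_filter_le _ _).trans hJ)
      (fun c hc m hm => by
        rw [mem_filter] at hm
        exact hMM c hc m hm.1 hm.2.le) (fun c hc => hMM c hc m' hm' le_rfl)
    rw [hw, ← sum_mul]
    have h2 := mul_le_mul_of_nonneg_right h1 (show 0 ≤ qq Q / Real.log ((m' : ℝ) / 2) by positivity)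
    refine h2.trans ?_
    have h3 : (R : ℝ) ≤ U * Real.log m' + 1 := by
      rw [hR]
      exact Nat.floor_le (by positivity)
    have h4 : (R : ℝ) * (qq Q / Real.log ((m' : ℝ) / 2)) ≤ 2 * (U + 1) * qq Q := by
      rw [mul_div_assoc', div_le_iff₀ l1]
      have h5 : (R : ℝ) ≤ (U + 1) * Real.log m' := by nlinarith
      have h6 : (R : ℝ) ≤ (U + 1) * (2 * Real.log ((m' : ℝ) / 2)) :=
        h5.trans (mul_le_mul_of_nonneg_left l2 (by linarith))
      nlinarith
    have h5 : (C.card : ℝ) ^ 2 * (3 * (K * R)) * (qq Q / Real.log ((m' : ℝ) / 2)) =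
        (3 * (C.card : ℝ) ^ 2 * K) * (R * (qq Q / Real.log ((m' : ℝ) / 2))) := by ring
    rw [h5]
    have h6 := mul_le_mul_of_nonneg_left h4 (show 0 ≤ 3 * (C.card : ℝ) ^ 2 * K by positivity)
    refine h6.trans (le_of_eq ?_)
    ring
  -- all pairs
  have hpair : ∀ i ∈ J, ∀ j ∈ J, μ.real (free A (WW Q C u i) ∩ free A (WW Q C u j)) -
      μ.real (free A (WW Q C u i)) * μ.real (free A (WW Q C u j)) ≤
        (if i = j then 1 else 0) + (if j < i then w j i else 0) + (if i < j then w i j else 0) := by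
    intro i hi j hj
    rcases lt_trichotomy i j with h | h | h
    · rw [if_neg (by omega), if_neg (by omega), if_pos h, hw]
      have := cov_le (μ := μ) hA (WW Q C u i) (WW Q C u j) (t := qq Q / Real.log ((j : ℝ) / 2))
        (fun n hn => level_WW_le hC (h0 j hj).2 (hlog j hj).1 hn)
      linarith
    · subst h
      rw [if_pos rfl, if_neg (by omega)]
      have h1 : μ.real (free A (WW Q C u i) ∩ free A (WW Q C u i)) ≤ 1 := measureReal_le_one
      have h2 : 0 ≤ μ.real (free A (WW Q C u i)) := measureReal_nonneg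
      nlinarith
    · rw [if_neg (by omega), if_pos h, if_neg (by omega), hw]
      have := cov_le (μ := μ) hA (WW Q C u j) (WW Q C u i) (t := qq Q / Real.log ((i : ℝ) / 2))
        (fun n hn => level_WW_le hC (h0 i hi).2 (hlog i hi).1 hn)
      rw [Set.inter_comm] at this
      linarith
  refine (sum_le_sum (fun i hi => sum_le_sum (fun j hj => hpair i hi j hj))).trans ?_
  simp_rw [sum_add_distrib]
  have e1 : ∑ i ∈ J, ∑ j ∈ J, (if i = j then (1 : ℝ) else 0) = J.card := by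
    rw [sum_congr rfl (fun i hi => by rw [sum_ite_eq J i (fun _ => (1 : ℝ)), if_pos hi])]
    simp
  have e2 : ∑ i ∈ J, ∑ j ∈ J, (if j < i then w j i else 0) ≤ J.card * (6 * (C.card : ℝ) ^ 2 * (U + 1) * qq Q * K) := by
    have h1 : ∀ i ∈ J, ∑ j ∈ J, (if j < i then w j i else 0) ≤ 6 * (C.card : ℝ) ^ 2 * (U + 1) * qq Q * K := by
      intro i hi
      rw [← sum_filter]
      exact hrow i hi
    refine (sum_le_sum h1).trans ?_
    rw [sum_const, nsmul_eq_mul]
  have e3 : ∑ i ∈ J, ∑ j ∈ J, (if i < j then w i j else 0) = ∑ i ∈ J, ∑ j ∈ J, (if j < i then w j i else 0) := sum_comm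
  rw [e1, e3]
  have hJ' : (J.card : ℝ) ≤ (K : ℝ) ^ 2 := by exact_mod_cast hJ
  obtain ⟨D, hD⟩ : ∃ D, D = 6 * (C.card : ℝ) ^ 2 * (U + 1) * qq Q := ⟨_, rfl⟩
  have hD0 : 0 ≤ D := by rw [hD]; positivity
  rw [← hD] at e2
  have e4 : (J.card : ℝ) * (D * K) ≤ K ^ 2 * (D * K) := mul_le_mul_of_nonneg_right hJ' (by positivity)
  have e5 : (K : ℝ) ^ 2 ≤ K ^ 3 := pow_le_pow_right₀ hK0 (by norm_num)
  have e6 : (1 + 12 * (C.card : ℝ) ^ 2 * (U + 1) * qq Q) * (K : ℝ) ^ 3 = K ^ 3 + 2 * (K ^ 2 * (D * K)) := by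
    rw [hD]
    ring
  rw [e6]
  linarith

end Pool.Agent.Q112.LE
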