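import Mathlib

/-!
# Moments from the distribution function, uniformly over collections
-/

set_option autoImplicit false

namespace Pool.Agent.Q112.LE

open Finset Filter MeasureTheory
open scoped Topology Nat

theorem layer (n : ℕ) {x : ℝ} (hx : 0 ≤ x) :
    IntegrableOn (fun u : ℝ => ((n : ℝ) + 1) * u ^ n * (if u < x then 1 else 0)) (Set.Ioi 0) ∧
      ∫ u in Set.Ioi (0 : ℝ), ((n : ℝ) + 1) * u ^ n * (if u < x then 1 else 0) = x ^ (n + 1) := by
  have h1 : (fun u : ℝ => ((n : ℝ) + 1) * u ^ n * (if u < x then 1 else 0)) =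
      (Set.Iio x).indicator (fun u => ((n : ℝ) + 1) * u ^ n) := by
    funext u
    by_cases h : u < x
    · rw [if_pos h, mul_one, Set.indicator_of_mem (show u ∈ Set.Iio x from h)]
    · rw [if_neg h, mul_zero, Set.indicator_of_notMem (show u ∉ Set.Iio x from h)]
  have h2 : Set.Ioi (0 : ℝ) ∩ Set.Iio x = Set.Ioo 0 x := Set.Ioi_inter_Iio
  rw [h1]
  constructor
  · rw [integrableOn_indicator_iff measurableSet_Iio, Set.inter_comm, h2]
    have h3 : ContinuousOn (fun u : ℝ => ((n : ℝ) + 1) * u ^ n) (Set.Icc 0 x) := by fun_prop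
    exact (h3.integrableOn_compact isCompact_Icc).mono_set Set.Ioo_subset_Icc_self
  · rw [setIntegral_indicator measurableSet_Iio, h2, ← integral_Ioc_eq_integral_Ioo, ← intervalIntegral.integral_of_le hx,
      intervalIntegral.integral_const_mul, integral_pow]
    have : (n : ℝ) + 1 ≠ 0 := by positivity
    field_simp
    simp

theorem gamma_moment (n : ℕ) :
    ∫ u in Set.Ioi (0 : ℝ), ((n : ℝ) + 1) * u ^ n * Real.exp (-u) = ((n + 1)! : ℕ) := by
  have h1 := Real.Gamma_eq_integral (s := (n : ℝ) + 1) (by positivity)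
  rw [Real.Gamma_nat_eq_factorial] at h1
  have h2 : (fun u : ℝ => ((n : ℝ) + 1) * u ^ n * Real.exp (-u)) = fun u => ((n : ℝ) + 1) * (Real.exp (-u) * u ^ n) := by
    funext u
    ring
  rw [h2, integral_const_mul, Nat.factorial_succ]
  push_cast
  rw [h1]
  congr 2
  funext u
  rw [add_sub_cancel_right, Real.rpow_natCast]

/-- The filter of the pairs `(d, S)`, `S ∈ 𝒮 d`, `d → ∞`. -/
def pairs (𝒮 : ℕ → Finset (Finset ℕ)) : Filter (ℕ × Finset ℕ) :=
  comap Prod.fst atTop ⊓ 𝓟 {p | p.2 ∈ 𝒮 p.1}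

theorem ev_pairs {𝒮 : ℕ → Finset (Finset ℕ)} {P : ℕ → Finset ℕ → Prop} :
    (∀ᶠ p in pairs 𝒮, P p.1 p.2) ↔ ∀ᶠ d in atTop, ∀ S ∈ 𝒮 d, P d S := by
  unfold pairs
  rw [eventually_inf_principal, eventually_comap]
  constructor
  · intro h
    filter_upwards [h] with d hd S hS
    exact hd (d, S) rfl hS
  · intro h
    filter_upwards [h] with d hd p hp hp2
    subst hp
    exact hd p.2 hp2

instance (𝒮 : ℕ → Finset (Finset ℕ)) : (pairs 𝒮).IsCountablyGenerated := by
  unfold pairs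
  infer_instance

/-- The number of members above `u`. -/
noncomputable def above (X : ℕ → ℝ) (S : Finset ℕ) (u : ℝ) : ℝ := ∑ a ∈ S, (if u < X a then 1 else 0)

theorem sum_pow {n : ℕ} {X : ℕ → ℝ} {S : Finset ℕ} (h0 : ∀ a, 0 ≤ X a) :
    (∑ a ∈ S, X a ^ (n + 1)) / (S.card : ℝ) =
      ∫ u in Set.Ioi (0 : ℝ), ((n : ℝ) + 1) * u ^ n * (above X S u / S.card) := by
  have h1 : ∀ u : ℝ, ((n : ℝ) + 1) * u ^ n * (above X S u / S.card) =
      (∑ a ∈ S, ((n : ℝ) + 1) * u ^ n * (if u < X a then 1 else 0)) / S.card := by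
    intro u
    unfold above
    rw [← mul_sum, mul_div_assoc]
  simp_rw [h1]
  rw [integral_div, integral_finsetSum _ (fun a _ => (layer n (h0 a)).1)]
  congr 1
  exact sum_congr rfl (fun a _ => (layer n (h0 a)).2.symm)

/-- **Moments.** -/
theorem mom_det (n : ℕ) {X : ℕ → ℕ → ℝ} {𝒮 : ℕ → Finset (Finset ℕ)} (h0 : ∀ d a, 0 ≤ X d a)
    (hne : ∀ᶠ d in atTop, ∀ S ∈ 𝒮 d, 0 < S.card)
    (hlim : ∀ u : ℝ, 0 < u → ∀ ε : ℝ, 0 < ε → ∀ᶠ d in atTop, ∀ S ∈ 𝒮 d,
      |above (X d) S u - Real.exp (-u) * S.card| ≤ ε * S.card) {C : ℝ}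
    (hdom : ∀ᶠ d in atTop, ∀ S ∈ 𝒮 d, ∀ u : ℝ, 0 < u →
      ((n : ℝ) + 1) * u ^ n * (above (X d) S u / S.card) ≤ C * (1 + u ^ 2)⁻¹) {ε : ℝ} (hε : 0 < ε) :
    ∀ᶠ d in atTop, ∀ S ∈ 𝒮 d, |(∑ a ∈ S, X d a ^ (n + 1)) / (S.card : ℝ) - ((n + 1)! : ℕ)| ≤ ε := by
  have key : Tendsto (fun p : ℕ × Finset ℕ => ∫ u in Set.Ioi (0 : ℝ),
      ((n : ℝ) + 1) * u ^ n * (above (X p.1) p.2 u / p.2.card)) (pairs 𝒮)
      (𝓝 (∫ u in Set.Ioi (0 : ℝ), ((n : ℝ) + 1) * u ^ n * Real.exp (-u))) := by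
    refine tendsto_integral_filter_of_dominated_convergence (fun u => C * (1 + u ^ 2)⁻¹) ?_ ?_ ?_ ?_
    · refine Eventually.of_forall (fun p => ?_)
      have h1 : Measurable (fun u : ℝ => above (X p.1) p.2 u) := by
        unfold above
        refine Finset.measurable_sum _ (fun a _ => ?_)
        exact Measurable.ite measurableSet_Iio measurable_const measurable_const
      exact (((measurable_const.mul (measurable_id.pow_const n)).mul (h1.div_const _))).aestronglyMeasurable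
    · have h1 := ev_pairs.2 hdom
      filter_upwards [h1] with p hp
      filter_upwards [ae_restrict_mem measurableSet_Ioi] with u hu
      have hu' : 0 < u := hu
      rw [Real.norm_of_nonneg]
      · exact hp u hu'
      · have : 0 ≤ above (X p.1) p.2 u := by
          unfold above
          exact sum_nonneg (fun a _ => by split_ifs <;> norm_num)
        positivity
    · exact (integrable_inv_one_add_sq.const_mul C).integrableOn
    · filter_upwards [ae_restrict_mem measurableSet_Ioi] with u hu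
      have hu' : 0 < u := hu
      refine Tendsto.const_mul _ ?_
      rw [Metric.tendsto_nhds]
      intro η hη
      have h1 := ev_pairs.2 ((hlim u hu' (η / 2) (by linarith)).and hne |>.mono (fun d hd S hS =>
        And.intro (hd.1 S hS) (hd.2 S hS)))
      filter_upwards [h1] with p hp
      obtain ⟨h2, h3⟩ := hp
      have h4 : (0 : ℝ) < p.2.card := by exact_mod_cast h3
      rw [Real.dist_eq]
      have h5 : above (X p.1) p.2 u / p.2.card - Real.exp (-u) =
          (above (X p.1) p.2 u - Real.exp (-u) * p.2.card) / p.2.card := by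
        field_simp
      rw [h5, abs_div, abs_of_pos h4, div_lt_iff₀ h4]
      nlinarith
  rw [gamma_moment, Metric.tendsto_nhds] at key
  have h1 := key ε hε
  have h2 : ∀ᶠ p in pairs 𝒮, |(∑ a ∈ p.2, X p.1 a ^ (n + 1)) / (p.2.card : ℝ) - ((n + 1)! : ℕ)| ≤ ε := by
    filter_upwards [h1] with p hp
    rw [Real.dist_eq, ← sum_pow (h0 p.1)] at hp
    exact hp.le
  exact ev_pairs.1 h2

end Pool.Agent.Q112.LE
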