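import Pool.Agent.Q112.LE.Seq

/-!
# The law of the least elements: all thresholds, all residues
-/

set_option autoImplicit false

namespace Pool.Agent.Q112.LE

open Finset Filter MeasureTheory ProbabilityTheory Pool.Agent.Q120.GM
open scoped Topology

/-- For all `c ∈ C` all elements of `S` in the class of `c` modulo `m`, except `c`, exceed `u(c) φ_Q(m) log m`. -/
def Far (S : Set ℕ) (Q : ℕ) (C : Finset ℤ) (u : ℤ → ℝ) (m : ℕ) : Prop :=
  ∀ c ∈ C, Beyond S c m (u c * phiQ Q m * Real.log m)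

theorem phiQ_nonneg (Q m : ℕ) : 0 ≤ phiQ Q m := by
  unfold phiQ
  positivity

theorem far_mono {S : Set ℕ} {Q : ℕ} {C : Finset ℤ} {u v : ℤ → ℝ} {m : ℕ} (h : ∀ c ∈ C, v c ≤ u c)
    (h1 : Far S Q C u m) : Far S Q C v m := by
  intro c hc n hn h2 h3
  refine lt_of_le_of_lt ?_ (h1 c hc n hn h2 h3)
  have h4 : 0 ≤ phiQ Q m * Real.log m := mul_nonneg (phiQ_nonneg Q m) (Real.log_natCast_nonneg m)
  have h5 := mul_le_mul_of_nonneg_right (h c hc) h4
  linarith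

theorem ncard_eq (P : ℕ → Prop) [DecidablePred P] (N : ℕ) : Set.ncard {i | i < N ∧ P i} = ((range N).filter P).card := by
  rw [← Set.ncard_coe_finset]
  congr 1
  ext i
  simp

theorem ncard_fin (P : ℕ → Prop) (N : ℕ) : Set.Finite {i | i < N ∧ P i} :=
  (Set.finite_lt_nat N).subset (fun _ hi => hi.1)

theorem abs_ncard_sub_num {S : Set ℕ} {Q : ℕ} {C : Finset ℤ} {u : ℤ → ℝ} {B : ℕ} (hB : ∀ c ∈ C, |c| ≤ (B : ℤ))
    {d : ℕ → ℕ} (hd : Function.Injective d) {Ω : Type*} {A : Ω → Set ℕ} {ω : Ω} (hS : S = A ω) (N : ℕ) :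
    |(Set.ncard {i | i < N ∧ Far S Q C u (d i)} : ℝ) - num (range N) (fun i => free A (WW Q C u (d i))) ω| ≤ (B + 1 : ℕ) := by
  classical
  rw [ncard_eq, card_filter]
  push_cast
  unfold num
  rw [← sum_sub_distrib]
  refine (Finset.abs_sum_le_sum_abs _ _).trans ?_
  have h1 : ∀ i ∈ range N, |(if Far S Q C u (d i) then (1 : ℝ) else 0) -
      (free A (WW Q C u (d i))).indicator (fun _ => (1 : ℝ)) ω| ≤ if d i < B + 1 then 1 else 0 := by
    intro i _
    by_cases h2 : d i < B + 1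
    · rw [if_pos h2]
      by_cases h3 : Far S Q C u (d i) <;> by_cases h4 : ω ∈ free A (WW Q C u (d i)) <;> simp [h3, h4]
    · rw [if_neg h2]
      have h3 : Far S Q C u (d i) ↔ ω ∈ free A (WW Q C u (d i)) := by
        unfold Far
        rw [beyond_iff (fun c hc => by
          have h4 : (B : ℤ) < d i := by exact_mod_cast (by omega : B < d i)
          exact (hB c hc).trans_lt h4) S, hS]
        exact Iff.rfl
      by_cases h4 : ω ∈ free A (WW Q C u (d i))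
      · rw [if_pos (h3.2 h4), Set.indicator_of_mem h4]
        simp
      · rw [if_neg (fun h5 => h4 (h3.1 h5)), Set.indicator_of_notMem h4]
        simp
  refine (sum_le_sum h1).trans ?_
  rw [← sum_filter, sum_const, nsmul_eq_mul, mul_one]
  have h2 : ((range N).filter (fun i => d i < B + 1)).card ≤ B + 1 := card_small hd (B + 1) N
  exact_mod_cast h2

/-- The law for one vector of thresholds. -/
def Law (S : Set ℕ) (Q : ℕ) (C : Finset ℤ) (d : ℕ → ℕ) (u : ℤ → ℝ) : Prop :=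
  ∀ ε : ℝ, 0 < ε → ∀ᶠ N : ℕ in atTop,
    |(Set.ncard {i | i < N ∧ Far S Q C u (d i)} : ℝ) - Real.exp (-∑ c ∈ C, u c) * N| ≤ ε * N

theorem law_congr {S : Set ℕ} {Q : ℕ} {C : Finset ℤ} {d : ℕ → ℕ} {u v : ℤ → ℝ} (h : ∀ c ∈ C, u c = v c)
    (h1 : Law S Q C d u) : Law S Q C d v := by
  intro ε hε
  filter_upwards [h1 ε hε] with N hN
  have e1 : ∑ c ∈ C, u c = ∑ c ∈ C, v c := sum_congr rfl h
  have e2 : {i | i < N ∧ Far S Q C u (d i)} = {i | i < N ∧ Far S Q C v (d i)} := by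
    ext i
    constructor
    · rintro ⟨h2, h3⟩
      exact ⟨h2, far_mono (fun c hc => (h c hc).ge) h3⟩
    · rintro ⟨h2, h3⟩
      exact ⟨h2, far_mono (fun c hc => (h c hc).le) h3⟩
  rwa [e1, e2] at hN

/-- All thresholds from the rational ones. -/
theorem extend {S : Set ℕ} {Q : ℕ} {C : Finset ℤ} {d : ℕ → ℕ}
    (h : ∀ v : C → ℚ, (∀ c, 0 ≤ v c) → Law S Q C d (fun c => if hc : c ∈ C then (v ⟨c, hc⟩ : ℝ) else 0))
    {u : ℤ → ℝ} (hu : ∀ c ∈ C, 0 ≤ u c) : Law S Q C d u := by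
  intro ε hε
  obtain ⟨U, hU⟩ : ∃ U, U = ∑ c ∈ C, u c := ⟨_, rfl⟩
  rw [← hU]
  obtain ⟨δ, hδ, hδe⟩ : ∃ δ : ℝ, 0 < δ ∧ ∀ s : ℝ, |s - U| < δ → |Real.exp (-s) - Real.exp (-U)| < ε / 2 := by
    have h1 : Continuous (fun s : ℝ => Real.exp (-s)) := by fun_prop
    have h2 := Metric.continuous_iff.1 h1 U (ε / 2) (by linarith)
    obtain ⟨δ, h3, h4⟩ := h2
    refine ⟨δ, h3, fun s hs => ?_⟩
    have := h4 s (by rwa [Real.dist_eq])
    rwa [Real.dist_eq] at this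
  obtain ⟨η, hη⟩ : ∃ η : ℝ, η = δ / (2 * ((C.card : ℝ) + 1)) := ⟨_, rfl⟩
  have hη0 : 0 < η := by rw [hη]; positivity
  have hηC : (C.card : ℝ) * η ≤ δ / 2 := by
    rw [hη, mul_div_assoc', div_le_div_iff₀ (by positivity) (by norm_num)]
    nlinarith
  -- rational approximations
  have hlow : ∀ c : C, ∃ q : ℚ, 0 ≤ q ∧ (q : ℝ) ≤ u c ∧ u c - η ≤ q := by
    rintro ⟨c, hc⟩
    obtain ⟨q, h1, h2⟩ := exists_rat_btwn (show u c - η < u c by linarith)
    refine ⟨max 0 q, le_max_left _ _, ?_, ?_⟩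
    · push_cast
      exact max_le (hu c hc) h2.le
    · push_cast
      exact h1.le.trans (le_max_right _ _)
  have hup : ∀ c : C, ∃ q : ℚ, 0 ≤ q ∧ u c ≤ (q : ℝ) ∧ (q : ℝ) ≤ u c + η := by
    rintro ⟨c, hc⟩
    obtain ⟨q, h1, h2⟩ := exists_rat_btwn (show u c < u c + η by linarith)
    refine ⟨q, ?_, h1.le, h2.le⟩
    have h3 := hu c hc
    have h4 : (0 : ℝ) < q := lt_of_le_of_lt h3 h1
    exact_mod_cast h4.le
  choose v hv0 hv1 hv2 using hlow
  choose w hw0 hw1 hw2 using hup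
  obtain ⟨v', hv'⟩ : ∃ v' : ℤ → ℝ, v' = fun c => if hc : c ∈ C then (v ⟨c, hc⟩ : ℝ) else 0 := ⟨_, rfl⟩
  obtain ⟨w', hw'⟩ : ∃ w' : ℤ → ℝ, w' = fun c => if hc : c ∈ C then (w ⟨c, hc⟩ : ℝ) else 0 := ⟨_, rfl⟩
  have hv3 : ∀ c ∈ C, v' c ≤ u c ∧ u c - η ≤ v' c := by
    intro c hc
    rw [hv']
    simp only [hc, dif_pos]
    exact ⟨hv1 ⟨c, hc⟩, hv2 ⟨c, hc⟩⟩
  have hw3 : ∀ c ∈ C, u c ≤ w' c ∧ w' c ≤ u c + η := by
    intro c hc
    rw [hw']
    simp only [hc, dif_pos]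
    exact ⟨hw1 ⟨c, hc⟩, hw2 ⟨c, hc⟩⟩
  have hLv := h v hv0
  have hLw := h w hw0
  rw [← hv'] at hLv
  rw [← hw'] at hLw
  have sV : |∑ c ∈ C, v' c - U| < δ := by
    rw [hU, ← sum_sub_distrib]
    refine (Finset.abs_sum_le_sum_abs _ _).trans_lt ?_
    refine (sum_le_sum (g := fun _ => η) (fun c hc => ?_)).trans_lt ?_
    · have := hv3 c hc
      rw [abs_le]
      constructor <;> linarith
    · rw [sum_const, nsmul_eq_mul]
      linarith
  have sW : |∑ c ∈ C, w' c - U| < δ := by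
    rw [hU, ← sum_sub_distrib]
    refine (Finset.abs_sum_le_sum_abs _ _).trans_lt ?_
    refine (sum_le_sum (g := fun _ => η) (fun c hc => ?_)).trans_lt ?_
    · have := hw3 c hc
      rw [abs_le]
      constructor <;> linarith
    · rw [sum_const, nsmul_eq_mul]
      linarith
  have eV := hδe _ sV
  have eW := hδe _ sW
  filter_upwards [hLv (ε / 2) (by linarith), hLw (ε / 2) (by linarith)] with N h1 h2
  have hN : (0 : ℝ) ≤ N := Nat.cast_nonneg N
  have m1 : (Set.ncard {i | i < N ∧ Far S Q C u (d i)} : ℝ) ≤ Set.ncard {i | i < N ∧ Far S Q C v' (d i)} := by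
    have := Set.ncard_le_ncard (s := {i | i < N ∧ Far S Q C u (d i)}) (t := {i | i < N ∧ Far S Q C v' (d i)})
      (fun i hi => ⟨hi.1, far_mono (fun c hc => (hv3 c hc).1) hi.2⟩) (ncard_fin _ N)
    exact_mod_cast this
  have m2 : (Set.ncard {i | i < N ∧ Far S Q C w' (d i)} : ℝ) ≤ Set.ncard {i | i < N ∧ Far S Q C u (d i)} := by
    have := Set.ncard_le_ncard (s := {i | i < N ∧ Far S Q C w' (d i)}) (t := {i | i < N ∧ Far S Q C u (d i)})
      (fun i hi => ⟨hi.1, far_mono (fun c hc => (hw3 c hc).1) hi.2⟩) (ncard_fin _ N)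
    exact_mod_cast this
  rw [abs_lt] at eV eW
  rw [abs_le] at h1 h2 ⊢
  have p1 : Real.exp (-∑ c ∈ C, v' c) * N ≤ (Real.exp (-U) + ε / 2) * N := mul_le_mul_of_nonneg_right (by linarith) hN
  have p2 : (Real.exp (-U) - ε / 2) * N ≤ Real.exp (-∑ c ∈ C, w' c) * N := mul_le_mul_of_nonneg_right (by linarith) hN
  constructor <;> nlinarith

variable {Ω : Type*} [MeasurableSpace Ω] {μ : Measure Ω} [IsProbabilityMeasure μ] {A : Ω → Set ℕ} {Q : ℕ}

/-- **The law along a sequence of moduli.** -/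
theorem law_seq (hA : IsModel μ (level Q) A) (hQ : 1 ≤ Q) {d : ℕ → ℕ} (hd : Function.Injective d) :
    ∀ᵐ ω ∂μ, ∀ C : Finset ℤ, (∀ i, ∀ c ∈ C, Int.gcd c (Nat.gcd (d i) Q) = 1) → ∀ u : ℤ → ℝ, (∀ c ∈ C, 0 ≤ u c) →
      Law (A ω) Q C d u := by
  classical
  rw [ae_all_iff]
  intro C
  by_cases hg : ∀ i, ∀ c ∈ C, Int.gcd c (Nat.gcd (d i) Q) = 1
  · obtain ⟨B, hB⟩ := exists_bound C
    have h1 : ∀ᵐ ω ∂μ, ∀ v : C → ℚ, (∀ c, 0 ≤ v c) → ∀ j : ℕ, ∀ᶠ N : ℕ in atTop,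
        |num (range N) (fun i => free A (WW Q C (fun c => if hc : c ∈ C then (v ⟨c, hc⟩ : ℝ) else 0) (d i))) ω -
          Real.exp (-∑ c ∈ C, (if hc : c ∈ C then (v ⟨c, hc⟩ : ℝ) else 0)) * N| ≤ 4 * (1 / ((j : ℝ) + 1)) * N := by
      rw [ae_all_iff]
      intro v
      by_cases hv : ∀ c, 0 ≤ v c
      · have h2 : ∀ᵐ ω ∂μ, ∀ j : ℕ, ∀ᶠ N : ℕ in atTop,
            |num (range N) (fun i => free A (WW Q C (fun c => if hc : c ∈ C then (v ⟨c, hc⟩ : ℝ) else 0) (d i))) ω -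
              Real.exp (-∑ c ∈ C, (if hc : c ∈ C then (v ⟨c, hc⟩ : ℝ) else 0)) * N| ≤ 4 * (1 / ((j : ℝ) + 1)) * N := by
          rw [ae_all_iff]
          intro j
          refine law_eps hA hQ C (fun c hc => ?_) hd hg (by positivity)
          simp only [hc, dif_pos]
          exact_mod_cast hv ⟨c, hc⟩
        filter_upwards [h2] with ω hω _
        exact hω
      · filter_upwards with ω h3
        exact absurd h3 hv
    filter_upwards [h1] with ω hω _ u hu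
    refine extend (fun v hv => ?_) hu
    intro ε hε
    obtain ⟨j, hj⟩ := exists_nat_one_div_lt (show 0 < ε / 8 by linarith)
    obtain ⟨N₁, hN₁⟩ := exists_nat_ge (((B + 1 : ℕ) : ℝ) / (ε / 2))
    filter_upwards [hω v hv j, eventually_ge_atTop N₁] with N h2 h3
    have h4 := abs_ncard_sub_num (S := A ω) (Q := Q)
      (u := fun c => if hc : c ∈ C then (v ⟨c, hc⟩ : ℝ) else 0) hB hd (A := A) (ω := ω) rfl N
    have h5 : (((B + 1 : ℕ) : ℕ) : ℝ) ≤ ε / 2 * N := by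
      rw [div_le_iff₀ (by linarith)] at hN₁
      have h6 : (N₁ : ℝ) ≤ N := by exact_mod_cast h3
      nlinarith
    have h6 : 4 * (1 / ((j : ℝ) + 1)) * N ≤ ε / 2 * N := by
      apply mul_le_mul_of_nonneg_right _ (Nat.cast_nonneg N)
      linarith
    rw [abs_le] at h2 h4 ⊢
    constructor <;> linarith
  · filter_upwards with ω h2
    exact absurd h2 hg

theorem Law.tendsto {S : Set ℕ} {Q : ℕ} {C : Finset ℤ} {d : ℕ → ℕ} {u : ℤ → ℝ} (h : Law S Q C d u) :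
    Tendsto (fun N : ℕ => (Set.ncard {i | i < N ∧ Far S Q C u (d i)} : ℝ) / N) atTop (𝓝 (Real.exp (-∑ c ∈ C, u c))) := by
  rw [Metric.tendsto_atTop]
  intro ε hε
  obtain ⟨N₀, hN₀⟩ := eventually_atTop.1 (h (ε / 2) (by linarith))
  refine ⟨N₀ + 1, fun N hN => ?_⟩
  have h1 := hN₀ N (by omega)
  have hN0 : (0 : ℝ) < N := by exact_mod_cast (by omega : 0 < N)
  rw [Real.dist_eq]
  have h2 : (Set.ncard {i | i < N ∧ Far S Q C u (d i)} : ℝ) / N - Real.exp (-∑ c ∈ C, u c) =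
      ((Set.ncard {i | i < N ∧ Far S Q C u (d i)} : ℝ) - Real.exp (-∑ c ∈ C, u c) * N) / N := by
    field_simp
  rw [h2, abs_div, abs_of_pos hN0, div_lt_iff₀ hN0]
  nlinarith

/-- The moduli coprime to all elements of `C`. -/
def Cop (C : Finset ℤ) (m : ℕ) : Prop := ∀ c ∈ C, Int.gcd c m = 1

theorem cop_infinite {C : Finset ℤ} (h0 : ∀ c ∈ C, c ≠ 0) : (Set.ofPred (Cop C)).Infinite := by
  have hP : 0 < (∏ c ∈ C, c.natAbs) := Finset.prod_pos (fun c hc => Int.natAbs_pos.2 (h0 c hc))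
  refine Set.infinite_of_injective_forall_mem (f := fun k : ℕ => 1 + k * ∏ c ∈ C, c.natAbs) ?_ ?_
  · intro a b hab
    have h1 : 1 + a * ∏ c ∈ C, c.natAbs = 1 + b * ∏ c ∈ C, c.natAbs := hab
    exact Nat.eq_of_mul_eq_mul_right hP (by omega)
  · intro k c hc
    show Int.gcd c ((1 + k * ∏ c ∈ C, c.natAbs : ℕ) : ℤ) = 1
    obtain ⟨t, ht⟩ := Finset.dvd_prod_of_mem (fun c : ℤ => c.natAbs) hc
    rw [ht, Int.gcd_def, Int.natAbs_natCast]
    have h2 : Nat.gcd c.natAbs (1 + k * (c.natAbs * t)) = Nat.gcd c.natAbs 1 := by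
      rw [show 1 + k * (c.natAbs * t) = 1 + c.natAbs * (k * t) by ring]
      exact Nat.gcd_add_mul_left_right _ _ _
    rw [h2, Nat.gcd_one_right]

/-- **The law for all moduli coprime to the residues.** -/
theorem law_all (hA : IsModel μ (level Q) A) (hQ : 1 ≤ Q) :
    ∀ᵐ ω ∂μ, ∀ C : Finset ℤ, (∀ c ∈ C, c ≠ 0) → ∀ u : ℤ → ℝ, (∀ c ∈ C, 0 ≤ u c) →
      Tendsto (fun x : ℕ => (Set.ncard {m | m ≤ x ∧ Cop C m ∧ Far (A ω) Q C u m} : ℝ) /
        Set.ncard {m | m ≤ x ∧ Cop C m}) atTop (𝓝 (Real.exp (-∑ c ∈ C, u c))) := by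
  classical
  rw [ae_all_iff]
  intro C
  by_cases h0 : ∀ c ∈ C, c ≠ 0
  · have hinf := cop_infinite h0
    have hd := Nat.nth_injective hinf
    filter_upwards [law_seq hA hQ hd] with ω hω _ u hu
    have h1 := (hω C (fun i c hc => by
      have h2 : Cop C (Nat.nth (Cop C) i) := Nat.nth_mem_of_infinite hinf i
      have h3 := h2 c hc
      refine Nat.Coprime.coprime_dvd_right ?_ h3
      rw [Int.natAbs_natCast, Int.natAbs_natCast]
      exact Nat.gcd_dvd_left _ _) u hu).tendsto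
    have hcount : Tendsto (fun x : ℕ => Nat.count (Cop C) (x + 1)) atTop atTop := by
      rw [tendsto_atTop]
      intro b
      filter_upwards [eventually_ge_atTop (Nat.nth (Cop C) b)] with x hx
      have h3 : b < Nat.count (Cop C) (x + 1) := (Nat.lt_nth_iff_count_lt hinf).2 (by omega)
      exact h3.le
    refine (h1.comp hcount).congr (fun x => ?_)
    show (Set.ncard {i | i < Nat.count (Cop C) (x + 1) ∧ Far (A ω) Q C u (Nat.nth (Cop C) i)} : ℝ) /
      (Nat.count (Cop C) (x + 1) : ℕ) = _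
    have e1 : Set.ncard {m | m ≤ x ∧ Cop C m} = Nat.count (Cop C) (x + 1) := by
      rw [Nat.count_eq_card_filter_range, ← ncard_eq]
      congr 1
      ext m
      show (m ≤ x ∧ Cop C m) ↔ (m < x + 1 ∧ Cop C m)
      rw [Nat.lt_succ_iff]
    have e2 : Set.ncard {m | m ≤ x ∧ Cop C m ∧ Far (A ω) Q C u m} =
        Set.ncard {i | i < Nat.count (Cop C) (x + 1) ∧ Far (A ω) Q C u (Nat.nth (Cop C) i)} := by
      rw [← Set.ncard_image_of_injective {i | i < Nat.count (Cop C) (x + 1) ∧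
        Far (A ω) Q C u (Nat.nth (Cop C) i)} hd]
      congr 1
      ext m
      constructor
      · rintro ⟨h3, h4, h5⟩
        have h6 : Nat.nth (Cop C) (Nat.count (Cop C) m) = m := Nat.nth_count h4
        refine ⟨Nat.count (Cop C) m, ⟨?_, ?_⟩, h6⟩
        · rw [Nat.lt_nth_iff_count_lt hinf, h6]
          omega
        · rw [h6]
          exact h5
      · rintro ⟨i, ⟨h3, h4⟩, rfl⟩
        refine ⟨?_, Nat.nth_mem_of_infinite hinf i, h4⟩
        have := (Nat.lt_nth_iff_count_lt hinf).1 h3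
        omega
    rw [e1, e2]
  · filter_upwards with ω h2
    exact absurd h2 h0

end Pool.Agent.Q112.LE
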