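import Pool.Agent.Q112.LE.Prof

/-!
# The least elements over many classes of one modulus: moments
-/

set_option autoImplicit false

namespace Pool.Agent.Q112.LE

open Finset Filter MeasureTheory ProbabilityTheory Pool.Agent.Q120.GM Pool.Agent.Q120.AD
open scoped Topology

variable {Q : ℕ}
variable {Ω : Type*} [MeasurableSpace Ω] {μ : Measure Ω} [IsProbabilityMeasure μ] {A : Ω → Set ℕ}

/-- Exponential decay of the probabilities, uniformly up to `4 log m`. -/
theorem tail_prob (hA : IsModel μ (level Q) A) (hQ : 1 ≤ Q) :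
    ∀ᶠ m : ℕ in atTop, ∀ v : ℝ, 0 ≤ v → v ≤ 4 * Real.log m → ∀ c, c < m → Nat.gcd c (Nat.gcd m Q) = 1 →
      μ.real (ev A Q v c m) ≤ Real.exp (1 - v / 2) := by
  have g1 := (tendsto_lo2 (t := 4) 0 (by norm_num)).eventually (lt_mem_nhds (show (3 : ℝ) < 4 by norm_num))
  filter_upwards [g1, hL2.eventually_gt_atTop 0, hL2.eventually_ge_atTop (qq Q), hL1.eventually_ge_atTop ((2 + Q) * Q + 1),
    eventually_ge_atTop 2] with m h1 h3 h4 h5 h6 v hv0 hv c hc hg
  obtain ⟨hcm, hel, hg'⟩ := nat_conds hc hg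
  have hm1 : 1 ≤ m := by omega
  have hk := kap_pos hQ m
  have hk1 := kap_le hQ m
  have hQ0 : (0 : ℝ) ≤ Q := Nat.cast_nonneg Q
  have hm2 : (2 : ℝ) ≤ m := by exact_mod_cast h6
  have hlog : 1 ≤ Real.log m := by nlinarith
  have hvl : v * Real.log m ≤ 4 * Real.log m ^ 2 := by nlinarith
  have hY1 : 1 < (m : ℝ) * (4 * Real.log m ^ 2 + 2) := by nlinarith [sq_nonneg (Real.log (m : ℝ))]
  have h7 := le_sum_level' hQ hcm hel hg' h3 h4 (M := MM Q (c : ℤ) m v) (Y := (m : ℝ) * (4 * Real.log m ^ 2 + 2))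
    (fun j hj hj2 => by
      refine (el_le hcm hm1 hj hj2).trans ?_
      have e1 : phiQ Q m ≤ m := by
        rw [phiQ_eq hQ, div_le_iff₀ hk]
        have := one_le_kap hQ m
        nlinarith
      have e2 : v * phiQ Q m * Real.log m ≤ v * m * Real.log m := by gcongr
      nlinarith) hY1
  have h8 := le_MM hQ hcm hm1 (v := v)
  have hlY := Real.log_pos hY1
  have h9 : 3 * (Real.log ((m : ℝ) * (4 * Real.log m ^ 2 + 2)) * Real.log m) < 4 * Real.log m ^ 2 - 0 := by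
    rwa [lt_div_iff₀ (by positivity)] at h1
  have h10 : Real.log ((m : ℝ) * (4 * Real.log m ^ 2 + 2)) ≤ 2 * Real.log m := by
    by_contra hcon
    push Not at hcon
    nlinarith
  have h10' : Real.log (m : ℝ) ≤ Real.log ((m : ℝ) * (4 * Real.log m ^ 2 + 2)) := by
    apply Real.log_le_log (by positivity)
    nlinarith [sq_nonneg (Real.log (m : ℝ))]
  obtain ⟨S, hS⟩ : ∃ S, S = ∑ j ∈ Icc 1 (MM Q (c : ℤ) m v), level Q (el (c : ℤ) m j) := ⟨_, rfl⟩
  have h11 : v / 2 - 1 ≤ S := by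
    rw [← hS] at h7
    refine le_trans ?_ h7
    rw [le_div_iff₀ hlY]
    have e1 : (v - 1) * Real.log m ≤ ((MM Q (c : ℤ) m v : ℝ) - Q) * kap Q m := by nlinarith
    by_cases hv2 : v / 2 - 1 ≤ 0
    · nlinarith
    · push Not at hv2
      nlinarith
  unfold ev
  rw [real_cls hA hm1]
  have b2 : ∏ j ∈ Icc 1 (MM Q (c : ℤ) m v), (1 - level Q (el (c : ℤ) m j)) ≤ Real.exp (-S) := by
    rw [hS, ← sum_neg_distrib, Real.exp_sum]
    refine Finset.prod_le_prod (fun n _ => by linarith [level_le_one Q (el (c : ℤ) m n)]) (fun n _ => ?_)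
    have := Real.add_one_le_exp (-level Q (el (c : ℤ) m n))
    linarith
  have b3 : 0 ≤ ∏ j ∈ Icc 1 (MM Q (c : ℤ) m v), (1 - level Q (el (c : ℤ) m j)) :=
    prod_nonneg (fun j _ => by linarith [level_le_one Q (el (c : ℤ) m j)])
  have b4 : Real.exp (-S) ≤ Real.exp (1 - v / 2) := by
    rw [Real.exp_le_exp]
    linarith
  have b5 := level_nonneg Q c
  nlinarith

/-- No class is late at `4 φ_Q(d) (log d)^2`. -/
theorem none_beyond (hA : IsModel μ (level Q) A) (hQ : 1 ≤ Q) :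
    ∀ᵐ ω ∂μ, ∀ᶠ d : ℕ in atTop, ∀ a, a < d → Nat.gcd a (Nat.gcd d Q) = 1 →
      ¬ Late (A ω) a d (4 * phiQ Q d * Real.log d ^ 2) := by
  classical
  obtain ⟨E, hE⟩ : ∃ E : ℕ → Set Ω, E = fun d => ⋃ a ∈ (range d).filter (fun a => Nat.gcd a (Nat.gcd d Q) = 1),
    free A (cls a d (mt Q 4 a d)) := ⟨_, rfl⟩
  have hEb : ∀ᶠ d : ℕ in atTop, μ.real (E d) ≤ (d : ℝ) ^ (-(2 : ℝ)) := by
    filter_upwards [fam_prob hA hQ (show (0 : ℝ) ≤ 4 by norm_num) zero_lt_one, eventually_ge_atTop 1] with d h1 hd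
    have hd0 : (0 : ℝ) < d := by exact_mod_cast hd
    rw [hE]
    refine (measureReal_biUnion_finset_le _ _).trans ?_
    refine (sum_le_sum (g := fun _ => (d : ℝ) ^ (-((4 : ℝ) - 1))) (fun a ha => ?_)).trans ?_
    · rw [mem_filter, mem_range] at ha
      exact (h1 a ha.1 ha.2).1
    · rw [sum_const, nsmul_eq_mul]
      have h2 : (((range d).filter (fun a => Nat.gcd a (Nat.gcd d Q) = 1)).card : ℝ) ≤ d := by
        have := card_filter_le (range d) (fun a => Nat.gcd a (Nat.gcd d Q) = 1)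
        rw [card_range] at this
        exact_mod_cast this
      have h3 : (d : ℝ) ^ (-(2 : ℝ)) = d * (d : ℝ) ^ (-((4 : ℝ) - 1)) := by
        rw [← Real.rpow_one_add' hd0.le (by norm_num)]
        norm_num
      rw [h3]
      exact mul_le_mul_of_nonneg_right h2 (Real.rpow_nonneg hd0.le _)
  have hsm : Summable (fun d : ℕ => (d : ℝ) ^ (-(2 : ℝ))) := Real.summable_nat_rpow.2 (by norm_num)
  filter_upwards [bc hsm hEb] with ω hω
  filter_upwards [hω, late_iff_free hQ (show (0 : ℝ) < 4 by norm_num)] with d h1 h2 a ha hg hlate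
  apply h1
  rw [hE]
  refine Set.mem_biUnion (x := a) ?_ ((h2 a ha (A ω)).1 hlate)
  show a ∈ (range d).filter (fun a => Nat.gcd a (Nat.gcd d Q) = 1)
  rw [mem_filter, mem_range]
  exact ⟨ha, hg⟩

/-- **The number of classes with a large least element, uniformly.** -/
theorem tail_count (hA : IsModel μ (level Q) A) (hQ : 1 ≤ Q) {𝒮 : ℕ → Finset (Finset ℕ)}
    (hok : ∀ d, ∀ S ∈ 𝒮 d, ∀ a ∈ S, a < d ∧ Nat.gcd a (Nat.gcd d Q) = 1) :
    ∀ᵐ ω ∂μ, ∀ᶠ d : ℕ in atTop, ∀ S ∈ 𝒮 d, ∀ j : ℕ, (j : ℝ) ≤ 4 * Real.log d →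
      num S (fun a => ev A Q j a d) ω ≤ 6 * Real.exp (-(j / 2)) * S.card + 4 * (Real.log d + Real.log (𝒮 d).card) := by
  classical
  obtain ⟨E, hE⟩ : ∃ E : ℕ → Set Ω, E = fun d => ⋃ S ∈ 𝒮 d, ⋃ j ∈ range (⌊4 * Real.log (d : ℝ)⌋₊ + 1),
    {ω | 2 * (∑ a ∈ S, μ.real (ev A Q (j : ℕ) a d)) + 4 * (Real.log d + Real.log (𝒮 d).card) ≤
      num S (fun a => ev A Q (j : ℕ) a d) ω} := ⟨_, rfl⟩
  have g1 : ∀ᶠ d : ℕ in atTop, 4 * Real.log (d : ℝ) + 1 ≤ (d : ℝ) ^ (1 : ℝ) := by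
    have h1 : Tendsto (fun x : ℝ => Real.log x / x) atTop (𝓝 0) := by
      have := Real.isLittleO_log_id_atTop.tendsto_div_nhds_zero
      exact this
    have h2 := (h1.comp tendsto_natCast_atTop_atTop).eventually (gt_mem_nhds (show (0 : ℝ) < 1 / 8 by norm_num))
    filter_upwards [h2, eventually_ge_atTop 2] with d h3 hd
    have hd0 : (2 : ℝ) ≤ d := by exact_mod_cast hd
    have h4 : Real.log (d : ℝ) / d < 1 / 8 := h3
    rw [div_lt_iff₀ (by linarith)] at h4
    rw [Real.rpow_one]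
    linarith
  have hEb : ∀ᶠ d : ℕ in atTop, μ.real (E d) ≤ (d : ℝ) ^ (-(2 : ℝ)) := by
    filter_upwards [g1, eventually_ge_atTop 1] with d h1 hd
    have hd0 : (0 : ℝ) < d := by exact_mod_cast hd
    have hd1 : (1 : ℝ) ≤ d := by exact_mod_cast hd
    have hl0 := Real.log_nonneg hd1
    rw [hE]
    refine (measureReal_biUnion_finset_le _ _).trans ?_
    have h2 : ∀ S ∈ 𝒮 d, μ.real (⋃ j ∈ range (⌊4 * Real.log (d : ℝ)⌋₊ + 1),
        {ω | 2 * (∑ a ∈ S, μ.real (ev A Q (j : ℕ) a d)) + 4 * (Real.log d + Real.log (𝒮 d).card) ≤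
          num S (fun a => ev A Q (j : ℕ) a d) ω}) ≤ (d : ℝ) ^ (-(2 : ℝ)) / (𝒮 d).card := by
      intro S hS
      have h4 : (0 : ℝ) < (𝒮 d).card := by exact_mod_cast card_pos.2 ⟨S, hS⟩
      have h5 : (0 : ℝ) ≤ Real.log ((𝒮 d).card : ℝ) := Real.log_natCast_nonneg _
      refine (measureReal_biUnion_finset_le _ _).trans ?_
      refine (sum_le_sum (g := fun _ => Real.exp (-(4 * (Real.log d + Real.log (𝒮 d).card)))) (fun j _ => ?_)).trans ?_
      · exact dev_up (μ := μ) (fun a _ => meas_ev hA (j : ℕ) a d)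
          (mutual_ev hA (fun a ha => (hok d S hS a ha).1) (j : ℕ)) _
      · rw [sum_const, nsmul_eq_mul, card_range]
        have h6 : ((⌊4 * Real.log (d : ℝ)⌋₊ + 1 : ℕ) : ℝ) ≤ d := by
          push_cast
          have := Nat.floor_le (show 0 ≤ 4 * Real.log (d : ℝ) by positivity)
          rw [Real.rpow_one] at h1
          linarith
        have h7 : Real.exp (-(4 * (Real.log d + Real.log (𝒮 d).card))) ≤ (d : ℝ) ^ (-(3 : ℝ)) / (𝒮 d).card := by
          have h8 : (d : ℝ) ^ (-(3 : ℝ)) / (𝒮 d).card = Real.exp (-(3 * Real.log d + Real.log (𝒮 d).card)) := by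
            rw [Real.rpow_def_of_pos hd0, neg_add, Real.exp_add, Real.exp_neg (Real.log ((𝒮 d).card : ℝ)), Real.exp_log h4]
            rw [div_eq_mul_inv]
            congr 2
            ring
          rw [h8, Real.exp_le_exp]
          linarith
        have h9 : (d : ℝ) ^ (-(2 : ℝ)) = d * (d : ℝ) ^ (-(3 : ℝ)) := by
          rw [← Real.rpow_one_add' hd0.le (by norm_num)]
          norm_num
        rw [h9, mul_div_assoc]
        exact mul_le_mul h6 h7 (Real.exp_pos _).le hd0.le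
    refine (sum_le_sum h2).trans ?_
    rw [sum_const, nsmul_eq_mul]
    rcases Nat.eq_zero_or_pos (𝒮 d).card with h4 | h4
    · rw [h4]
      simp
    · have h5 : (0 : ℝ) < (𝒮 d).card := by exact_mod_cast h4
      refine le_of_eq ?_
      field_simp
  have hsm : Summable (fun d : ℕ => (d : ℝ) ^ (-(2 : ℝ))) := Real.summable_nat_rpow.2 (by norm_num)
  filter_upwards [bc hsm hEb] with ω hω
  filter_upwards [hω, tail_prob (μ := μ) hA hQ, eventually_ge_atTop 1] with d h1 h2 hd S hS j hj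
  have hl0 : 0 ≤ Real.log (d : ℝ) := Real.log_natCast_nonneg d
  have h5 : num S (fun a => ev A Q j a d) ω <
      2 * (∑ a ∈ S, μ.real (ev A Q (j : ℕ) a d)) + 4 * (Real.log d + Real.log (𝒮 d).card) := by
    by_contra hcon
    push Not at hcon
    apply h1
    rw [hE]
    refine Set.mem_biUnion hS (Set.mem_biUnion (x := j) ?_ hcon)
    show j ∈ range (⌊4 * Real.log (d : ℝ)⌋₊ + 1)
    rw [mem_range]
    have := (Nat.le_floor_iff (show 0 ≤ 4 * Real.log (d : ℝ) by positivity)).2 hj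
    omega
  have h6 : ∑ a ∈ S, μ.real (ev A Q (j : ℕ) a d) ≤ 3 * Real.exp (-(j / 2)) * S.card := by
    refine (sum_le_sum (g := fun _ => 3 * Real.exp (-((j : ℝ) / 2))) (fun a ha => ?_)).trans ?_
    · refine (h2 j (Nat.cast_nonneg j) hj a (hok d S hS a ha).1 (hok d S hS a ha).2).trans ?_
      rw [sub_eq_add_neg, Real.exp_add]
      have := Real.exp_one_lt_d9
      have h7 := Real.exp_pos (-((j : ℝ) / 2))
      nlinarith
    · rw [sum_const, nsmul_eq_mul]
      linarith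
  linarith

end Pool.Agent.Q112.LE
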