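import Pool.Agent.Q112.LE.Mom
import Pool.Agent.Q112.LE.Layer

/-!
# The least elements over many classes of one modulus: moments, almost surely
-/

set_option autoImplicit false

namespace Pool.Agent.Q112.LE

open Finset Filter MeasureTheory ProbabilityTheory Pool.Agent.Q120.GM Pool.Agent.Q120.AD
open scoped Topology Nat

variable {Q : ℕ}
variable {Ω : Type*} [MeasurableSpace Ω] {μ : Measure Ω} [IsProbabilityMeasure μ] {A : Ω → Set ℕ}

/-- The least element of `S` in the class of `a` modulo `d`. -/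
noncomputable def first (S : Set ℕ) (a d : ℕ) : ℕ := sInf {n | n ∈ S ∧ n % d = a % d}

/-- The normalized least element. -/
noncomputable def nrm (S : Set ℕ) (Q d a : ℕ) : ℝ := (first S a d : ℝ) / (phiQ Q d * Real.log d)

theorem nrm_nonneg (S : Set ℕ) (Q d a : ℕ) : 0 ≤ nrm S Q d a :=
  div_nonneg (Nat.cast_nonneg _) (mul_nonneg (phiQ_nonneg Q d) (Real.log_natCast_nonneg d))

theorem late_iff_first {S : Set ℕ} {a d : ℕ} (hne : ∃ n, n ∈ S ∧ n % d = a % d) (y : ℝ) :
    Late S a d y ↔ y < first S a d := by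
  have h1 : first S a d ∈ S ∧ first S a d % d = a % d := Nat.sInf_mem (s := {n | n ∈ S ∧ n % d = a % d}) hne
  constructor
  · intro h
    exact h _ h1.1 h1.2
  · intro h n hn hmod
    have h2 : first S a d ≤ n := Nat.sInf_le (show n ∈ {n | n ∈ S ∧ n % d = a % d} from ⟨hn, hmod⟩)
    have h3 : (first S a d : ℝ) ≤ n := by exact_mod_cast h2
    linarith

theorem late_iff_nrm {S : Set ℕ} {Q a d : ℕ} (hpos : 0 < phiQ Q d * Real.log d)
    (hne : ∃ n, n ∈ S ∧ n % d = a % d) (u : ℝ) :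
    Late S a d (u * phiQ Q d * Real.log d) ↔ u < nrm S Q d a := by
  rw [late_iff_first hne]
  unfold nrm
  rw [lt_div_iff₀ hpos, mul_assoc]

theorem phiQ_pos (hQ : 1 ≤ Q) {m : ℕ} (hm : 1 ≤ m) : 0 < phiQ Q m := by
  rw [phiQ_eq hQ]
  have : (0 : ℝ) < m := by exact_mod_cast hm
  exact div_pos this (kap_pos hQ m)

/-- For every modulus a finite collection of sets of classes of positive density; the sets are larger than every
power of `log d` times `1 + log |𝒮 d|`. -/
structure CollP (Q : ℕ) (𝒮 : ℕ → Finset (Finset ℕ)) : Prop where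
  ok : ∀ d, ∀ S ∈ 𝒮 d, ∀ a ∈ S, a < d ∧ Nat.gcd a (Nat.gcd d Q) = 1
  large : ∀ K : ℕ, ∀ᶠ d : ℕ in atTop, ∀ S ∈ 𝒮 d, Real.log d ^ K * (1 + Real.log (𝒮 d).card) ≤ S.card

theorem CollP.coll {𝒮 : ℕ → Finset (Finset ℕ)} (h : CollP Q 𝒮) : Coll Q 𝒮 := by
  refine ⟨h.ok, fun K => ?_⟩
  filter_upwards [h.large 2, hL1.eventually_ge_atTop (max K 1)] with d h1 h2 S hS
  have h3 := h1 S hS
  have h4 : K ≤ Real.log (d : ℝ) := (le_max_left _ _).trans h2
  have h5 : 1 ≤ Real.log (d : ℝ) := (le_max_right _ _).trans h2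
  have h6 : (0 : ℝ) ≤ Real.log ((𝒮 d).card : ℝ) := Real.log_natCast_nonneg _
  refine le_trans ?_ h3
  have h7 : K * (Real.log d + Real.log (𝒮 d).card) ≤ Real.log d * (Real.log d + Real.log (𝒮 d).card) :=
    mul_le_mul_of_nonneg_right h4 (by linarith)
  have h8 : 0 ≤ Real.log ((𝒮 d).card : ℝ) * Real.log d * (Real.log d - 1) :=
    mul_nonneg (mul_nonneg h6 (by linarith)) (by linarith)
  nlinarith

theorem power_exp (n : ℕ) {u : ℝ} (hu : 0 ≤ u) : u ^ n * Real.exp (-(u / 2)) ≤ 2 ^ n * (n ! : ℕ) := by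
  have h1 := Real.pow_div_factorial_le_exp (u / 2) (by positivity) n
  rw [div_le_iff₀ (by positivity), div_pow, div_le_iff₀ (by positivity)] at h1
  have h2 : Real.exp (u / 2) * Real.exp (-(u / 2)) = 1 := by rw [← Real.exp_add]; simp
  have h3 := Real.exp_pos (-(u / 2))
  calc u ^ n * Real.exp (-(u / 2)) ≤ (Real.exp (u / 2) * (n ! : ℕ) * 2 ^ n) * Real.exp (-(u / 2)) :=
        mul_le_mul_of_nonneg_right h1 h3.le
    _ = (Real.exp (u / 2) * Real.exp (-(u / 2))) * (2 ^ n * (n ! : ℕ)) := by ring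
    _ = _ := by rw [h2, one_mul]

/-- **Domination.** -/
theorem dom {S : Set ℕ} (hQ : 1 ≤ Q) {𝒮 : ℕ → Finset (Finset ℕ)} (h𝒮 : CollP Q 𝒮)
    (h1 : ∀ᶠ d : ℕ in atTop, ∀ a, a < d → Nat.gcd a (Nat.gcd d Q) = 1 → ¬ Late S a d (4 * phiQ Q d * Real.log d ^ 2))
    (h2 : ∀ᶠ d : ℕ in atTop, ∀ T ∈ 𝒮 d, ∀ j : ℕ, 1 ≤ j → (j : ℝ) ≤ 4 * Real.log d →
      ∑ a ∈ T, (if (j : ℝ) < nrm S Q d a then (1 : ℝ) else 0) ≤
        6 * Real.exp (-(j / 2)) * T.card + 4 * (Real.log d + Real.log (𝒮 d).card)) (n : ℕ) :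
    ∀ᶠ d in atTop, ∀ T ∈ 𝒮 d, ∀ u : ℝ, 0 < u →
      ((n : ℝ) + 1) * u ^ n * (above (nrm S Q d) T u / T.card) ≤
        (2 * (n + 1) * (12 * (2 ^ (n + 2) * ((n + 2)! : ℕ)) + 4 * 4 ^ (n + 2))) * (1 + u ^ 2)⁻¹ := by
  filter_upwards [h1, h2, h𝒮.large (n + 3), hL1.eventually_ge_atTop 1, eventually_ge_atTop 1] with d g1 g2 g3 g4 hd T hT u hu
  have hL0 : 0 < Real.log (d : ℝ) := by linarith
  have hc0 : (0 : ℝ) ≤ Real.log ((𝒮 d).card : ℝ) := Real.log_natCast_nonneg _
  have hT1 := g3 T hT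
  have hT0 : (0 : ℝ) < T.card := lt_of_lt_of_le (by positivity) hT1
  have hpos : 0 < phiQ Q d * Real.log d := mul_pos (phiQ_pos hQ hd) hL0
  obtain ⟨C, hC⟩ : ∃ C : ℝ, C = 2 * (n + 1) * (12 * (2 ^ (n + 2) * ((n + 2)! : ℕ)) + 4 * 4 ^ (n + 2)) := ⟨_, rfl⟩
  rw [← hC, ← div_eq_mul_inv, le_div_iff₀ (by positivity)]
  have hf : (1 : ℝ) ≤ ((n + 2)! : ℕ) := by exact_mod_cast Nat.factorial_pos _
  have h2p : (1 : ℝ) ≤ 2 ^ (n + 2) := one_le_pow₀ (by norm_num)
  have h4p : (1 : ℝ) ≤ 4 ^ (n + 2) := one_le_pow₀ (by norm_num)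
  have hle : above (nrm S Q d) T u ≤ T.card := by
    unfold above
    refine (sum_le_sum (g := fun _ => (1 : ℝ)) (fun a _ => by split_ifs <;> norm_num)).trans ?_
    rw [sum_const, nsmul_eq_mul, mul_one]
  have hn0 : (0 : ℝ) ≤ n := Nat.cast_nonneg n
  have h0 : 0 ≤ above (nrm S Q d) T u := by
    unfold above
    exact sum_nonneg (fun a _ => by split_ifs <;> norm_num)
  have hr : above (nrm S Q d) T u / T.card ≤ 1 := by rwa [div_le_one hT0]
  have hr0 : 0 ≤ above (nrm S Q d) T u / T.card := by positivity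
  rcases le_or_gt u 1 with hu1 | hu1
  · -- small u
    have e1 : u ^ n ≤ 1 := pow_le_one₀ hu.le hu1
    have e2 : u ^ 2 ≤ 1 := pow_le_one₀ hu.le hu1
    have e3 : 0 ≤ u ^ n := by positivity
    have e4 : ((n : ℝ) + 1) * u ^ n * (above (nrm S Q d) T u / T.card) ≤ (n + 1) * 1 * 1 := by gcongr
    have e5 : ((n : ℝ) + 1) * u ^ n * (above (nrm S Q d) T u / T.card) * (1 + u ^ 2) ≤ ((n + 1) * 1 * 1) * (1 + 1) := by
      gcongr
    refine e5.trans ?_
    rw [hC]
    have e6 : (1 : ℝ) ≤ 12 * (2 ^ (n + 2) * ((n + 2)! : ℕ)) + 4 * 4 ^ (n + 2) := by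
      have : (1 : ℝ) ≤ 2 ^ (n + 2) * ((n + 2)! : ℕ) := one_le_mul_of_one_le_of_one_le h2p hf
      linarith
    nlinarith
  · rcases le_or_gt u (4 * Real.log d) with hu4 | hu4
    · obtain ⟨j, hj⟩ : ∃ j, j = ⌊u⌋₊ := ⟨_, rfl⟩
      have hj1 : 1 ≤ j := by
        rw [hj]
        exact Nat.le_floor (by simpa using hu1.le)
      have hju : (j : ℝ) ≤ u := by rw [hj]; exact Nat.floor_le hu.le
      have hju2 : u < j + 1 := by rw [hj]; exact Nat.lt_floor_add_one u
      have e1 : above (nrm S Q d) T u ≤ ∑ a ∈ T, (if (j : ℝ) < nrm S Q d a then (1 : ℝ) else 0) := by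
        unfold above
        refine sum_le_sum (fun a _ => ?_)
        by_cases h : u < nrm S Q d a
        · rw [if_pos h, if_pos (by linarith)]
        · rw [if_neg h]
          split_ifs <;> norm_num
      have e2 := e1.trans (g2 T hT j hj1 (hju.trans hu4))
      have e3 : Real.exp (-((j : ℝ) / 2)) ≤ 2 * Real.exp (-(u / 2)) := by
        have e4 : Real.exp (-((j : ℝ) / 2)) ≤ Real.exp (1 / 2 + (-(u / 2))) := by
          rw [Real.exp_le_exp]
          linarith
        refine e4.trans ?_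
        rw [Real.exp_add]
        refine mul_le_mul_of_nonneg_right ?_ (Real.exp_pos _).le
        have e5 : Real.exp (1 / 2) * Real.exp (1 / 2) = Real.exp 1 := by
          rw [← Real.exp_add]
          norm_num
        have e6 := Real.exp_one_lt_d9
        by_contra hcon
        push Not at hcon
        nlinarith
      have e4 : (Real.log d + Real.log (𝒮 d).card) * Real.log d ^ (n + 2) ≤ T.card := by
        refine le_trans ?_ hT1
        have e5 : Real.log d + Real.log (𝒮 d).card ≤ Real.log d * (1 + Real.log (𝒮 d).card) := by nlinarith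
        calc (Real.log d + Real.log (𝒮 d).card) * Real.log d ^ (n + 2)
            ≤ (Real.log d * (1 + Real.log (𝒮 d).card)) * Real.log d ^ (n + 2) :=
              mul_le_mul_of_nonneg_right e5 (by positivity)
          _ = _ := by ring
      have e5 : above (nrm S Q d) T u / T.card ≤ 12 * Real.exp (-(u / 2)) + 4 / Real.log d ^ (n + 2) := by
        rw [div_le_iff₀ hT0]
        have e6 : 4 * (Real.log d + Real.log (𝒮 d).card) ≤ 4 / Real.log d ^ (n + 2) * T.card := by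
          rw [div_mul_eq_mul_div, le_div_iff₀ (by positivity)]
          nlinarith
        have e7 : 6 * Real.exp (-((j : ℝ) / 2)) * T.card ≤ 12 * Real.exp (-(u / 2)) * T.card := by
          refine mul_le_mul_of_nonneg_right ?_ hT0.le
          linarith
        linarith
      have e6 : u ^ (n + 2) * (above (nrm S Q d) T u / T.card) ≤
          12 * (2 ^ (n + 2) * ((n + 2)! : ℕ)) + 4 * 4 ^ (n + 2) := by
        have e7 : u ^ (n + 2) * (above (nrm S Q d) T u / T.card) ≤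
            u ^ (n + 2) * (12 * Real.exp (-(u / 2)) + 4 / Real.log d ^ (n + 2)) :=
          mul_le_mul_of_nonneg_left e5 (by positivity)
        refine e7.trans ?_
        have e8 := power_exp (n + 2) hu.le
        have e9 : u ^ (n + 2) * (4 / Real.log d ^ (n + 2)) ≤ 4 * 4 ^ (n + 2) := by
          rw [mul_div_assoc', div_le_iff₀ (by positivity)]
          have : u ^ (n + 2) ≤ (4 * Real.log d) ^ (n + 2) := pow_le_pow_left₀ hu.le hu4 _
          rw [mul_pow] at this
          nlinarith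
        calc u ^ (n + 2) * (12 * Real.exp (-(u / 2)) + 4 / Real.log d ^ (n + 2))
            = 12 * (u ^ (n + 2) * Real.exp (-(u / 2))) + u ^ (n + 2) * (4 / Real.log d ^ (n + 2)) := by ring
          _ ≤ _ := by linarith
      have e7 : ((n : ℝ) + 1) * u ^ n * (above (nrm S Q d) T u / T.card) * (1 + u ^ 2) ≤
          ((n : ℝ) + 1) * u ^ n * (above (nrm S Q d) T u / T.card) * (2 * u ^ 2) := by
        have : 1 ≤ u ^ 2 := one_le_pow₀ hu1.le
        refine mul_le_mul_of_nonneg_left (by linarith) (by positivity)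
      refine e7.trans ?_
      calc ((n : ℝ) + 1) * u ^ n * (above (nrm S Q d) T u / T.card) * (2 * u ^ 2)
          = 2 * (n + 1) * (u ^ (n + 2) * (above (nrm S Q d) T u / T.card)) := by ring
        _ ≤ 2 * (n + 1) * (12 * (2 ^ (n + 2) * ((n + 2)! : ℕ)) + 4 * 4 ^ (n + 2)) :=
            mul_le_mul_of_nonneg_left e6 (by positivity)
        _ = C := hC.symm
    · have e1 : above (nrm S Q d) T u = 0 := by
        unfold above
        refine sum_eq_zero (fun a ha => if_neg ?_)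
        push Not
        obtain ⟨h5, h6⟩ := h𝒮.ok d T hT a ha
        have h7 := g1 a h5 h6
        unfold Late at h7
        push Not at h7
        obtain ⟨m, hm1, hm2, hm3⟩ := h7
        have h8 : first S a d ≤ m := Nat.sInf_le (show m ∈ {n | n ∈ S ∧ n % d = a % d} from ⟨hm1, hm2⟩)
        have h9 : (first S a d : ℝ) ≤ m := by exact_mod_cast h8
        unfold nrm
        rw [div_le_iff₀ hpos]
        have h10 : 4 * phiQ Q d * Real.log d ^ 2 = (4 * Real.log d) * (phiQ Q d * Real.log d) := by ring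
        have h11 : (4 * Real.log d) * (phiQ Q d * Real.log d) ≤ u * (phiQ Q d * Real.log d) :=
          mul_le_mul_of_nonneg_right hu4.le hpos.le
        linarith
      rw [e1, hC]
      simp
      positivity

/-- **The moments.** -/
theorem moments (hA : IsModel μ (level Q) A) (hQ : 1 ≤ Q) {𝒮 : ℕ → Finset (Finset ℕ)} (h𝒮 : CollP Q 𝒮) :
    ∀ᵐ ω ∂μ, ∀ k : ℕ, ∀ ε : ℝ, 0 < ε → ∀ᶠ d : ℕ in atTop, ∀ T ∈ 𝒮 d,
      |(∑ a ∈ T, nrm (A ω) Q d a ^ k) / (T.card : ℝ) - (k ! : ℕ)| ≤ ε := by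
  classical
  filter_upwards [bulk hA hQ h𝒮.coll, none_beyond hA hQ, tail_count hA hQ h𝒮.ok] with ω h1 h2 h3
  -- nonempty classes and positive normalization
  have hex : ∀ᶠ d : ℕ in atTop, 0 < phiQ Q d * Real.log d ∧ ∀ a, a < d → Nat.gcd a (Nat.gcd d Q) = 1 →
      ∃ n, n ∈ A ω ∧ n % d = a % d := by
    filter_upwards [h2, hL1.eventually_ge_atTop 1, eventually_ge_atTop 1] with d g1 g2 g3
    refine ⟨mul_pos (phiQ_pos hQ g3) (by linarith), fun a ha hg => ?_⟩
    have h4 := g1 a ha hg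
    unfold Late at h4
    push Not at h4
    obtain ⟨n, hn1, hn2, hn3⟩ := h4
    exact ⟨n, hn1, hn2⟩
  have hne : ∀ᶠ d in atTop, ∀ S ∈ 𝒮 d, 0 < S.card := by
    filter_upwards [h𝒮.large 0] with d g1 S hS
    have g2 := g1 S hS
    have hc0 : (0 : ℝ) ≤ Real.log ((𝒮 d).card : ℝ) := Real.log_natCast_nonneg _
    have : (0 : ℝ) < S.card := lt_of_lt_of_le (by positivity) g2
    exact_mod_cast this
  have hlim : ∀ u : ℝ, 0 < u → ∀ ε : ℝ, 0 < ε → ∀ᶠ d in atTop, ∀ S ∈ 𝒮 d,
      |above (nrm (A ω) Q d) S u - Real.exp (-u) * S.card| ≤ ε * S.card := by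
    intro u hu ε hε
    filter_upwards [h1 u hu ε hε, hex] with d g1 g2 S hS
    have g3 := g1 S hS
    have g4 : (Set.ncard {a : ℕ | a ∈ S ∧ Late (A ω) a d (u * phiQ Q d * Real.log d)} : ℝ) =
        above (nrm (A ω) Q d) S u := by
      have g5 : {a : ℕ | a ∈ S ∧ Late (A ω) a d (u * phiQ Q d * Real.log d)} =
          ((S.filter (fun a => u < nrm (A ω) Q d a) : Finset ℕ) : Set ℕ) := by
        ext a
        rw [mem_coe, mem_filter]
        constructor
        · rintro ⟨h7, h8⟩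
          obtain ⟨h9, h10⟩ := h𝒮.ok d S hS a h7
          exact ⟨h7, (late_iff_nrm g2.1 (g2.2 a h9 h10) u).1 h8⟩
        · rintro ⟨h7, h8⟩
          obtain ⟨h9, h10⟩ := h𝒮.ok d S hS a h7
          exact ⟨h7, (late_iff_nrm g2.1 (g2.2 a h9 h10) u).2 h8⟩
      rw [g5, Set.ncard_coe_finset]
      unfold above
      rw [sum_boole]
    rwa [g4] at g3
  have hbd : ∀ᶠ d : ℕ in atTop, ∀ T ∈ 𝒮 d, ∀ j : ℕ, 1 ≤ j → (j : ℝ) ≤ 4 * Real.log d →
      ∑ a ∈ T, (if (j : ℝ) < nrm (A ω) Q d a then (1 : ℝ) else 0) ≤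
        6 * Real.exp (-(j / 2)) * T.card + 4 * (Real.log d + Real.log (𝒮 d).card) := by
    filter_upwards [h3, hex, late_iff_ev' hQ (zero_lt_one)] with d g1 g2 g3 T hT j hj1 hj2
    refine le_trans (le_of_eq ?_) (g1 T hT j hj2)
    unfold num
    refine sum_congr rfl (fun a ha => ?_)
    obtain ⟨h9, h10⟩ := h𝒮.ok d T hT a ha
    have h11 := g3 (j : ℝ) (by exact_mod_cast hj1) a h9 (A ω)
    rw [late_iff_nrm g2.1 (g2.2 a h9 h10)] at h11
    by_cases h12 : (j : ℝ) < nrm (A ω) Q d a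
    · rw [if_pos h12, Set.indicator_of_mem]
      exact h11.1 h12
    · rw [if_neg h12, Set.indicator_of_notMem]
      intro h13
      exact h12 (h11.2 h13)
  intro k ε hε
  rcases Nat.eq_zero_or_pos k with hk | hk
  · subst hk
    filter_upwards [hne] with d g1 T hT
    have : (0 : ℝ) < T.card := by exact_mod_cast g1 T hT
    simp only [pow_zero, sum_const, nsmul_eq_mul, mul_one, Nat.factorial_zero, Nat.cast_one]
    rw [div_self this.ne', sub_self, abs_zero]
    exact hε.le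
  · obtain ⟨n, rfl⟩ : ∃ n, k = n + 1 := ⟨k - 1, by omega⟩
    exact mom_det n (X := fun d a => nrm (A ω) Q d a) (fun d a => nrm_nonneg _ _ _ _) hne hlim
      (dom hQ h𝒮 h2 hbd n) hε

end Pool.Agent.Q112.LE
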