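import Pool.Agent.Q112.LE.Void

/-!
# The common elements of two classes with different moduli
-/

set_option autoImplicit false

namespace Pool.Agent.Q112.LE

open Finset

/-- The indices `j ≤ R` for which `c + m j` is one of the first elements of the class of `c'` modulo `m'`. -/
def sol (c c' : ℤ) (m' R m : ℕ) : Finset ℕ :=
  (Icc 1 R).filter (fun j : ℕ => ∃ j' ∈ (Icc 1 R : Finset ℕ), (c : ℤ) + (m : ℤ) * (j : ℤ) = c' + (m' : ℤ) * (j' : ℤ))

/-- The larger of the numerator and the denominator of `m' / m`, if `m < m'`. -/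
def ht (m' m : ℕ) : ℕ := m' / Nat.gcd m m'

theorem ht_pos {m' m : ℕ} (hm : 0 < m) (h : m < m') : 0 < ht m' m :=
  Nat.div_pos (Nat.le_of_dvd (by omega) (Nat.gcd_dvd_right m m')) (Nat.gcd_pos_of_pos_left _ hm)

theorem ht_mul {m' m : ℕ} : m * ht m' m = (m / Nat.gcd m m') * m' := by
  unfold ht
  have h1 := Nat.gcd_dvd_left m m'
  have h2 := Nat.gcd_dvd_right m m'
  obtain ⟨a, ha⟩ := h1
  obtain ⟨b, hb⟩ := h2
  rcases Nat.eq_zero_or_pos (Nat.gcd m m') with hg | hg
  · rw [hg]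
    simp
  · have e1 : m / Nat.gcd m m' = a := by
      nth_rewrite 1 [ha]
      rw [Nat.mul_div_cancel_left _ hg]
    have e2 : m' / Nat.gcd m m' = b := by
      nth_rewrite 1 [hb]
      rw [Nat.mul_div_cancel_left _ hg]
    rw [e1, e2]
    nth_rewrite 1 [ha]
    nth_rewrite 2 [hb]
    ring

theorem sol_card_le {c c' : ℤ} {m' R m : ℕ} (hm : 0 < m) (h : m < m') : (sol c c' m' R m).card ≤ R / ht m' m + 1 := by
  obtain ⟨g, hg⟩ : ∃ g, g = Nat.gcd m m' := ⟨_, rfl⟩
  have hg0 : 0 < g := by rw [hg]; exact Nat.gcd_pos_of_pos_left _ hm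
  obtain ⟨a, ha⟩ := Nat.gcd_dvd_left m m'
  obtain ⟨b, hb⟩ := Nat.gcd_dvd_right m m'
  rw [← hg] at ha hb
  have hht : ht m' m = b := by
    unfold ht
    rw [← hg]
    nth_rewrite 1 [hb]
    rw [Nat.mul_div_cancel_left _ hg0]
  have hb0 : 0 < b := by
    rw [← hht]
    exact ht_pos hm h
  have hco : a.Coprime b := by
    have h1 : Nat.gcd (g * a) (g * b) = g := by rw [← ha, ← hb, ← hg]
    rw [Nat.gcd_mul_left] at h1
    exact Nat.eq_of_mul_eq_mul_left hg0 (by rw [h1, mul_one])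
  rw [hht, ← card_range (R / b + 1)]
  refine card_le_card_of_injOn (fun j => j / b) ?_ ?_
  · intro j hj
    unfold sol at hj
    rw [mem_coe, mem_filter, mem_Icc] at hj
    rw [mem_coe, mem_range]
    have := Nat.div_le_div_right (c := b) hj.1.2
    exact Nat.lt_succ_of_le this
  · intro j hj i hi hij
    unfold sol at hj hi
    rw [mem_coe, mem_filter] at hj hi
    obtain ⟨_, j', _, e1⟩ := hj
    obtain ⟨_, i', _, e2⟩ := hi
    have e3 : (m : ℤ) * (j - i) = m' * (j' - i') := by linarith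
    have e4 : (a : ℤ) * (j - i) = b * (j' - i') := by
      have h1 : (g : ℤ) * (a * (j - i)) = g * (b * (j' - i')) := by
        rw [ha, hb] at e3
        push_cast at e3
        linarith
      exact mul_left_cancel₀ (by exact_mod_cast hg0.ne') h1
    have e5 : (b : ℤ) ∣ (j - i) := by
      have h1 : (b : ℤ) ∣ a * (j - i) := ⟨_, e4⟩
      exact (Int.isCoprime_iff_gcd_eq_one.2 (by
        rw [Int.gcd_natCast_natCast]
        exact hco.symm)).dvd_of_dvd_mul_left h1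
    have e6 : j % b = i % b := by
      have h1 : (i : ℤ) ≡ j [ZMOD b] := Int.modEq_iff_dvd.2 e5
      have h2 : i ≡ j [MOD b] := Int.natCast_modEq_iff.1 h1
      exact h2.symm
    have e7 : j / b = i / b := hij
    rw [← Nat.div_add_mod j b, ← Nat.div_add_mod i b, e6, e7]

theorem card_ht_le {J : Finset ℕ} {m' : ℕ} (h0 : ∀ m ∈ J, 0 < m ∧ m < m') {h : ℕ} (hh : 0 < h) :
    (J.filter (fun m => ht m' m = h)).card ≤ h := by
  refine (card_le_card_of_injOn (t := range h) (fun m => m / Nat.gcd m m') ?_ ?_).trans (card_range h).le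
  · intro m hm
    rw [mem_coe, mem_filter] at hm
    rw [mem_coe, mem_range]
    show m / Nat.gcd m m' < h
    rw [← hm.2]
    have h1 := ht_mul (m' := m') (m := m)
    obtain ⟨h2, h3⟩ := h0 m hm.1
    by_contra hcon
    push Not at hcon
    have h4 : ht m' m * m' ≤ m / Nat.gcd m m' * m' := Nat.mul_le_mul_right _ hcon
    have h5 := ht_pos h2 h3
    have h6 : ht m' m * m < ht m' m * m' := Nat.mul_lt_mul_of_pos_left h3 h5
    linarith [mul_comm m (ht m' m)]
  · intro m hm n hn hmn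
    rw [mem_coe, mem_filter] at hm hn
    have h1 := ht_mul (m' := m') (m := m)
    have h2 := ht_mul (m' := m') (m := n)
    have h3 : m / Nat.gcd m m' = n / Nat.gcd n m' := hmn
    rw [hm.2, h3, ← h2, hn.2] at h1
    exact Nat.eq_of_mul_eq_mul_right hh h1

theorem sum_inv_ht_le {J : Finset ℕ} {m' K : ℕ} (h0 : ∀ m ∈ J, 0 < m ∧ m < m') (hK : 1 ≤ K) (hJ : J.card ≤ K ^ 2) :
    ∑ m ∈ J, (1 : ℝ) / ht m' m ≤ 2 * K := by
  classical
  have hK0 : (0 : ℝ) < K := by exact_mod_cast hK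
  rw [← sum_filter_add_sum_filter_not J (fun m => ht m' m ≤ K)]
  have h1 : ∑ m ∈ J.filter (fun m => ht m' m ≤ K), (1 : ℝ) / ht m' m ≤ K := by
    have h2 : ∀ m ∈ J.filter (fun m => ht m' m ≤ K), ht m' m ∈ Icc 1 K := by
      intro m hm
      rw [mem_filter] at hm
      rw [mem_Icc]
      exact ⟨ht_pos (h0 m hm.1).1 (h0 m hm.1).2, hm.2⟩
    rw [← sum_fiberwise_of_maps_to h2]
    have h3 : ∀ h ∈ Icc 1 K, ∑ m ∈ (J.filter (fun m => ht m' m ≤ K)).filter (fun m => ht m' m = h), (1 : ℝ) / ht m' m ≤ 1 := by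
      intro h hh
      rw [mem_Icc] at hh
      have h4 : ∀ m ∈ (J.filter (fun m => ht m' m ≤ K)).filter (fun m => ht m' m = h), (1 : ℝ) / ht m' m ≤ 1 / h := by
        intro m hm
        rw [mem_filter] at hm
        rw [hm.2]
      refine (sum_le_sum h4).trans ?_
      rw [sum_const, nsmul_eq_mul]
      have h5 := card_ht_le (J := J.filter (fun m => ht m' m ≤ K)) (m' := m')
        (fun m hm => h0 m (mem_filter.1 hm).1) (h := h) (by omega)
      have h6 : (((J.filter (fun m => ht m' m ≤ K)).filter (fun m => ht m' m = h)).card : ℝ) ≤ h := by exact_mod_cast h5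
      have h7 : (0 : ℝ) < h := by exact_mod_cast (by omega : 0 < h)
      calc (((J.filter (fun m => ht m' m ≤ K)).filter (fun m => ht m' m = h)).card : ℝ) * (1 / h) ≤ h * (1 / h) :=
            mul_le_mul_of_nonneg_right h6 (by positivity)
        _ = 1 := by field_simp
    refine (sum_le_sum h3).trans ?_
    rw [sum_const, nsmul_eq_mul, mul_one, Nat.card_Icc]
    push_cast
    simp
  have h2 : ∑ m ∈ J.filter (fun m => ¬ ht m' m ≤ K), (1 : ℝ) / ht m' m ≤ K := by
    have h3 : ∀ m ∈ J.filter (fun m => ¬ ht m' m ≤ K), (1 : ℝ) / ht m' m ≤ 1 / K := by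
      intro m hm
      rw [mem_filter] at hm
      apply one_div_le_one_div_of_le hK0
      exact_mod_cast (not_le.1 hm.2).le
    refine (sum_le_sum h3).trans ?_
    rw [sum_const, nsmul_eq_mul]
    have h4 : ((J.filter (fun m => ¬ ht m' m ≤ K)).card : ℝ) ≤ K ^ 2 := by
      exact_mod_cast (card_filter_le _ _).trans hJ
    calc ((J.filter (fun m => ¬ ht m' m ≤ K)).card : ℝ) * (1 / K) ≤ K ^ 2 * (1 / K) :=
          mul_le_mul_of_nonneg_right h4 (by positivity)
      _ = K := by field_simp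
  linarith

theorem card_dep_le {J : Finset ℕ} {c c' : ℤ} {m' R : ℕ} (_h0 : ∀ m ∈ J, 0 < m) :
    (J.filter (fun m => (sol c c' m' R m).Nonempty)).card ≤ R ^ 2 := by
  classical
  have h1 : J.filter (fun m => (sol c c' m' R m).Nonempty) ⊆
      (Icc 1 R ×ˢ Icc 1 R).image (fun q : ℕ × ℕ => ((c' - c + m' * (q.2 : ℕ)) / (q.1 : ℕ)).toNat) := by
    intro m hm
    rw [mem_filter] at hm
    obtain ⟨_, j, hj⟩ := hm
    unfold sol at hj
    rw [mem_filter] at hj
    obtain ⟨hj1, j', hj', e⟩ := hj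
    rw [mem_image]
    refine ⟨(j, j'), mem_product.2 ⟨hj1, hj'⟩, ?_⟩
    show ((c' - c + m' * (j' : ℕ)) / (j : ℕ)).toNat = m
    have e1 : c' - c + m' * (j' : ℕ) = (m : ℤ) * j := by linarith
    rw [mem_Icc] at hj1
    rw [e1, Int.mul_ediv_cancel _ (by exact_mod_cast (by omega : j ≠ 0))]
    exact Int.toNat_natCast m
  refine (card_le_card h1).trans (card_image_le.trans ?_)
  rw [card_product, Nat.card_Icc, Nat.add_sub_cancel, sq]

/-- **Total number of common elements.** -/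
theorem sum_sol_le {J : Finset ℕ} {c c' : ℤ} {m' R K : ℕ} (h0 : ∀ m ∈ J, 0 < m ∧ m < m') (hK : 1 ≤ K)
    (hJ : J.card ≤ K ^ 2) : ∑ m ∈ J, ((sol c c' m' R m).card : ℝ) ≤ 3 * (K * R) := by
  classical
  have h1 : ∑ m ∈ J, ((sol c c' m' R m).card : ℝ) =
      ∑ m ∈ J.filter (fun m => (sol c c' m' R m).Nonempty), ((sol c c' m' R m).card : ℝ) := by
    refine (sum_filter_of_ne (fun m _ hne => ?_)).symm
    rw [← card_pos]
    have : (sol c c' m' R m).card ≠ 0 := by
      intro h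
      apply hne
      rw [h]
      simp
    omega
  have h2 : ∀ m ∈ J.filter (fun m => (sol c c' m' R m).Nonempty),
      ((sol c c' m' R m).card : ℝ) ≤ 1 + R * (1 / ht m' m) := by
    intro m hm
    rw [mem_filter] at hm
    have h3 := sol_card_le (c := c) (c' := c') (R := R) (h0 m hm.1).1 (h0 m hm.1).2
    have h4 : ((sol c c' m' R m).card : ℝ) ≤ ((R / ht m' m : ℕ) : ℝ) + 1 := by exact_mod_cast h3
    have h5 : ((R / ht m' m : ℕ) : ℝ) ≤ (R : ℝ) / ht m' m := Nat.cast_div_le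
    rw [mul_one_div]
    linarith
  rw [h1]
  refine (sum_le_sum h2).trans ?_
  rw [sum_add_distrib, sum_const, nsmul_eq_mul, mul_one, ← mul_sum]
  have h3 : ((J.filter (fun m => (sol c c' m' R m).Nonempty)).card : ℝ) ≤ K * R := by
    have h4 := card_dep_le (J := J) (c := c) (c' := c') (m' := m') (R := R) (fun m hm => (h0 m hm).1)
    have h5 : (J.filter (fun m => (sol c c' m' R m).Nonempty)).card ≤ K ^ 2 := (card_filter_le _ _).trans hJ
    have h6 : (J.filter (fun m => (sol c c' m' R m).Nonempty)).card ≤ K * R := by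
      rcases le_total K R with h7 | h7
      · refine h5.trans ?_
        rw [sq]
        exact Nat.mul_le_mul_left _ h7
      · refine h4.trans ?_
        rw [sq]
        exact Nat.mul_le_mul_right _ h7
    exact_mod_cast h6
  have h4 : ∑ m ∈ J.filter (fun m => (sol c c' m' R m).Nonempty), (1 : ℝ) / ht m' m ≤ 2 * K :=
    (sum_le_sum_of_subset_of_nonneg (filter_subset _ _) (fun m _ _ => by positivity)).trans (sum_inv_ht_le h0 hK hJ)
  have h5 : (R : ℝ) * ∑ m ∈ J.filter (fun m => (sol c c' m' R m).Nonempty), (1 : ℝ) / ht m' m ≤ R * (2 * K) :=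
    mul_le_mul_of_nonneg_left h4 (Nat.cast_nonneg R)
  linarith

/-- The common elements of the sets `WW`. -/
theorem card_inter_le {Q : ℕ} {C : Finset ℤ} {u : ℤ → ℝ} {m m' B R : ℕ} (hC : ∀ c ∈ C, |c| ≤ (B : ℤ))
    (hm : B ≤ m) (hm' : B ≤ m') (hR : ∀ c ∈ C, MM Q c m (u c) ≤ R) (hR' : ∀ c ∈ C, MM Q c m' (u c) ≤ R) :
    ((WW Q C u m ∩ WW Q C u m').card : ℝ) ≤ ∑ q ∈ C ×ˢ C, ((sol q.1 q.2 m' R m).card : ℝ) := by
  classical
  have h1 : WW Q C u m ∩ WW Q C u m' ⊆ (C ×ˢ C).biUnion (fun q => (sol q.1 q.2 m' R m).image (fun j => el q.1 m j)) := by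
    intro n hn
    rw [mem_inter, mem_WW, mem_WW] at hn
    obtain ⟨⟨c, hc, j, h1, h2, e1⟩, ⟨c', hc', j', h3, h4, e2⟩⟩ := hn
    rw [mem_biUnion]
    refine ⟨(c, c'), mem_product.2 ⟨hc, hc'⟩, mem_image.2 ⟨j, ?_, e1.symm⟩⟩
    show j ∈ sol c c' m' R m
    unfold sol
    rw [mem_filter, mem_Icc]
    refine ⟨⟨h1, h2.trans (hR c hc)⟩, j', mem_Icc.2 ⟨h3, h4.trans (hR' c' hc')⟩, ?_⟩
    have hcm : |c| ≤ (m : ℤ) := (hC c hc).trans (by exact_mod_cast hm)
    have hcm' : |c'| ≤ (m' : ℤ) := (hC c' hc').trans (by exact_mod_cast hm')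
    rw [← el_cast hcm h1, ← el_cast hcm' h3, ← e1, ← e2]
  have h2 : (WW Q C u m ∩ WW Q C u m').card ≤ ∑ q ∈ C ×ˢ C, (sol q.1 q.2 m' R m).card :=
    (card_le_card h1).trans (card_biUnion_le.trans (sum_le_sum (fun q _ => card_image_le)))
  exact_mod_cast h2

theorem sum_inter_le {Q : ℕ} {C : Finset ℤ} {u : ℤ → ℝ} {J : Finset ℕ} {m' B R K : ℕ} (hC : ∀ c ∈ C, |c| ≤ (B : ℤ))
    (h0 : ∀ m ∈ J, 0 < m ∧ B ≤ m ∧ m < m') (hK : 1 ≤ K) (hJ : J.card ≤ K ^ 2)
    (hR : ∀ c ∈ C, ∀ m ∈ J, MM Q c m (u c) ≤ R) (hR' : ∀ c ∈ C, MM Q c m' (u c) ≤ R) :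
    ∑ m ∈ J, ((WW Q C u m ∩ WW Q C u m').card : ℝ) ≤ (C.card : ℝ) ^ 2 * (3 * (K * R)) := by
  classical
  rcases J.eq_empty_or_nonempty with rfl | ⟨m₁, hm₁⟩
  · rw [sum_empty]
    positivity
  · have h1 : ∀ m ∈ J, ((WW Q C u m ∩ WW Q C u m').card : ℝ) ≤ ∑ q ∈ C ×ˢ C, ((sol q.1 q.2 m' R m).card : ℝ) := by
      intro m hm
      obtain ⟨h2, h3, h4⟩ := h0 m hm
      exact card_inter_le hC h3 (by omega) (fun c hc => hR c hc m hm) hR'
    refine (sum_le_sum h1).trans ?_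
    rw [sum_comm]
    refine (sum_le_sum (fun q _ => sum_sol_le (c := q.1) (c' := q.2) (fun m hm => ⟨(h0 m hm).1, (h0 m hm).2.2⟩) hK hJ)).trans ?_
    rw [sum_const, nsmul_eq_mul, card_product]
    push_cast
    rw [sq]

end Pool.Agent.Q112.LE
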