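import Pool.Agent.Q112.LE.Main

/-!
# The probability that a class has no element up to `t φ_Q(m) (log m)^2`
-/

set_option autoImplicit false

namespace Pool.Agent.Q112.LE

open Finset Filter MeasureTheory ProbabilityTheory Pool.Agent.Q120.GM
open scoped Topology

variable {Q : ℕ}

/-- Upper bound for the expected number, general form. -/
theorem sum_level_le' (hQ : 1 ≤ Q) {c : ℤ} {m : ℕ} (hcm : |c| ≤ (m : ℤ))
    (hel : ∀ j, 1 ≤ j → (m : ℝ) / 2 ≤ (el c m j : ℕ))
    (hg : Int.gcd c (Nat.gcd m Q) = 1) (hm : 0 < Real.log ((m : ℝ) / 2)) (M : ℕ) :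
    ∑ j ∈ Icc 1 M, level Q (el c m j) ≤ ((M : ℝ) + Q) * kap Q m / Real.log ((m : ℝ) / 2) := by
  have hm0 : (0 : ℝ) < (m : ℝ) / 2 := by
    by_contra hcon
    push Not at hcon
    have h1 : (m : ℝ) / 2 = 0 := le_antisymm hcon (by positivity)
    rw [h1, Real.log_zero] at hm
    exact lt_irrefl _ hm
  have hI : Icc 1 M = Ico 1 (1 + M) := by
    ext j
    rw [mem_Icc, mem_Ico]
    omega
  have h1 : ∑ j ∈ Icc 1 M, level Q (el c m j) =
      ∑ j ∈ (Icc 1 M).filter (fun j : ℕ => Int.gcd (c + m * j) Q = 1), level Q (el c m j) := by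
    refine (sum_filter_of_ne (fun j hj hne => ?_)).symm
    rw [mem_Icc] at hj
    by_contra hcon
    apply hne
    unfold level
    rw [if_neg]
    rwa [coprime_el hcm hj.1]
  rw [h1]
  have h2 : ∀ j ∈ (Icc 1 M).filter (fun j : ℕ => Int.gcd (c + m * j) Q = 1),
      level Q (el c m j) ≤ qq Q / Real.log ((m : ℝ) / 2) := by
    intro j hj
    rw [mem_filter, mem_Icc] at hj
    exact level_le hm hm0 (hel j hj.1.1)
  refine (sum_le_sum h2).trans ?_
  rw [sum_const, nsmul_eq_mul, hI]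
  have h4 := (count_per hQ _ (per_int Q c m) 1 M).2
  have hq := qq_pos hQ
  have h5 := mul_le_mul_of_nonneg_right h4 (show 0 ≤ qq Q / Real.log ((m : ℝ) / 2) by positivity)
  refine h5.trans (le_of_eq ?_)
  have h6 := cnt_qq hQ hg
  unfold cnt at h6
  rw [← h6]
  ring

/-- Lower bound for the expected number, general form. -/
theorem le_sum_level' (hQ : 1 ≤ Q) {c : ℤ} {m : ℕ} (hcm : |c| ≤ (m : ℤ))
    (hel : ∀ j, 1 ≤ j → (m : ℝ) / 2 ≤ (el c m j : ℕ))
    (hg : Int.gcd c (Nat.gcd m Q) = 1) (hm : 0 < Real.log ((m : ℝ) / 2)) (hm2 : qq Q ≤ Real.log ((m : ℝ) / 2))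
    {M : ℕ} {Y : ℝ} (hY : ∀ j, 1 ≤ j → j ≤ M → ((el c m j : ℕ) : ℝ) ≤ Y) (hY1 : 1 < Y) :
    ((M : ℝ) - Q) * kap Q m / Real.log Y ≤ ∑ j ∈ Icc 1 M, level Q (el c m j) := by
  have hm0 : (0 : ℝ) < (m : ℝ) / 2 := by
    by_contra hcon
    push Not at hcon
    have h1 : (m : ℝ) / 2 = 0 := le_antisymm hcon (by positivity)
    rw [h1, Real.log_zero] at hm
    exact lt_irrefl _ hm
  have hI : Icc 1 M = Ico 1 (1 + M) := by
    ext j
    rw [mem_Icc, mem_Ico]
    omega
  have h3 : ∑ j ∈ (Icc 1 M).filter (fun j : ℕ => Int.gcd (c + m * j) Q = 1), level Q (el c m j) ≤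
      ∑ j ∈ Icc 1 M, level Q (el c m j) :=
    sum_le_sum_of_subset_of_nonneg (filter_subset _ _) (fun j _ _ => level_nonneg _ _)
  refine le_trans ?_ h3
  have hlY : 0 < Real.log Y := Real.log_pos hY1
  have h2 : ∀ j ∈ (Icc 1 M).filter (fun j : ℕ => Int.gcd (c + m * j) Q = 1),
      qq Q / Real.log Y ≤ level Q (el c m j) := by
    intro j hj
    rw [mem_filter, mem_Icc] at hj
    refine le_level hm2 hm hm0 (hel j hj.1.1) (hY j hj.1.1 hj.1.2) ?_
    rw [coprime_el hcm hj.1.1]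
    exact hj.2
  refine le_trans ?_ (sum_le_sum h2)
  rw [sum_const, nsmul_eq_mul, hI]
  have h4 := (count_per hQ _ (per_int Q c m) 1 M).1
  have hq := qq_pos hQ
  have h5 := mul_le_mul_of_nonneg_right h4 (show 0 ≤ qq Q / Real.log Y by positivity)
  refine le_trans (le_of_eq ?_) h5
  have h6 := cnt_qq hQ hg
  unfold cnt at h6
  rw [← h6]
  ring

theorem hL2 : Tendsto (fun m : ℕ => Real.log ((m : ℝ) / 2)) atTop atTop :=
  Real.tendsto_log_atTop.comp (tendsto_natCast_atTop_atTop.atTop_div_const (by norm_num))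

theorem hL1 : Tendsto (fun m : ℕ => Real.log (m : ℝ)) atTop atTop :=
  Real.tendsto_log_atTop.comp tendsto_natCast_atTop_atTop

theorem tendsto_lo2 {t : ℝ} (K : ℝ) (ht : 0 ≤ t) :
    Tendsto (fun m : ℕ => (t * Real.log m ^ 2 - K) /
      (Real.log ((m : ℝ) * (t * Real.log m ^ 2 + 2)) * Real.log m)) atTop (𝓝 t) := by
  have h1 : Tendsto (fun x : ℝ => (t - K / x ^ 2) / (1 + Real.log (t * x ^ 2 + 2) / x)) atTop (𝓝 t) := by
    have e0 : Tendsto (fun x : ℝ => x ^ 2) atTop atTop := tendsto_pow_atTop (by norm_num)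
    have e1 : Tendsto (fun x : ℝ => t - K / x ^ 2) atTop (𝓝 (t - 0)) :=
      tendsto_const_nhds.sub (tendsto_const_nhds.div_atTop e0)
    have e2 : Tendsto (fun x : ℝ => Real.log (t * x ^ 2 + 2) / x) atTop (𝓝 0) := by
      have e3 : Tendsto (fun x : ℝ => Real.log (t + 2) / x + 2 * (Real.log x / x)) atTop (𝓝 (0 + 2 * 0)) := by
        refine Tendsto.add (tendsto_const_nhds.div_atTop tendsto_id) (Tendsto.const_mul 2 ?_)
        have := Real.isLittleO_log_id_atTop.tendsto_div_nhds_zero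
        exact this
      rw [mul_zero, add_zero] at e3
      refine tendsto_of_tendsto_of_tendsto_of_le_of_le' tendsto_const_nhds e3 ?_ ?_
      · filter_upwards [eventually_ge_atTop (1 : ℝ)] with x hx
        have : 1 ≤ t * x ^ 2 + 2 := by nlinarith [mul_nonneg ht (sq_nonneg x)]
        exact div_nonneg (Real.log_nonneg this) (by linarith)
      · filter_upwards [eventually_ge_atTop (1 : ℝ)] with x hx
        have e4 : 2 * (Real.log x / x) = Real.log (x ^ 2) / x := by
          rw [Real.log_pow]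
          push_cast
          ring
        rw [e4, ← add_div, ← Real.log_mul (by positivity) (by positivity)]
        refine div_le_div_of_nonneg_right ?_ (by linarith)
        apply Real.log_le_log (by positivity)
        nlinarith [mul_nonneg ht (sq_nonneg x)]
    have e4 : Tendsto (fun x : ℝ => (t - K / x ^ 2) / (1 + Real.log (t * x ^ 2 + 2) / x)) atTop (𝓝 ((t - 0) / (1 + 0))) :=
      e1.div (tendsto_const_nhds (x := (1 : ℝ)).add e2) (by norm_num)
    rwa [sub_zero, add_zero, div_one] at e4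
  have h2 := h1.comp hL1
  refine h2.congr' ?_
  filter_upwards [hL1.eventually_ge_atTop 1, eventually_ge_atTop 1] with m hm hm1
  have hm0 : (0 : ℝ) < m := by exact_mod_cast hm1
  have hp : 0 < t * Real.log m ^ 2 + 2 := by positivity
  show (t - K / Real.log m ^ 2) / (1 + Real.log (t * Real.log m ^ 2 + 2) / Real.log m) = _
  rw [Real.log_mul hm0.ne' hp.ne']
  have h3 : 0 < Real.log (m : ℝ) := by linarith
  have h4 : 0 < Real.log (t * Real.log m ^ 2 + 2) := Real.log_pos (by nlinarith [mul_nonneg ht (sq_nonneg (Real.log (m : ℝ)))])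
  field_simp

theorem tendsto_hi2 (t K : ℝ) :
    Tendsto (fun m : ℕ => (t * Real.log m ^ 2 + K) / (Real.log ((m : ℝ) / 2) * Real.log m)) atTop (𝓝 t) := by
  have h1 : Tendsto (fun x : ℝ => (t + K / x ^ 2) / (1 - Real.log 2 / x)) atTop (𝓝 t) := by
    have e0 : Tendsto (fun x : ℝ => x ^ 2) atTop atTop := tendsto_pow_atTop (by norm_num)
    have e1 : Tendsto (fun x : ℝ => t + K / x ^ 2) atTop (𝓝 (t + 0)) :=
      tendsto_const_nhds.add (tendsto_const_nhds.div_atTop e0)
    have e2 : Tendsto (fun x : ℝ => Real.log 2 / x) atTop (𝓝 0) := tendsto_const_nhds.div_atTop tendsto_id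
    have e4 : Tendsto (fun x : ℝ => (t + K / x ^ 2) / (1 - Real.log 2 / x)) atTop (𝓝 ((t + 0) / (1 - 0))) :=
      e1.div (tendsto_const_nhds (x := (1 : ℝ)).sub e2) (by norm_num)
    rwa [add_zero, sub_zero, div_one] at e4
  have h2 := h1.comp hL1
  refine h2.congr' ?_
  filter_upwards [hL1.eventually_ge_atTop 1, eventually_ge_atTop 1] with m hm hm1
  have hm0 : (0 : ℝ) < m := by exact_mod_cast hm1
  show (t + K / Real.log m ^ 2) / (1 - Real.log 2 / Real.log m) = _
  rw [Real.log_div hm0.ne' (by norm_num)]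
  have h3 : 0 < Real.log (m : ℝ) := by linarith
  have h4 := Real.log_two_lt_d9
  have h5 : 0 < Real.log (m : ℝ) - Real.log 2 := by linarith
  field_simp

/-- **The expected number of elements up to `t φ_Q(m) (log m)^2` is `(t + o(1)) log m`.** -/
theorem sum_power (hQ : 1 ≤ Q) {t : ℝ} (ht : 0 ≤ t) {δ : ℝ} (hδ : 0 < δ) :
    ∀ᶠ m : ℕ in atTop, ∀ c : ℤ, |c| ≤ (m : ℤ) → (∀ j, 1 ≤ j → (m : ℝ) / 2 ≤ (el c m j : ℕ)) →
      Int.gcd c (Nat.gcd m Q) = 1 →
      (t - δ) * Real.log m ≤ ∑ j ∈ Icc 1 (MM Q c m (t * Real.log m)), level Q (el c m j) ∧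
        ∑ j ∈ Icc 1 (MM Q c m (t * Real.log m)), level Q (el c m j) ≤ (t + δ) * Real.log m := by
  have g1 := (tendsto_lo2 ((2 + Q) * Q) ht).eventually (lt_mem_nhds (show t - δ < t by linarith))
  have g2 := (tendsto_hi2 t ((1 + Q) * Q)).eventually (gt_mem_nhds (show t < t + δ by linarith))
  filter_upwards [g1, g2, hL2.eventually_gt_atTop 0, hL2.eventually_ge_atTop (qq Q), hL1.eventually_ge_atTop 1,
    eventually_ge_atTop 2] with m h1 h2 h3 h4 h5 h6
  intro c hcm hel hg
  have hm1 : 1 ≤ m := by omega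
  have hk := kap_pos hQ m
  have hk1 := kap_le hQ m
  have hQ0 : (0 : ℝ) ≤ Q := Nat.cast_nonneg Q
  have hm2 : (2 : ℝ) ≤ m := by exact_mod_cast h6
  have hlog : 0 < Real.log m := by linarith
  have hv : 0 ≤ t * Real.log m := by positivity
  constructor
  · have hY1 : 1 < (m : ℝ) * (t * Real.log m ^ 2 + 2) := by nlinarith [mul_nonneg ht (sq_nonneg (Real.log (m : ℝ)))]
    have h7 := le_sum_level' hQ hcm hel hg h3 h4 (M := MM Q c m (t * Real.log m))
      (Y := (m : ℝ) * (t * Real.log m ^ 2 + 2))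
      (fun j hj hj2 => by
        refine (el_le hcm hm1 hj hj2).trans ?_
        have e1 : phiQ Q m ≤ m := by
          rw [phiQ_eq hQ, div_le_iff₀ hk]
          have := one_le_kap hQ m
          nlinarith
        have e2 : t * Real.log m * phiQ Q m * Real.log m ≤ t * Real.log m * m * Real.log m := by gcongr
        nlinarith) hY1
    have h8 := le_MM hQ hcm hm1 (v := t * Real.log m)
    have hlY := Real.log_pos hY1
    have h9 : (t * Real.log m ^ 2 - (2 + Q) * Q) / Real.log ((m : ℝ) * (t * Real.log m ^ 2 + 2)) ≤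
        ((MM Q c m (t * Real.log m) : ℝ) - Q) * kap Q m / Real.log ((m : ℝ) * (t * Real.log m ^ 2 + 2)) := by
      apply div_le_div_of_nonneg_right _ hlY.le
      nlinarith
    rw [← div_div] at h1
    rw [lt_div_iff₀ hlog] at h1
    linarith
  · have h7 := sum_level_le' hQ hcm hel hg h3 (MM Q c m (t * Real.log m))
    have h8 := MM_le hQ hcm hm1 hv (Q := Q)
    have h9 : ((MM Q c m (t * Real.log m) : ℝ) + Q) * kap Q m / Real.log ((m : ℝ) / 2) ≤
        (t * Real.log m ^ 2 + (1 + Q) * Q) / Real.log ((m : ℝ) / 2) := by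
      apply div_le_div_of_nonneg_right _ h3.le
      nlinarith
    rw [← div_div, div_lt_iff₀ hlog] at h2
    linarith

/-- **The probability that there is no element up to `t φ_Q(m) (log m)^2`.** -/
theorem prod_power (hQ : 1 ≤ Q) {t : ℝ} (ht : 0 ≤ t) {δ : ℝ} (hδ : 0 < δ) :
    ∀ᶠ m : ℕ in atTop, ∀ c : ℤ, |c| ≤ (m : ℤ) → (∀ j, 1 ≤ j → (m : ℝ) / 2 ≤ (el c m j : ℕ)) →
      Int.gcd c (Nat.gcd m Q) = 1 →
      (m : ℝ) ^ (-(t + δ)) ≤ ∏ j ∈ Icc 1 (MM Q c m (t * Real.log m)), (1 - level Q (el c m j)) ∧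
        ∏ j ∈ Icc 1 (MM Q c m (t * Real.log m)), (1 - level Q (el c m j)) ≤ (m : ℝ) ^ (-(t - δ)) := by
  have hq := qq_pos hQ
  have g2 : Tendsto (fun m : ℕ => qq Q / Real.log ((m : ℝ) / 2)) atTop (𝓝 0) := tendsto_const_nhds.div_atTop hL2
  have g3 := g2.eventually (gt_mem_nhds (show (0 : ℝ) < min (1 / 2) (δ / (4 * (t + δ + 1))) by positivity))
  filter_upwards [sum_power hQ ht (show 0 < δ / 4 by linarith), g3, hL2.eventually_gt_atTop 0,
    hL1.eventually_ge_atTop 1, eventually_ge_atTop 1] with m h1 h2 h3 h4 h5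
  intro c hcm hel hg
  obtain ⟨b1, b2⟩ := h1 c hcm hel hg
  have hm0 : (0 : ℝ) < m := by exact_mod_cast h5
  have hm20 : (0 : ℝ) < (m : ℝ) / 2 := by positivity
  obtain ⟨τ, hτ⟩ : ∃ τ, τ = qq Q / Real.log ((m : ℝ) / 2) := ⟨_, rfl⟩
  rw [← hτ] at h2
  have hτ0 : 0 ≤ τ := by rw [hτ]; positivity
  have hτ2 : τ ≤ 1 / 2 := h2.le.trans (min_le_left _ _)
  have hτ3 : τ ≤ δ / (4 * (t + δ + 1)) := h2.le.trans (min_le_right _ _)
  obtain ⟨S, hS⟩ : ∃ S, S = ∑ j ∈ Icc 1 (MM Q c m (t * Real.log m)), level Q (el c m j) := ⟨_, rfl⟩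
  have hS0 : 0 ≤ S := by rw [hS]; exact sum_nonneg (fun _ _ => level_nonneg _ _)
  have hlev : ∀ j ∈ Icc 1 (MM Q c m (t * Real.log m)), level Q (el c m j) ≤ τ := by
    intro j hj
    rw [mem_Icc] at hj
    rw [hτ]
    exact level_le h3 hm20 (hel j hj.1)
  rw [← hS] at b1 b2
  constructor
  · have e1 : Real.exp (-((1 + 2 * τ) * S)) ≤ ∏ j ∈ Icc 1 (MM Q c m (t * Real.log m)), (1 - level Q (el c m j)) := by
      rw [hS, mul_sum, ← sum_neg_distrib, Real.exp_sum]
      refine Finset.prod_le_prod (fun n _ => (Real.exp_pos _).le) (fun j hj => ?_)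
      have h6 := level_nonneg Q (el c m j)
      have h7 := hlev j hj
      refine le_trans ?_ (Pool.Agent.Q120.TD.one_sub_ge h6 (h7.trans hτ2))
      rw [Real.exp_le_exp]
      nlinarith
    refine le_trans ?_ e1
    rw [Real.rpow_def_of_pos hm0, Real.exp_le_exp]
    have e2 : 2 * τ * S ≤ δ / 2 * Real.log m := by
      have e3 : 2 * τ * S ≤ 2 * (δ / (4 * (t + δ + 1))) * ((t + δ / 4) * Real.log m) := by gcongr
      refine e3.trans ?_
      have e4 : 2 * (δ / (4 * (t + δ + 1))) * ((t + δ / 4) * Real.log m) =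
          (δ / 2) * Real.log m * ((t + δ / 4) / (t + δ + 1)) := by
        field_simp
        ring
      rw [e4]
      have e5 : (t + δ / 4) / (t + δ + 1) ≤ 1 := by
        rw [div_le_one (by positivity)]
        linarith
      have e6 : 0 ≤ (δ / 2) * Real.log m := by positivity
      nlinarith
    nlinarith
  · have e1 : ∏ j ∈ Icc 1 (MM Q c m (t * Real.log m)), (1 - level Q (el c m j)) ≤ Real.exp (-S) := by
      rw [hS, ← sum_neg_distrib, Real.exp_sum]
      refine Finset.prod_le_prod (fun n _ => by linarith [level_le_one Q (el c m n)]) (fun n _ => ?_)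
      have := Real.add_one_le_exp (-level Q (el c m n))
      linarith
    refine e1.trans ?_
    rw [Real.rpow_def_of_pos hm0, Real.exp_le_exp]
    nlinarith

end Pool.Agent.Q112.LE
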