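import Pool.Agent.Q112.LE.Expo

/-!
# The least elements over many classes of one modulus: the bulk
-/

set_option autoImplicit false

namespace Pool.Agent.Q112.LE

open Finset Filter MeasureTheory ProbabilityTheory Pool.Agent.Q120.GM Pool.Agent.Q120.AD
open scoped Topology

variable {Q : ℕ}

/-- The expected number of elements up to `v φ_Q(m) log m` tends to `v`, uniformly over all classes. -/
theorem sum_fixed (hQ : 1 ≤ Q) {v : ℝ} (hv : 0 ≤ v) {ε : ℝ} (hε : 0 < ε) :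
    ∀ᶠ m : ℕ in atTop, ∀ c : ℤ, |c| ≤ (m : ℤ) → (∀ j, 1 ≤ j → (m : ℝ) / 2 ≤ (el c m j : ℕ)) →
      Int.gcd c (Nat.gcd m Q) = 1 → |∑ j ∈ Icc 1 (MM Q c m v), level Q (el c m j) - v| ≤ ε := by
  have g1 := (tendsto_lo v ((2 + Q) * Q) hv).eventually (lt_mem_nhds (show v - ε < v by linarith))
  have g2 := (tendsto_hi v ((1 + Q) * Q)).eventually (gt_mem_nhds (show v < v + ε by linarith))
  filter_upwards [g1, g2, hL2.eventually_gt_atTop 0, hL2.eventually_ge_atTop (qq Q),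
    eventually_ge_atTop 2] with m h1 h2 h3 h4 h6
  intro c hcm hel hg
  have hm1 : 1 ≤ m := by omega
  have hk := kap_pos hQ m
  have hk1 := kap_le hQ m
  have hQ0 : (0 : ℝ) ≤ Q := Nat.cast_nonneg Q
  have hm2 : (2 : ℝ) ≤ m := by exact_mod_cast h6
  have hlog : 0 ≤ Real.log m := Real.log_natCast_nonneg m
  rw [abs_le]
  constructor
  · have hY1 : 1 < (m : ℝ) * (v * Real.log m + 2) := by nlinarith [mul_nonneg hv hlog]
    have h7 := le_sum_level' hQ hcm hel hg h3 h4 (M := MM Q c m v) (Y := (m : ℝ) * (v * Real.log m + 2))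
      (fun j hj hj2 => by
        refine (el_le hcm hm1 hj hj2).trans ?_
        have e1 : phiQ Q m ≤ m := by
          rw [phiQ_eq hQ, div_le_iff₀ hk]
          have := one_le_kap hQ m
          nlinarith
        have e2 : v * phiQ Q m * Real.log m ≤ v * m * Real.log m := by gcongr
        nlinarith) hY1
    have h8 := le_MM hQ hcm hm1 (v := v)
    have hlY := Real.log_pos hY1
    have h9 : (v * Real.log m - (2 + Q) * Q) / Real.log ((m : ℝ) * (v * Real.log m + 2)) ≤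
        ((MM Q c m v : ℝ) - Q) * kap Q m / Real.log ((m : ℝ) * (v * Real.log m + 2)) := by
      apply div_le_div_of_nonneg_right _ hlY.le
      nlinarith
    linarith
  · have h7 := sum_level_le' hQ hcm hel hg h3 (MM Q c m v)
    have h8 := MM_le hQ hcm hm1 hv (Q := Q)
    have h9 : ((MM Q c m v : ℝ) + Q) * kap Q m / Real.log ((m : ℝ) / 2) ≤
        (v * Real.log m + (1 + Q) * Q) / Real.log ((m : ℝ) / 2) := by
      apply div_le_div_of_nonneg_right _ h3.le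
      nlinarith
    linarith

/-- The conditions for a natural number `c < m`. -/
theorem nat_conds {c m : ℕ} (hc : c < m) (hg : Nat.gcd c (Nat.gcd m Q) = 1) :
    |(c : ℤ)| ≤ (m : ℤ) ∧ (∀ j, 1 ≤ j → (m : ℝ) / 2 ≤ (el (c : ℤ) m j : ℕ)) ∧ Int.gcd (c : ℤ) (Nat.gcd m Q) = 1 := by
  refine ⟨?_, fun j hj => ?_, ?_⟩
  · rw [abs_of_nonneg (by positivity)]
    exact_mod_cast hc.le
  · rw [el_nat]
    have e1 : m ≤ c + m * j := by nlinarith
    have e2 : (m : ℝ) ≤ ((c + m * j : ℕ) : ℝ) := by exact_mod_cast e1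
    have e3 : (0 : ℝ) ≤ m := Nat.cast_nonneg m
    linarith
  · rw [Int.gcd_natCast_natCast]
    exact hg

variable {Ω : Type*} [MeasurableSpace Ω] {μ : Measure Ω} [IsProbabilityMeasure μ] {A : Ω → Set ℕ}

theorem real_cls (hA : IsModel μ (level Q) A) {c m M : ℕ} (hm : 1 ≤ m) :
    μ.real (free A (cls c m M)) = (1 - level Q c) * ∏ j ∈ Icc 1 M, (1 - level Q (el (c : ℤ) m j)) := by
  rw [real_free hA, prod_cls hm]
  have h3 : Ico 0 (M + 1) = insert 0 (Icc 1 M) := by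
    ext j
    rw [mem_insert, mem_Ico, mem_Icc]
    omega
  rw [h3, prod_insert (by simp)]
  congr 1

/-- The event. -/
def ev (A : Ω → Set ℕ) (Q : ℕ) (u : ℝ) (c m : ℕ) : Set Ω := free A (cls c m (MM Q (c : ℤ) m u))

theorem level_small (hQ : 1 ≤ Q) {ε : ℝ} (hε : 0 < ε) : ∃ c₀ : ℕ, ∀ c : ℕ, c₀ ≤ c → level Q c ≤ ε := by
  have hq := qq_pos hQ
  obtain ⟨c₀, hc₀⟩ := eventually_atTop.1 (hL1.eventually_ge_atTop (qq Q / ε))
  refine ⟨max c₀ 1, fun c hc => ?_⟩
  have h1 := hc₀ c (le_trans (le_max_left _ _) hc)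
  have h2 : 1 ≤ c := le_trans (le_max_right _ _) hc
  have h3 : (0 : ℝ) < c := by exact_mod_cast h2
  have h5 : 0 < qq Q / ε := by positivity
  have h4 := level_le (Q := Q) (x := (c : ℝ)) (m := c) (by linarith) h3 le_rfl
  refine h4.trans ?_
  rw [div_le_iff₀ (by linarith)]
  rw [div_le_iff₀ hε] at h1
  linarith

theorem prob_fixed (hA : IsModel μ (level Q) A) (hQ : 1 ≤ Q) {u : ℝ} (hu : 0 ≤ u) {ε : ℝ} (hε : 0 < ε) :
    ∃ c₀ : ℕ, ∀ᶠ m : ℕ in atTop, ∀ c, c < m → Nat.gcd c (Nat.gcd m Q) = 1 →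
      μ.real (ev A Q u c m) ≤ Real.exp (-u) + ε ∧
        (c₀ ≤ c → Real.exp (-u) - ε ≤ μ.real (ev A Q u c m)) := by
  obtain ⟨c₀, hc₀⟩ := level_small hQ (show 0 < ε / 2 by linarith)
  refine ⟨c₀, ?_⟩
  obtain ⟨δ, hδ, hδe⟩ : ∃ δ : ℝ, 0 < δ ∧ ∀ s : ℝ, |s - u| < δ → |Real.exp (-s) - Real.exp (-u)| < ε / 2 := by
    have h1 : Continuous (fun s : ℝ => Real.exp (-s)) := by fun_prop
    have h2 := Metric.continuous_iff.1 h1 u (ε / 2) (by linarith)
    obtain ⟨δ, h3, h4⟩ := h2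
    refine ⟨δ, h3, fun s hs => ?_⟩
    have := h4 s (by rwa [Real.dist_eq])
    rwa [Real.dist_eq] at this
  have hq := qq_pos hQ
  have g2 : Tendsto (fun m : ℕ => qq Q / Real.log ((m : ℝ) / 2)) atTop (𝓝 0) := tendsto_const_nhds.div_atTop hL2
  have g3 := g2.eventually (gt_mem_nhds (show (0 : ℝ) < min (1 / 2) (δ / (8 * (u + δ + 1))) by positivity))
  filter_upwards [sum_fixed hQ hu (show 0 < δ / 4 by linarith), g3, hL2.eventually_gt_atTop 0,
    eventually_ge_atTop 1] with m h1 h2 h3 hm c hc hg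
  obtain ⟨a1, a2, a3⟩ := nat_conds hc hg
  have hSU := h1 (c : ℤ) a1 a2 a3
  obtain ⟨t, ht⟩ : ∃ t, t = qq Q / Real.log ((m : ℝ) / 2) := ⟨_, rfl⟩
  rw [← ht] at h2
  have hm0 : (0 : ℝ) < (m : ℝ) / 2 := by
    have : (0 : ℝ) < m := by exact_mod_cast hm
    positivity
  have ht0 : 0 ≤ t := by rw [ht]; positivity
  have ht2 : t ≤ 1 / 2 := h2.le.trans (min_le_left _ _)
  have ht3 : t ≤ δ / (8 * (u + δ + 1)) := h2.le.trans (min_le_right _ _)
  obtain ⟨S, hS⟩ : ∃ S, S = ∑ j ∈ Icc 1 (MM Q (c : ℤ) m u), level Q (el (c : ℤ) m j) := ⟨_, rfl⟩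
  rw [← hS] at hSU
  have hlev : ∀ j ∈ Icc 1 (MM Q (c : ℤ) m u), level Q (el (c : ℤ) m j) ≤ t := by
    intro j hj
    rw [mem_Icc] at hj
    rw [ht]
    exact level_le h3 hm0 (a2 j hj.1)
  obtain ⟨P, hP⟩ : ∃ P, P = ∏ j ∈ Icc 1 (MM Q (c : ℤ) m u), (1 - level Q (el (c : ℤ) m j)) := ⟨_, rfl⟩
  have b1 : Real.exp (-((1 + 2 * t) * S)) ≤ P := by
    rw [hP, hS, mul_sum, ← sum_neg_distrib, Real.exp_sum]
    refine Finset.prod_le_prod (fun n _ => (Real.exp_pos _).le) (fun j hj => ?_)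
    have h6 := level_nonneg Q (el (c : ℤ) m j)
    have h7 := hlev j hj
    refine le_trans ?_ (Pool.Agent.Q120.TD.one_sub_ge h6 (h7.trans ht2))
    rw [Real.exp_le_exp]
    nlinarith
  have b2 : P ≤ Real.exp (-S) := by
    rw [hP, hS, ← sum_neg_distrib, Real.exp_sum]
    refine Finset.prod_le_prod (fun n _ => by linarith [level_le_one Q (el (c : ℤ) m n)]) (fun n _ => ?_)
    have := Real.add_one_le_exp (-level Q (el (c : ℤ) m n))
    linarith
  have hab := abs_le.1 hSU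
  have e1 := hδe S (by
    refine lt_of_le_of_lt hSU ?_
    linarith)
  have e2 := hδe ((1 + 2 * t) * S) (by
    have h5 : |2 * t * S| ≤ δ / 4 := by
      rw [abs_mul, abs_of_nonneg (by linarith : 0 ≤ 2 * t)]
      have h6 : |S| ≤ u + δ + 1 := by
        rw [abs_le]
        constructor <;> linarith
      have h7 : 2 * t * |S| ≤ 2 * (δ / (8 * (u + δ + 1))) * (u + δ + 1) := by gcongr
      refine h7.trans (le_of_eq ?_)
      field_simp
      ring
    have h8 : (1 + 2 * t) * S - u = (S - u) + 2 * t * S := by ring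
    rw [h8]
    refine (abs_add_le _ _).trans_lt ?_
    linarith)
  rw [abs_lt] at e1 e2
  have hP0 : 0 ≤ P := le_trans (Real.exp_pos _).le b1
  have hP1 : P ≤ 1 := b2.trans (by
    rw [Real.exp_le_one_iff]
    have : 0 ≤ S := by rw [hS]; exact sum_nonneg (fun _ _ => level_nonneg _ _)
    linarith)
  unfold ev
  rw [real_cls hA hm, ← hP]
  have hl0 := level_nonneg Q c
  constructor
  · nlinarith
  · intro hcc
    have hl1 := hc₀ c hcc
    nlinarith

/-- The event that a class is late, thresholds `u φ_Q(m) log m`, uniformly for `u ≥ u₀`. -/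
theorem late_iff_ev' (hQ : 1 ≤ Q) {u₀ : ℝ} (hu₀ : 0 < u₀) : ∀ᶠ m : ℕ in atTop, ∀ u : ℝ, u₀ ≤ u → ∀ c, c < m →
    ∀ S : Set ℕ, (Late S c m (u * phiQ Q m * Real.log m) ↔ ∀ n ∈ cls c m (MM Q (c : ℤ) m u), n ∉ S) := by
  have hQ0 : (0 : ℝ) < Q := by exact_mod_cast hQ
  have h1 : Tendsto (fun m : ℕ => u₀ / Q * Real.log m) atTop atTop := hL1.const_mul_atTop (by positivity)
  filter_upwards [h1.eventually_ge_atTop 1, eventually_ge_atTop 1] with m h2 hm u hu c hc S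
  obtain ⟨y, hy⟩ : ∃ y, y = u * phiQ Q m * Real.log m := ⟨_, rfl⟩
  have hm0 : (0 : ℝ) < m := by exact_mod_cast hm
  have hcm : (c : ℝ) ≤ m := by exact_mod_cast hc.le
  have hk := kap_pos hQ m
  have hmy : (m : ℝ) ≤ y := by
    have e1 : (m : ℝ) / Q ≤ phiQ Q m := by
      rw [phiQ_eq hQ]
      exact div_le_div_of_nonneg_left hm0.le hk (kap_le hQ m)
    have e0 : 0 ≤ Real.log (m : ℝ) := Real.log_natCast_nonneg m
    have e0' : 0 ≤ u := hu₀.le.trans hu
    have e2 : u₀ * (m / Q) * Real.log m ≤ y := by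
      rw [hy]
      gcongr
    have e3 : u₀ * (m / Q) * Real.log m = m * (u₀ / Q * Real.log m) := by ring
    nlinarith
  have hM : MM Q (c : ℤ) m u = ⌊(y - c) / m⌋₊ := by
    unfold MM
    rw [hy]
    congr 2
  rw [← hy, hM]
  constructor
  · intro h n hn hS
    rw [mem_cls] at hn
    obtain ⟨j, hj, rfl⟩ := hn
    have h3 := h _ hS (by rw [Nat.add_mul_mod_self_left])
    have h4 : (j : ℝ) ≤ (y - c) / m := by
      refine le_trans ?_ (Nat.floor_le (div_nonneg (by linarith) hm0.le))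
      exact_mod_cast hj
    rw [le_div_iff₀ hm0] at h4
    push_cast at h3
    linarith
  · intro h n hn hmod
    by_contra hcon
    push Not at hcon
    rw [Nat.mod_eq_of_lt hc] at hmod
    have h4 : c + m * (n / m) = n := by
      have h5 := Nat.mod_add_div n m
      omega
    refine h n (mem_cls.2 ⟨n / m, ?_, h4.symm⟩) hn
    apply Nat.le_floor
    rw [le_div_iff₀ hm0]
    have h5 : (c : ℝ) + m * ((n / m : ℕ) : ℝ) = n := by exact_mod_cast h4
    linarith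

theorem late_iff_ev (hQ : 1 ≤ Q) {u : ℝ} (hu : 0 < u) : ∀ᶠ m : ℕ in atTop, ∀ c, c < m → ∀ S : Set ℕ,
    (Late S c m (u * phiQ Q m * Real.log m) ↔ ∀ n ∈ cls c m (MM Q (c : ℤ) m u), n ∉ S) := by
  filter_upwards [late_iff_ev' hQ hu] with m hm
  exact hm u le_rfl

/-- For every modulus a finite collection of large sets of classes of positive density. -/
structure Coll (Q : ℕ) (𝒮 : ℕ → Finset (Finset ℕ)) : Prop where
  ok : ∀ d, ∀ S ∈ 𝒮 d, ∀ a ∈ S, a < d ∧ Nat.gcd a (Nat.gcd d Q) = 1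
  large : ∀ K : ℝ, ∀ᶠ d : ℕ in atTop, ∀ S ∈ 𝒮 d, K * (Real.log d + Real.log (𝒮 d).card) ≤ S.card

theorem meas_ev (hA : IsModel μ (level Q) A) (u : ℝ) (c m : ℕ) : MeasurableSet (ev A Q u c m) := meas_free hA _

theorem mutual_ev (hA : IsModel μ (level Q) A) {d : ℕ} {U : Finset ℕ} (hU : ∀ a ∈ U, a < d) (u : ℝ) :
    Mutual μ U (fun a => ev A Q u a d) := mutual_cls hA hU (fun a => MM Q (a : ℤ) d u)

/-- **The bulk law for one threshold.** -/
theorem bulk_eps (hA : IsModel μ (level Q) A) (hQ : 1 ≤ Q) {𝒮 : ℕ → Finset (Finset ℕ)} (h𝒮 : Coll Q 𝒮)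
    {u : ℝ} (hu : 0 ≤ u) {ε : ℝ} (hε : 0 < ε) (hε1 : ε ≤ 1) :
    ∀ᵐ ω ∂μ, ∀ᶠ d : ℕ in atTop, ∀ S ∈ 𝒮 d,
      |num S (fun a => ev A Q u a d) ω - Real.exp (-u) * S.card| ≤ 3 * ε * S.card := by
  classical
  obtain ⟨c₀, hc₀⟩ := prob_fixed (μ := μ) hA hQ hu hε
  obtain ⟨E, hE⟩ : ∃ E : ℕ → Set Ω, E = fun d => ⋃ S ∈ 𝒮 d,
    {ω | ε * S.card ≤ |num S (fun a => ev A Q u a d) ω - ∑ a ∈ S, μ.real (ev A Q u a d)|} := ⟨_, rfl⟩
  have hEb : ∀ᶠ d : ℕ in atTop, μ.real (E d) ≤ 2 * (d : ℝ) ^ (-(2 : ℝ)) := by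
    filter_upwards [h𝒮.large (8 / ε ^ 2), eventually_ge_atTop 1] with d h1 hd
    have hd0 : (0 : ℝ) < d := by exact_mod_cast hd
    rw [hE]
    refine (measureReal_biUnion_finset_le _ _).trans ?_
    have h2 : ∀ S ∈ 𝒮 d, μ.real {ω | ε * S.card ≤ |num S (fun a => ev A Q u a d) ω - ∑ a ∈ S, μ.real (ev A Q u a d)|} ≤
        2 * ((d : ℝ) ^ (-(2 : ℝ)) / (𝒮 d).card) := by
      intro S hS
      have h3 := dev_two (μ := μ) (J := S) (G := fun a => ev A Q u a d) (fun a _ => meas_ev hA u a d)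
        (mutual_ev hA (fun a ha => (h𝒮.ok d S hS a ha).1) u) hε.le hε1
      refine h3.trans ?_
      have h4 : (0 : ℝ) < (𝒮 d).card := by exact_mod_cast card_pos.2 ⟨S, hS⟩
      have h5 := h1 S hS
      have h6 : 2 * Real.log d + Real.log (𝒮 d).card ≤ ε ^ 2 / 4 * S.card := by
        have h7 : ε ^ 2 / 4 * (8 / ε ^ 2 * (Real.log d + Real.log (𝒮 d).card)) =
            2 * (Real.log d + Real.log (𝒮 d).card) := by
          field_simp
          ring
        have h8 : ε ^ 2 / 4 * (8 / ε ^ 2 * (Real.log d + Real.log (𝒮 d).card)) ≤ ε ^ 2 / 4 * S.card :=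
          mul_le_mul_of_nonneg_left h5 (by positivity)
        have h9 : 0 ≤ Real.log ((𝒮 d).card : ℝ) := Real.log_natCast_nonneg _
        linarith
      refine mul_le_mul_of_nonneg_left ?_ (by norm_num)
      have h7 : (d : ℝ) ^ (-(2 : ℝ)) / (𝒮 d).card = Real.exp (-(2 * Real.log d + Real.log (𝒮 d).card)) := by
        rw [Real.rpow_def_of_pos hd0, neg_add, Real.exp_add, Real.exp_neg (Real.log ((𝒮 d).card : ℝ)), Real.exp_log h4]
        rw [div_eq_mul_inv]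
        congr 2
        ring
      rw [h7, Real.exp_le_exp]
      linarith
    refine (sum_le_sum h2).trans ?_
    rw [sum_const, nsmul_eq_mul]
    rcases Nat.eq_zero_or_pos (𝒮 d).card with h4 | h4
    · rw [h4]
      simp
    · have h5 : (0 : ℝ) < (𝒮 d).card := by exact_mod_cast h4
      refine le_of_eq ?_
      field_simp
  have hsm : Summable (fun d : ℕ => 2 * (d : ℝ) ^ (-(2 : ℝ))) := (Real.summable_nat_rpow.2 (by norm_num)).mul_left 2
  filter_upwards [bc hsm hEb] with ω hω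
  filter_upwards [hω, hc₀, h𝒮.large ((c₀ : ℝ) / ε + 1), hL1.eventually_ge_atTop 1] with d h1 h2 h3 h4 S hS
  have h5 : |num S (fun a => ev A Q u a d) ω - ∑ a ∈ S, μ.real (ev A Q u a d)| < ε * S.card := by
    by_contra hcon
    push Not at hcon
    apply h1
    rw [hE]
    exact Set.mem_biUnion hS hcon
  have hcard : (c₀ : ℝ) ≤ ε * S.card := by
    have h6 := h3 S hS
    have h7 : 0 ≤ Real.log ((𝒮 d).card : ℝ) := Real.log_natCast_nonneg _
    have h8 : (c₀ : ℝ) / ε ≤ S.card := by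
      have h9 : 0 ≤ (c₀ : ℝ) / ε := by positivity
      nlinarith
    rw [div_le_iff₀ hε] at h8
    linarith
  have hsum : |∑ a ∈ S, μ.real (ev A Q u a d) - Real.exp (-u) * S.card| ≤ 2 * ε * S.card := by
    have h6 : Real.exp (-u) * S.card = ∑ a ∈ S, Real.exp (-u) := by
      rw [sum_const, nsmul_eq_mul, mul_comm]
    rw [h6, ← sum_sub_distrib]
    refine (Finset.abs_sum_le_sum_abs _ _).trans ?_
    have h7 : ∀ a ∈ S, |μ.real (ev A Q u a d) - Real.exp (-u)| ≤ ε + if a < c₀ then 1 else 0 := by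
      intro a ha
      obtain ⟨h8, h9⟩ := h𝒮.ok d S hS a ha
      obtain ⟨h10, h11⟩ := h2 a h8 h9
      by_cases hac : a < c₀
      · rw [if_pos hac, abs_le]
        have e1 : 0 ≤ μ.real (ev A Q u a d) := measureReal_nonneg
        have e2 : Real.exp (-u) ≤ 1 := by rw [Real.exp_le_one_iff]; linarith
        constructor <;> linarith
      · rw [if_neg hac, add_zero, abs_le]
        have := h11 (by omega)
        constructor <;> linarith
    refine (sum_le_sum h7).trans ?_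
    rw [sum_add_distrib, sum_const, nsmul_eq_mul, ← sum_filter, sum_const, nsmul_eq_mul, mul_one]
    have h8 : ((S.filter (fun a => a < c₀)).card : ℝ) ≤ c₀ := by
      have h9 : S.filter (fun a => a < c₀) ⊆ range c₀ := by
        intro a ha
        rw [mem_filter] at ha
        exact mem_range.2 ha.2
      have h10 := card_le_card h9
      rw [card_range] at h10
      exact_mod_cast h10
    linarith
  rw [abs_lt] at h5
  rw [abs_le] at hsum ⊢
  constructor <;> linarith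

/-- **The bulk law.** -/
theorem bulk (hA : IsModel μ (level Q) A) (hQ : 1 ≤ Q) {𝒮 : ℕ → Finset (Finset ℕ)} (h𝒮 : Coll Q 𝒮) :
    ∀ᵐ ω ∂μ, ∀ u : ℝ, 0 < u → ∀ ε : ℝ, 0 < ε → ∀ᶠ d : ℕ in atTop, ∀ S ∈ 𝒮 d,
      |(Set.ncard {a : ℕ | a ∈ S ∧ Late (A ω) a d (u * phiQ Q d * Real.log d)} : ℝ) - Real.exp (-u) * S.card| ≤
        ε * S.card := by
  classical
  have h1 : ∀ᵐ ω ∂μ, ∀ q : ℚ, 0 < (q : ℝ) → ∀ j : ℕ, ∀ᶠ d : ℕ in atTop, ∀ S ∈ 𝒮 d,
      |num S (fun a => ev A Q q a d) ω - Real.exp (-(q : ℝ)) * S.card| ≤ 3 * (1 / ((j : ℝ) + 1)) * S.card := by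
    rw [ae_all_iff]
    intro q
    by_cases hq : 0 < (q : ℝ)
    · have h2 : ∀ᵐ ω ∂μ, ∀ j : ℕ, ∀ᶠ d : ℕ in atTop, ∀ S ∈ 𝒮 d,
          |num S (fun a => ev A Q q a d) ω - Real.exp (-(q : ℝ)) * S.card| ≤ 3 * (1 / ((j : ℝ) + 1)) * S.card := by
        rw [ae_all_iff]
        intro j
        exact bulk_eps hA hQ h𝒮 hq.le (by positivity) (by
          rw [div_le_one (by positivity)]
          have : (0 : ℝ) ≤ j := Nat.cast_nonneg j
          linarith)
      filter_upwards [h2] with ω hω _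
      exact hω
    · filter_upwards with ω h
      exact absurd h hq
  filter_upwards [h1] with ω hω u hu ε hε
  obtain ⟨δ, hδ, hδe⟩ : ∃ δ : ℝ, 0 < δ ∧ ∀ s : ℝ, |s - u| < δ → |Real.exp (-s) - Real.exp (-u)| < ε / 2 := by
    have h1 : Continuous (fun s : ℝ => Real.exp (-s)) := by fun_prop
    have h2 := Metric.continuous_iff.1 h1 u (ε / 2) (by linarith)
    obtain ⟨δ, h3, h4⟩ := h2
    refine ⟨δ, h3, fun s hs => ?_⟩
    have := h4 s (by rwa [Real.dist_eq])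
    rwa [Real.dist_eq] at this
  obtain ⟨q₁, hq1, hq1'⟩ := exists_rat_btwn (show max 0 (u - δ) < u from max_lt hu (by linarith))
  have hq10 : 0 < (q₁ : ℝ) := lt_of_le_of_lt (le_max_left _ _) hq1
  have hq1δ : u - δ < q₁ := lt_of_le_of_lt (le_max_right _ _) hq1
  obtain ⟨q₂, hq2, hq2'⟩ := exists_rat_btwn (show u < u + δ by linarith)
  have e1 := hδe q₁ (by rw [abs_lt]; constructor <;> linarith)
  have e2 := hδe q₂ (by rw [abs_lt]; constructor <;> linarith)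
  obtain ⟨j, hj⟩ := exists_nat_one_div_lt (show 0 < ε / 6 by linarith)
  filter_upwards [hω q₁ hq10 j, hω q₂ (by linarith) j, late_iff_ev hQ hq10, late_iff_ev hQ (show 0 < (q₂ : ℝ) by linarith)]
    with d h2 h3 h4 h5 S hS
  have hnum : ∀ q : ℝ, (∀ c, c < d → ∀ S : Set ℕ,
      (Late S c d (q * phiQ Q d * Real.log d) ↔ ∀ n ∈ cls c d (MM Q (c : ℤ) d q), n ∉ S)) →
      num S (fun a => ev A Q q a d) ω = Set.ncard {a : ℕ | a ∈ S ∧ Late (A ω) a d (q * phiQ Q d * Real.log d)} := by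
    intro q hq
    rw [num_card]
    have h6 : {a : ℕ | a ∈ S ∧ Late (A ω) a d (q * phiQ Q d * Real.log d)} =
        ((S.filter (fun a => ω ∈ ev A Q q a d) : Finset ℕ) : Set ℕ) := by
      ext a
      rw [mem_coe, mem_filter]
      constructor
      · rintro ⟨h7, h8⟩
        exact ⟨h7, (hq a (h𝒮.ok d S hS a h7).1 (A ω)).1 h8⟩
      · rintro ⟨h7, h8⟩
        exact ⟨h7, (hq a (h𝒮.ok d S hS a h7).1 (A ω)).2 h8⟩
    rw [h6, Set.ncard_coe_finset]
  have h6 := h2 S hS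
  have h7 := h3 S hS
  rw [hnum q₁ h4] at h6
  rw [hnum q₂ h5] at h7
  have hfin : ∀ y : ℝ, Set.Finite {a : ℕ | a ∈ S ∧ Late (A ω) a d y} := fun y =>
    (Finset.finite_toSet S).subset (fun a ha => ha.1)
  have hY : ∀ s t : ℝ, s ≤ t → s * phiQ Q d * Real.log d ≤ t * phiQ Q d * Real.log d := by
    intro s t hst
    have := phiQ_nonneg Q d
    have := Real.log_natCast_nonneg d
    gcongr
  have m1 : (Set.ncard {a : ℕ | a ∈ S ∧ Late (A ω) a d (u * phiQ Q d * Real.log d)} : ℝ) ≤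
      Set.ncard {a : ℕ | a ∈ S ∧ Late (A ω) a d (q₁ * phiQ Q d * Real.log d)} := by
    have := Set.ncard_le_ncard (s := {a : ℕ | a ∈ S ∧ Late (A ω) a d (u * phiQ Q d * Real.log d)})
      (t := {a : ℕ | a ∈ S ∧ Late (A ω) a d (q₁ * phiQ Q d * Real.log d)})
      (fun a ha => ⟨ha.1, late_mono (hY _ _ hq1'.le) ha.2⟩) (hfin _)
    exact_mod_cast this
  have m2 : (Set.ncard {a : ℕ | a ∈ S ∧ Late (A ω) a d (q₂ * phiQ Q d * Real.log d)} : ℝ) ≤
      Set.ncard {a : ℕ | a ∈ S ∧ Late (A ω) a d (u * phiQ Q d * Real.log d)} := by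
    have := Set.ncard_le_ncard (s := {a : ℕ | a ∈ S ∧ Late (A ω) a d (q₂ * phiQ Q d * Real.log d)})
      (t := {a : ℕ | a ∈ S ∧ Late (A ω) a d (u * phiQ Q d * Real.log d)})
      (fun a ha => ⟨ha.1, late_mono (hY _ _ hq2.le) ha.2⟩) (hfin _)
    exact_mod_cast this
  have hS0 : (0 : ℝ) ≤ S.card := Nat.cast_nonneg _
  have p0 : 3 * (1 / ((j : ℝ) + 1)) * S.card ≤ ε / 2 * S.card := mul_le_mul_of_nonneg_right (by linarith) hS0
  rw [abs_lt] at e1 e2
  rw [abs_le] at h6 h7 ⊢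
  have p1 : Real.exp (-(q₁ : ℝ)) * S.card ≤ (Real.exp (-u) + ε / 2) * S.card :=
    mul_le_mul_of_nonneg_right (by linarith) hS0
  have p2 : (Real.exp (-u) - ε / 2) * S.card ≤ Real.exp (-(q₂ : ℝ)) * S.card :=
    mul_le_mul_of_nonneg_right (by linarith) hS0
  constructor <;> nlinarith

end Pool.Agent.Q112.LE
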