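import Pool.Agent.Q112.LE.FamMain

/-!
# The classes of the integers `c ≤ m ^ θ` coprime to `m`
-/

set_option autoImplicit false

namespace Pool.Agent.Q112.LE

open Finset Filter MeasureTheory ProbabilityTheory Pool.Agent.Q120.GM Pool.Agent.Q120.AD
open scoped Topology

open Classical in
/-- The integers `1 ≤ c ≤ m ^ θ`, `c < m`, coprime to `m`. -/
noncomputable def res (θ : ℝ) (m : ℕ) : Finset ℕ :=
  (range m).filter (fun c => 1 ≤ c ∧ (c : ℝ) ≤ (m : ℝ) ^ θ ∧ c.Coprime m)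

theorem mem_res {θ : ℝ} {m c : ℕ} : c ∈ res θ m ↔ c < m ∧ 1 ≤ c ∧ (c : ℝ) ≤ (m : ℝ) ^ θ ∧ c.Coprime m := by
  unfold res
  rw [mem_filter, mem_range]

theorem res_mono {θ θ' : ℝ} (h : θ ≤ θ') {m : ℕ} (hm : 1 ≤ m) : res θ m ⊆ res θ' m := by
  intro c hc
  rw [mem_res] at hc ⊢
  have hm1 : (1 : ℝ) ≤ m := by exact_mod_cast hm
  exact ⟨hc.1, hc.2.1, hc.2.2.1.trans (Real.rpow_le_rpow_of_exponent_le hm1 h), hc.2.2.2⟩

theorem card_primeFactors_le {m : ℕ} (hm : 1 ≤ m) : (m.primeFactors.card : ℝ) ≤ 2 * Real.log m := by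
  have h1 : 2 ^ m.primeFactors.card ≤ m := by
    have h2 : ∏ p ∈ m.primeFactors, 2 ≤ ∏ p ∈ m.primeFactors, p :=
      Finset.prod_le_prod' (fun p hp => (Nat.prime_of_mem_primeFactors hp).two_le)
    rw [prod_const] at h2
    exact h2.trans (Nat.le_of_dvd hm (Nat.prod_primeFactors_dvd m))
  have h2 : (2 : ℝ) ^ m.primeFactors.card ≤ m := by exact_mod_cast h1
  have h3 : Real.log ((2 : ℝ) ^ m.primeFactors.card) ≤ Real.log m := Real.log_le_log (by positivity) h2
  rw [Real.log_pow] at h3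
  have h4 := Real.log_two_gt_d9
  have h5 : (0 : ℝ) ≤ m.primeFactors.card := Nat.cast_nonneg _
  nlinarith

theorem fam_res (Q : ℕ) {θ : ℝ} (hθ : 0 < θ) (hθ1 : θ ≤ 1) : Fam Q θ (res θ) := by
  refine ⟨fun m c hc => (mem_res.1 hc).1, fun m c hc => ?_, fun δ hδ => ?_, fun δ hδ => ?_⟩
  · exact Nat.Coprime.coprime_dvd_right (Nat.gcd_dvd_left m Q) (mem_res.1 hc).2.2.2
  · -- lower bound
    have hk : Tendsto (fun m : ℕ => Nat.log 2 ⌊(m : ℝ) ^ θ⌋₊) atTop atTop := by
      have h1 : Tendsto (fun m : ℕ => ⌊(m : ℝ) ^ θ⌋₊) atTop atTop :=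
        tendsto_nat_floor_atTop.comp ((tendsto_rpow_atTop hθ).comp tendsto_natCast_atTop_atTop)
      have h2 : Tendsto (Nat.log 2) atTop atTop := by
        rw [tendsto_atTop]
        intro b
        filter_upwards [eventually_ge_atTop (2 ^ b)] with n hn
        exact (Nat.le_log_iff_pow_le (by norm_num) (by
          have : 0 < 2 ^ b := by positivity
          omega)).2 hn
      exact h2.comp h1
    obtain ⟨δ', hδ'⟩ : ∃ δ', δ' = min δ θ / 4 := ⟨_, rfl⟩
    have hmin : 0 < min δ θ := lt_min hδ hθ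
    have hm1 : min δ θ ≤ δ := min_le_left _ _
    have hm2 : min δ θ ≤ θ := min_le_right _ _
    have h0 : 0 < δ' := by rw [hδ']; linarith
    have h41 : 4 * δ' ≤ δ := by rw [hδ']; linarith
    have h42 : 4 * δ' ≤ θ := by rw [hδ']; linarith
    filter_upwards [hk.eventually card_pk, ev_power 8 1 h0, ev_power 2 1 h0, ev_rpow (2 : ℝ) h0, ev_rpow (1 : ℝ) hθ,
      hL1.eventually_ge_atTop 1, eventually_ge_atTop 2] with m h1 h2 h3 h4 h5 h6 hm
    have hmone : (1 : ℝ) ≤ m := by exact_mod_cast (by omega : 1 ≤ m)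
    have hm0 : (0 : ℝ) < m := by linarith
    obtain ⟨y, hy⟩ : ∃ y : ℝ, y = (m : ℝ) ^ θ := ⟨_, rfl⟩
    rw [← hy] at h1 h5
    obtain ⟨k, hkd⟩ : ∃ k, k = Nat.log 2 ⌊y⌋₊ := ⟨_, rfl⟩
    rw [← hkd] at h1
    have hfl : 1 ≤ ⌊y⌋₊ := Nat.le_floor (by exact_mod_cast h5)
    have hk1 : 2 ^ k ≤ ⌊y⌋₊ := by rw [hkd]; exact Nat.pow_log_le_self 2 (by omega)
    have hk2 : ⌊y⌋₊ < 2 ^ (k + 1) := by rw [hkd]; exact Nat.lt_pow_succ_log_self (by norm_num) _
    have hk3 : (2 : ℝ) ^ k ≤ y := by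
      have e1 : (((2 ^ k : ℕ)) : ℝ) ≤ ⌊y⌋₊ := by exact_mod_cast hk1
      push_cast at e1
      exact e1.trans (Nat.floor_le (by linarith))
    have hk4 : y < 2 * (2 : ℝ) ^ k := by
      have e1 := Nat.lt_floor_add_one y
      have e2 : ((⌊y⌋₊ : ℕ) : ℝ) + 1 ≤ (((2 ^ (k + 1) : ℕ)) : ℝ) := by exact_mod_cast hk2
      push_cast at e2
      rw [pow_succ] at e2
      linarith
    have hym : y ≤ m := by
      rw [hy]
      nth_rewrite 2 [← Real.rpow_one (m : ℝ)]
      exact Real.rpow_le_rpow_of_exponent_le hmone hθ1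
    -- the primes not dividing `m`
    have hsub : pk k ⊆ res θ m ∪ m.primeFactors := by
      intro p hp
      rw [mem_pk] at hp
      rw [mem_union, mem_res, Nat.mem_primeFactors]
      have e1 : (p : ℝ) ≤ y := by
        have : (p : ℝ) ≤ (((2 ^ k : ℕ)) : ℝ) := by exact_mod_cast hp.1
        push_cast at this
        linarith
      by_cases hd : p ∣ m
      · exact Or.inr ⟨hp.2.1, hd, by omega⟩
      · left
        have e2 : p ≤ m := by
          have : (p : ℝ) ≤ m := e1.trans hym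
          exact_mod_cast this
        have e3 : p ≠ m := by
          rintro rfl
          exact hd dvd_rfl
        refine ⟨by omega, hp.2.1.one_lt.le, by rw [← hy]; exact e1, ?_⟩
        exact (Nat.Prime.coprime_iff_not_dvd hp.2.1).2 hd
    have hcard : ((pk k).card : ℝ) ≤ (res θ m).card + 2 * Real.log m := by
      have e1 := (card_le_card hsub).trans (card_union_le _ _)
      have e2 : ((pk k).card : ℝ) ≤ (res θ m).card + m.primeFactors.card := by exact_mod_cast e1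
      have e3 := card_primeFactors_le (show 1 ≤ m by omega)
      linarith
    have hlog : Real.log ((2 : ℝ) ^ k) ≤ Real.log m := Real.log_le_log (by positivity) (hk3.trans hym)
    have hpk : y / 4 ≤ (pk k).card * Real.log m := by
      have e1 : ((pk k).card : ℝ) * Real.log ((2 : ℝ) ^ k) ≤ (pk k).card * Real.log m :=
        mul_le_mul_of_nonneg_left hlog (Nat.cast_nonneg _)
      linarith
    rw [pow_one] at h2 h3
    have e1 : 2 * (m : ℝ) ^ (θ - δ') ≤ (pk k).card := by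
      have e2 : y = (m : ℝ) ^ (θ - δ') * (m : ℝ) ^ δ' := by
        rw [hy, ← Real.rpow_add hm0]
        congr 1
        ring
      have e3 : 0 < (m : ℝ) ^ (θ - δ') := by positivity
      have e4 : (m : ℝ) ^ (θ - δ') * (8 * Real.log m) ≤ y := by
        rw [e2]
        exact mul_le_mul_of_nonneg_left h2 e3.le
      have e5 : (2 * (m : ℝ) ^ (θ - δ')) * Real.log m ≤ (pk k).card * Real.log m := by linarith
      exact le_of_mul_le_mul_right e5 (by linarith)
    have e2 : 2 * Real.log m ≤ (m : ℝ) ^ (θ - δ') :=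
      h3.trans (Real.rpow_le_rpow_of_exponent_le hmone (by linarith))
    have e3 : (m : ℝ) ^ (θ - δ) ≤ (m : ℝ) ^ (θ - δ') := Real.rpow_le_rpow_of_exponent_le hmone (by linarith)
    linarith
  · -- upper bound
    filter_upwards [eventually_ge_atTop 1] with m hm
    have hm1 : (1 : ℝ) ≤ m := by exact_mod_cast hm
    have h1 : res θ m ⊆ Icc 1 ⌊(m : ℝ) ^ θ⌋₊ := by
      intro c hc
      rw [mem_res] at hc
      rw [mem_Icc]
      exact ⟨hc.2.1, Nat.le_floor hc.2.2.1⟩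
    have h2 := card_le_card h1
    rw [Nat.card_Icc, Nat.add_sub_cancel] at h2
    have h3 : ((res θ m).card : ℝ) ≤ ⌊(m : ℝ) ^ θ⌋₊ := by exact_mod_cast h2
    refine h3.trans ((Nat.floor_le (by positivity)).trans ?_)
    exact Real.rpow_le_rpow_of_exponent_le hm1 (by linarith)

/-- Transfer between exponents. -/
theorem ext_of_rat {S : Set ℕ} {Q : ℕ}
    (h : ∀ q : ℚ, 0 < (q : ℝ) → (q : ℝ) ≤ 1 → ExtLaw S Q (res q) q) {θ : ℝ} (hθ : 0 < θ) (hθ1 : θ ≤ 1) :
    ExtLaw S Q (res θ) θ := by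
  -- rational exponents above and below
  have hup : ∀ b : ℝ, θ < b → ∃ q : ℚ, θ ≤ (q : ℝ) ∧ (q : ℝ) ≤ 1 ∧ (q : ℝ) < b := by
    intro b hb
    rcases eq_or_lt_of_le hθ1 with h1 | h1
    · exact ⟨1, by push_cast; linarith, by push_cast; linarith, by push_cast; linarith⟩
    · obtain ⟨q, h2, h3⟩ := exists_rat_btwn (show θ < min b 1 from lt_min hb h1)
      exact ⟨q, h2.le, (h3.le.trans (min_le_right _ _)), lt_of_lt_of_le h3 (min_le_left _ _)⟩
  have hlow : ∀ b : ℝ, b < θ → ∃ q : ℚ, 0 < (q : ℝ) ∧ b < q ∧ (q : ℝ) ≤ θ := by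
    intro b hb
    obtain ⟨q, h2, h3⟩ := exists_rat_btwn (show max 0 b < θ from max_lt hθ hb)
    exact ⟨q, lt_of_le_of_lt (le_max_left _ _) h2, lt_of_le_of_lt (le_max_right _ _) h2, h3.le⟩
  refine ⟨?_, ?_, ?_, ?_⟩
  · intro t ht
    obtain ⟨q, h1, h2, h3⟩ := hup (t - 1) (by linarith)
    filter_upwards [(h q (by linarith) h2).upper t (by linarith), eventually_ge_atTop 1] with m h4 hm h5
    exact h4 (exceeds_mono (res_mono h1 hm) le_rfl h5)
  · intro t ht
    obtain ⟨q, h1, h2, h3⟩ := hlow t ht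
    filter_upwards [(h q h1 (h3.trans hθ1)).lower t h2, eventually_ge_atTop 1] with m h4 hm
    exact exceeds_mono (res_mono h3 hm) le_rfl h4
  · intro t ht1 ht2 δ hδ
    obtain ⟨q, h1, h2, h3⟩ := hup (min t (θ + δ / 2)) (lt_min ht1 (by linarith))
    have h4 : (q : ℝ) < t := lt_of_lt_of_le h3 (min_le_left _ _)
    have h5 : (q : ℝ) < θ + δ / 2 := lt_of_lt_of_le h3 (min_le_right _ _)
    filter_upwards [(h q (by linarith) h2).few t h4 (by linarith) (δ / 2) (by linarith), eventually_ge_atTop 1]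
      with x h6 hx
    have hx1 : (1 : ℝ) ≤ x := by exact_mod_cast hx
    have h7 : (Set.ncard {m : ℕ | m ≤ x ∧ Exceeds S Q (res θ) t m} : ℝ) ≤
        Set.ncard {m : ℕ | m ≤ x ∧ Exceeds S Q (res q) t m} := by
      have := Set.ncard_le_ncard (s := {m : ℕ | m ≤ x ∧ Exceeds S Q (res θ) t m})
        (t := {m : ℕ | m ≤ x ∧ Exceeds S Q (res q) t m}) (fun m hm => ⟨hm.1, ?_⟩) (fin_le _ x)
      · exact_mod_cast this
      · rcases Nat.eq_zero_or_pos m with h8 | h8
        · obtain ⟨c, hc, _⟩ := hm.2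
          rw [mem_res] at hc
          omega
        · exact exceeds_mono (res_mono h1 h8) le_rfl hm.2
    refine h7.trans (h6.trans (Real.rpow_le_rpow_of_exponent_le hx1 (by linarith)))
  · intro t ht1 ht2 δ hδ
    obtain ⟨q, h1, h2, h3⟩ := hlow (max (t - 1) (θ - δ / 2)) (max_lt (by linarith) (by linarith))
    have h4 : t - 1 < q := lt_of_le_of_lt (le_max_left _ _) h2
    have h5 : θ - δ / 2 < q := lt_of_le_of_lt (le_max_right _ _) h2
    filter_upwards [(h q h1 (h3.trans hθ1)).many t (by linarith) (by linarith) (δ / 2) (by linarith),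
      eventually_ge_atTop 1] with x h6 hx
    have hx1 : (1 : ℝ) ≤ x := by exact_mod_cast hx
    have h7 : (Set.ncard {m : ℕ | m ≤ x ∧ m.Prime ∧ Exceeds S Q (res q) t m} : ℝ) ≤
        Set.ncard {m : ℕ | m ≤ x ∧ m.Prime ∧ Exceeds S Q (res θ) t m} := by
      have := Set.ncard_le_ncard (s := {m : ℕ | m ≤ x ∧ m.Prime ∧ Exceeds S Q (res q) t m})
        (t := {m : ℕ | m ≤ x ∧ m.Prime ∧ Exceeds S Q (res θ) t m})
        (fun m hm => ⟨hm.1, hm.2.1, exceeds_mono (res_mono h3 hm.2.1.one_lt.le) le_rfl hm.2.2⟩) (fin_le _ x)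
      exact_mod_cast this
    refine le_trans ?_ (h6.trans h7)
    exact Real.rpow_le_rpow_of_exponent_le hx1 (by linarith)

variable {Ω : Type*} [MeasurableSpace Ω] {μ : Measure Ω} [IsProbabilityMeasure μ] {A : Ω → Set ℕ} {Q : ℕ}

/-- **The residues `c ≤ m ^ θ`, all `θ`.** -/
theorem res_law (hA : IsModel μ (level Q) A) (hQ : 1 ≤ Q) :
    ∀ᵐ ω ∂μ, ∀ θ : ℝ, 0 < θ → θ ≤ 1 → ExtLaw (A ω) Q (res θ) θ := by
  have h1 : ∀ᵐ ω ∂μ, ∀ q : ℚ, 0 < (q : ℝ) → (q : ℝ) ≤ 1 → ExtLaw (A ω) Q (res q) q := by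
    rw [ae_all_iff]
    intro q
    by_cases hq : 0 < (q : ℝ) ∧ (q : ℝ) ≤ 1
    · filter_upwards [ext_law hA hQ (fam_res Q hq.1 hq.2) hq.1] with ω hω _ _
      exact hω
    · filter_upwards with ω h h'
      exact absurd ⟨h, h'⟩ hq
  filter_upwards [h1] with ω hω θ hθ hθ1
  exact ext_of_rat hω hθ hθ1

end Pool.Agent.Q112.LE
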