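import Pool.Agent.Q112.LE.Law

/-!
# The law of the least elements along an arbitrary sequence of moduli: almost sure convergence
-/

set_option autoImplicit false

namespace Pool.Agent.Q112.LE

open Finset Filter MeasureTheory ProbabilityTheory Pool.Agent.Q120.GM
open scoped Topology

variable {Ω : Type*} [MeasurableSpace Ω] {μ : Measure Ω} [IsProbabilityMeasure μ] {A : Ω → Set ℕ} {Q : ℕ}

theorem exists_bound (C : Finset ℤ) : ∃ B : ℕ, ∀ c ∈ C, |c| ≤ (B : ℤ) := by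
  refine ⟨∑ c ∈ C, c.natAbs, fun c hc => ?_⟩
  rw [Int.abs_eq_natAbs]
  exact_mod_cast single_le_sum (f := fun c : ℤ => c.natAbs) (fun _ _ => Nat.zero_le _) hc

theorem card_small {d : ℕ → ℕ} (hd : Function.Injective d) (m₀ n : ℕ) :
    ((range n).filter (fun i => d i < m₀)).card ≤ m₀ := by
  refine (card_le_card_of_injOn (t := range m₀) d ?_ hd.injOn).trans (card_range m₀).le
  intro i hi
  rw [mem_coe, mem_filter] at hi
  rw [mem_coe, mem_range]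
  exact hi.2

/-- The elementary comparison of the sums. -/
theorem compare {f : ℕ → ℝ} (f0 : ∀ i, 0 ≤ f i) (f1 : ∀ i, f i ≤ 1) {d : ℕ → ℕ} (hd : Function.Injective d)
    {m₀ k4 N : ℕ} (hk : k4 ≤ N) {n S e ε : ℝ} (he0 : 0 ≤ e) (he1 : e ≤ 1)
    (hn : n = ∑ i ∈ (range k4).filter (fun i => m₀ ≤ d i), f i)
    (h1 : |n - S| ≤ ε * k4) (h2 : |S - e * ((range k4).filter (fun i => m₀ ≤ d i)).card| ≤ ε * k4) :
    |∑ i ∈ range N, f i - e * N| ≤ 2 * ε * k4 + (N - k4) + m₀ := by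
  obtain ⟨x, hx⟩ : ∃ x, x = ∑ i ∈ (range k4).filter (fun i => d i < m₀), f i := ⟨_, rfl⟩
  obtain ⟨y, hy⟩ : ∃ y, y = ∑ i ∈ Ico k4 N, f i := ⟨_, rfl⟩
  obtain ⟨J, hJ⟩ : ∃ J : ℝ, J = ((range k4).filter (fun i => m₀ ≤ d i)).card := ⟨_, rfl⟩
  obtain ⟨z, hz⟩ : ∃ z : ℝ, z = ((range k4).filter (fun i => d i < m₀)).card := ⟨_, rfl⟩
  rw [← hJ] at h2
  have hsum : ∑ i ∈ range N, f i = n + x + y := by
    rw [← sum_range_add_sum_Ico f hk, ← hy, ← sum_filter_add_sum_filter_not (range k4) (fun i => m₀ ≤ d i), ← hn, hx]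
    congr 3
    ext i
    rw [mem_filter, mem_filter, not_le]
  have hJz : J + z = k4 := by
    rw [hJ, hz]
    have h3 := card_filter_add_card_filter_not (s := range k4) (fun i => m₀ ≤ d i)
    rw [card_range] at h3
    have h4 : ((range k4).filter (fun i => ¬ m₀ ≤ d i)) = (range k4).filter (fun i => d i < m₀) := by
      ext i
      rw [mem_filter, mem_filter, not_le]
    rw [h4] at h3
    exact_mod_cast h3
  have hzm : z ≤ m₀ := by
    rw [hz]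
    exact_mod_cast card_small hd m₀ k4
  have hz0 : 0 ≤ z := by rw [hz]; positivity
  have hx0 : 0 ≤ x := by rw [hx]; exact sum_nonneg (fun i _ => f0 i)
  have hxz : x ≤ z := by
    rw [hx, hz]
    refine (sum_le_sum (g := fun _ => (1 : ℝ)) (fun i _ => f1 i)).trans ?_
    rw [sum_const, nsmul_eq_mul, mul_one]
  have hy0 : 0 ≤ y := by rw [hy]; exact sum_nonneg (fun i _ => f0 i)
  have hyz : y ≤ N - k4 := by
    rw [hy]
    refine (sum_le_sum (g := fun _ => (1 : ℝ)) (fun i _ => f1 i)).trans ?_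
    rw [sum_const, nsmul_eq_mul, mul_one, Nat.card_Ico, Nat.cast_sub hk]
  have hkN : (k4 : ℝ) ≤ N := by exact_mod_cast hk
  rw [hsum]
  rw [abs_le] at h1 h2 ⊢
  have h3 : e * N = e * J + e * (N - k4 + z) := by
    rw [← hJz]
    ring
  have h4 : 0 ≤ e * (N - k4 + z) := mul_nonneg he0 (by linarith)
  have h5 : e * (N - k4 + z) ≤ 1 * (N - k4 + z) := mul_le_mul_of_nonneg_right he1 (by linarith)
  constructor <;> linarith

/-- **The law along a sequence, one vector of thresholds.** -/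
theorem law_eps (hA : IsModel μ (level Q) A) (hQ : 1 ≤ Q) (C : Finset ℤ) {u : ℤ → ℝ} (hu : ∀ c ∈ C, 0 ≤ u c)
    {d : ℕ → ℕ} (hd : Function.Injective d) (hg : ∀ i, ∀ c ∈ C, Int.gcd c (Nat.gcd (d i) Q) = 1)
    {ε : ℝ} (hε : 0 < ε) :
    ∀ᵐ ω ∂μ, ∀ᶠ N : ℕ in atTop,
      |num (range N) (fun i => free A (WW Q C u (d i))) ω - Real.exp (-∑ c ∈ C, u c) * N| ≤ 4 * ε * N := by
  classical
  obtain ⟨B, hB⟩ := exists_bound C
  obtain ⟨e, he⟩ : ∃ e, e = Real.exp (-∑ c ∈ C, u c) := ⟨_, rfl⟩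
  have hU0 : 0 ≤ ∑ c ∈ C, u c := sum_nonneg hu
  have he0 : 0 ≤ e := by rw [he]; exact (Real.exp_pos _).le
  have he1 : e ≤ 1 := by rw [he, Real.exp_le_one_iff]; linarith
  obtain ⟨m₁, hm₁⟩ := eventually_atTop.1 (void_tendsto (μ := μ) hA hQ C hu hε)
  rw [← he] at hm₁ ⊢
  obtain ⟨m₀, hm₀⟩ : ∃ m₀, m₀ = m₁ + 2 * B + 4 := ⟨_, rfl⟩
  obtain ⟨G, hG⟩ : ∃ G : ℕ → Set Ω, G = fun m => free A (WW Q C u m) := ⟨_, rfl⟩
  have hGm : ∀ m, MeasurableSet (G m) := fun m => by rw [hG]; exact meas_free hA _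
  obtain ⟨I, hI⟩ : ∃ I : ℕ → Finset ℕ, I = fun k => (range (k ^ 4)).filter (fun i => m₀ ≤ d i) := ⟨_, rfl⟩
  obtain ⟨J, hJ⟩ : ∃ J : ℕ → Finset ℕ, J = fun k => (I k).image d := ⟨_, rfl⟩
  have hIc : ∀ k, (I k).card ≤ k ^ 4 := by
    intro k
    rw [hI]
    exact (card_filter_le _ _).trans (card_range _).le
  have hJc : ∀ k, (J k).card = (I k).card := by
    intro k
    rw [hJ]
    exact card_image_of_injective _ hd
  have hJm : ∀ k, ∀ m ∈ J k, ∃ i, m₀ ≤ d i ∧ d i = m := by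
    intro k m hm
    rw [hJ, mem_image] at hm
    obtain ⟨i, hi, rfl⟩ := hm
    rw [hI, mem_filter] at hi
    exact ⟨i, hi.2, rfl⟩
  obtain ⟨C₀, hC₀⟩ : ∃ C₀, C₀ = 1 + 12 * (C.card : ℝ) ^ 2 * ((∑ c ∈ C, u c) + 1) * qq Q := ⟨_, rfl⟩
  have hC₀0 : 0 ≤ C₀ := by
    have := (qq_pos hQ).le
    rw [hC₀]
    positivity
  obtain ⟨E, hE⟩ : ∃ E : ℕ → Set Ω, E = fun (k : ℕ) =>
    {ω | ε * (k : ℝ) ^ 4 ≤ |num (J k) G ω - ∑ m ∈ J k, μ.real (G m)|} := ⟨_, rfl⟩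
  have hEb : ∀ᶠ k : ℕ in atTop, μ.real (E k) ≤ C₀ / ε ^ 2 * (1 / (k : ℝ) ^ 2) := by
    filter_upwards [eventually_ge_atTop 1] with k hk
    have hk0 : (0 : ℝ) < k := by exact_mod_cast hk
    have h1 := var_le (μ := μ) hA hQ hu hB (J := J k) (K := k ^ 2) (fun m hm => by
      obtain ⟨i, h2, rfl⟩ := hJm k m hm
      exact ⟨by omega, by omega⟩) (Nat.one_le_pow _ _ hk) (by
        rw [hJc, ← pow_mul]
        exact hIc k)
    rw [← hC₀] at h1
    have h2 := cheb (μ := μ) (J k) G (fun m _ => hGm m) (V := C₀ * ((k ^ 2 : ℕ) : ℝ) ^ 3) (by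
      rw [hG]
      exact h1) (show 0 < ε * (k : ℝ) ^ 4 by positivity)
    rw [hE]
    refine h2.trans (le_of_eq ?_)
    push_cast
    field_simp
  have hsm : Summable (fun k : ℕ => C₀ / ε ^ 2 * (1 / (k : ℝ) ^ 2)) :=
    (Real.summable_one_div_nat_pow.2 (by norm_num)).mul_left _
  filter_upwards [bc hsm hEb] with ω hω
  obtain ⟨K₀, hK₀⟩ := eventually_atTop.1 hω
  obtain ⟨K₁, hK₁⟩ := exists_nat_ge (15 / ε)
  obtain ⟨N₁, hN₁⟩ := exists_nat_ge ((m₀ : ℝ) / ε)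
  filter_upwards [eventually_ge_atTop ((K₀ + K₁ + 1) ^ 4 + N₁)] with N hN
  obtain ⟨k, hk⟩ : ∃ k, k = Nat.sqrt (Nat.sqrt N) := ⟨_, rfl⟩
  have hk4 : k ^ 4 ≤ N := by
    have h1 : k ^ 2 ≤ Nat.sqrt N := by rw [hk]; exact Nat.sqrt_le' _
    have h2 : (Nat.sqrt N) ^ 2 ≤ N := Nat.sqrt_le' _
    calc k ^ 4 = (k ^ 2) ^ 2 := by ring
      _ ≤ (Nat.sqrt N) ^ 2 := Nat.pow_le_pow_left h1 2
      _ ≤ N := h2
  have hk5 : N < (k + 1) ^ 4 := by
    have h1 : Nat.sqrt N < (k + 1) ^ 2 := by rw [hk]; exact Nat.lt_succ_sqrt' _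
    have h2 : N < (Nat.sqrt N + 1) ^ 2 := Nat.lt_succ_sqrt' _
    calc N < (Nat.sqrt N + 1) ^ 2 := h2
      _ ≤ ((k + 1) ^ 2) ^ 2 := Nat.pow_le_pow_left (by omega) 2
      _ = (k + 1) ^ 4 := by ring
  have hkK : K₀ + K₁ + 1 ≤ k := by
    by_contra hcon
    push Not at hcon
    have h1 : (k + 1) ^ 4 ≤ (K₀ + K₁ + 1) ^ 4 := Nat.pow_le_pow_left (by omega) 4
    omega
  have hk1 : 1 ≤ k := by omega
  have hk0 : (1 : ℝ) ≤ k := by exact_mod_cast hk1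
  have hkN : (k : ℝ) ^ 4 ≤ N := by exact_mod_cast hk4
  -- the three errors
  have hn := hK₀ k (by omega)
  rw [hE] at hn
  have hn' : |num (J k) G ω - ∑ m ∈ J k, μ.real (G m)| < ε * (k : ℝ) ^ 4 := not_le.1 hn
  have hS : |∑ m ∈ J k, μ.real (G m) - e * (I k).card| ≤ ε * (k : ℝ) ^ 4 := by
    have h1 : e * ((I k).card : ℝ) = ∑ m ∈ J k, e := by
      rw [sum_const, nsmul_eq_mul, hJc, mul_comm]
    rw [h1, ← sum_sub_distrib]
    refine (Finset.abs_sum_le_sum_abs _ _).trans ?_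
    refine (sum_le_sum (g := fun _ => ε) (fun m hm => ?_)).trans ?_
    · obtain ⟨i, h2, rfl⟩ := hJm k m hm
      rw [hG]
      exact hm₁ (d i) (by omega) (hg i)
    · rw [sum_const, nsmul_eq_mul, mul_comm]
      apply mul_le_mul_of_nonneg_left _ hε.le
      have h2 := hIc k
      rw [← hJc] at h2
      exact_mod_cast h2
  have hnum : num (J k) G ω = ∑ i ∈ I k, (G (d i)).indicator (fun _ => (1 : ℝ)) ω := by
    unfold num
    rw [hJ]
    exact sum_image hd.injOn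
  have hcmp := compare (f := fun i => (G (d i)).indicator (fun _ => (1 : ℝ)) ω)
    (fun i => Set.indicator_nonneg (fun _ _ => zero_le_one) _)
    (fun i => Set.indicator_le_self' (fun _ _ => zero_le_one) _) hd (m₀ := m₀) (k4 := k ^ 4) (N := N) hk4
    (n := num (J k) G ω) (S := ∑ m ∈ J k, μ.real (G m)) (e := e) (ε := ε) he0 he1
    (by rw [hnum, hI]) (by push_cast; exact hn'.le) (by
      rw [hI] at hS
      push_cast
      exact hS)
  have hfin : num (range N) (fun i => free A (WW Q C u (d i))) ω =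
      ∑ i ∈ range N, (G (d i)).indicator (fun _ => (1 : ℝ)) ω := by
    unfold num
    rw [hG]
  rw [hfin]
  refine hcmp.trans ?_
  push_cast
  have h6 : (N : ℝ) - (k : ℝ) ^ 4 ≤ ε * k ^ 4 := by
    have h7 : (N : ℝ) ≤ (k + 1) ^ 4 := by exact_mod_cast hk5.le
    have h8 : ((k : ℝ) + 1) ^ 4 - k ^ 4 ≤ 15 * k ^ 3 := by
      have e1 : (k : ℝ) ^ 2 ≤ k ^ 3 := pow_le_pow_right₀ hk0 (by norm_num)
      have e2 : (k : ℝ) ≤ k ^ 3 := le_self_pow₀ hk0 (by norm_num)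
      have e3 : (1 : ℝ) ≤ k ^ 3 := one_le_pow₀ hk0
      nlinarith
    have h9 : (15 : ℝ) ≤ ε * k := by
      have e1 : (K₁ : ℝ) ≤ k := by exact_mod_cast (by omega : K₁ ≤ k)
      rw [div_le_iff₀ hε] at hK₁
      nlinarith
    have h10 : (15 : ℝ) * k ^ 3 ≤ (ε * k) * k ^ 3 := mul_le_mul_of_nonneg_right h9 (by positivity)
    have h11 : (ε * k) * (k : ℝ) ^ 3 = ε * k ^ 4 := by ring
    linarith
  have h7 : (m₀ : ℝ) ≤ ε * N := by
    have e1 : (N₁ : ℝ) ≤ N := by exact_mod_cast (by omega : N₁ ≤ N)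
    rw [div_le_iff₀ hε] at hN₁
    nlinarith
  nlinarith

end Pool.Agent.Q112.LE
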