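import Pool.Agent.Q112.LE.Dens
import Pool.Agent.Q120.GM.AP

/-!
# The expected number of elements of a sieved model in a class, up to `v φ_Q(m) log m`
-/

set_option autoImplicit false

namespace Pool.Agent.Q112.LE

open Finset Filter Pool.Agent.Q120.GM
open scoped Topology

/-- `φ_Q(m) = m ∏_{p ∣ (m, Q)} (1 - 1/p)`. -/
noncomputable def phiQ (Q m : ℕ) : ℝ := (m : ℝ) * ((Nat.totient (Nat.gcd m Q) : ℝ) / (Nat.gcd m Q : ℕ))

/-- The relative density `g / φ(g)` with `g = (m, Q)`. -/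
noncomputable def kap (Q m : ℕ) : ℝ := ((Nat.gcd m Q : ℕ) : ℝ) / Nat.totient (Nat.gcd m Q)

/-- The element `c + m j`. -/
def el (c : ℤ) (m j : ℕ) : ℕ := (c + m * j).toNat

/-- The elements `c + m j`, `1 ≤ j ≤ M`. -/
def cl (c : ℤ) (m M : ℕ) : Finset ℕ := (Icc 1 M).image (el c m)

theorem el_cast {c : ℤ} {m j : ℕ} (hc : |c| ≤ m) (hj : 1 ≤ j) : ((el c m j : ℕ) : ℤ) = c + m * j := by
  unfold el
  apply Int.toNat_of_nonneg
  have h1 := abs_le.1 hc
  have h2 : (m : ℤ) * 1 ≤ m * j := by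
    apply mul_le_mul_of_nonneg_left _ (by positivity)
    exact_mod_cast hj
  linarith

section

variable {Q : ℕ}

theorem gcd_pos' (hQ : 1 ≤ Q) (m : ℕ) : 0 < Nat.gcd m Q := Nat.gcd_pos_of_pos_right m (by omega)

theorem kap_pos (hQ : 1 ≤ Q) (m : ℕ) : 0 < kap Q m := by
  have h1 := gcd_pos' hQ m
  have h2 := Nat.totient_pos.2 h1
  unfold kap
  positivity

theorem one_le_kap (hQ : 1 ≤ Q) (m : ℕ) : 1 ≤ kap Q m := by
  have h1 := gcd_pos' hQ m
  have h2 : (0 : ℝ) < Nat.totient (Nat.gcd m Q) := by exact_mod_cast Nat.totient_pos.2 h1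
  unfold kap
  rw [le_div_iff₀ h2, one_mul]
  exact_mod_cast Nat.totient_le _

theorem kap_le (hQ : 1 ≤ Q) (m : ℕ) : kap Q m ≤ Q := by
  have h1 := gcd_pos' hQ m
  have h2 : 0 < Nat.totient (Nat.gcd m Q) := Nat.totient_pos.2 h1
  have h3 : (1 : ℝ) ≤ Nat.totient (Nat.gcd m Q) := by exact_mod_cast h2
  have h4 : ((Nat.gcd m Q : ℕ) : ℝ) ≤ Q := by exact_mod_cast Nat.gcd_le_right m (by omega)
  unfold kap
  rw [div_le_iff₀ (by linarith)]
  have : (0 : ℝ) ≤ Q := Nat.cast_nonneg Q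
  nlinarith

theorem phiQ_mul_kap (hQ : 1 ≤ Q) (m : ℕ) : phiQ Q m * kap Q m = m := by
  have h1 := gcd_pos' hQ m
  have h2 := Nat.totient_pos.2 h1
  have h3 : (0 : ℝ) < ((Nat.gcd m Q : ℕ) : ℝ) := by exact_mod_cast h1
  have h4 : (0 : ℝ) < Nat.totient (Nat.gcd m Q) := by exact_mod_cast h2
  unfold phiQ kap
  field_simp

theorem phiQ_eq (hQ : 1 ≤ Q) (m : ℕ) : phiQ Q m = m / kap Q m := by
  rw [eq_div_iff (kap_pos hQ m).ne', phiQ_mul_kap hQ]

theorem cnt_qq (hQ : 1 ≤ Q) {c : ℤ} {m : ℕ} (hc : Int.gcd c (Nat.gcd m Q) = 1) :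
    (cnt Q c m : ℝ) / Q * qq Q = kap Q m := by
  have h := cnt_mul hQ hc
  have h1 : (0 : ℝ) < Q := by exact_mod_cast hQ
  have h2 : (0 : ℝ) < Nat.totient Q := by exact_mod_cast Nat.totient_pos.2 hQ
  have h3 : (0 : ℝ) < Nat.totient (Nat.gcd m Q) := by exact_mod_cast Nat.totient_pos.2 (gcd_pos' hQ m)
  have h4 : (cnt Q c m : ℝ) * Nat.totient (Nat.gcd m Q) = (Nat.gcd m Q : ℕ) * Nat.totient Q := by exact_mod_cast h
  unfold qq kap
  rw [div_mul_div_comm, div_eq_div_iff (by positivity) (by positivity)]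
  nlinarith

theorem per_int (Q : ℕ) (c : ℤ) (m : ℕ) : Function.Periodic (fun j : ℕ => Int.gcd (c + m * j) Q = 1) Q := by
  intro j
  show (Int.gcd (c + m * ((j + Q : ℕ) : ℤ)) Q = 1) = (Int.gcd (c + m * j) Q = 1)
  have h1 : c + (m : ℤ) * ((j + Q : ℕ) : ℤ) = (c + m * j) + m * Q := by push_cast; ring
  rw [h1, Int.gcd_add_mul_right_left]

theorem coprime_el {c : ℤ} {m j : ℕ} (hc : |c| ≤ m) (hj : 1 ≤ j) :
    (el c m j).Coprime Q ↔ Int.gcd (c + m * j) Q = 1 := by
  rw [← el_cast hc hj]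
  exact Iff.rfl

theorem le_el {c : ℤ} {m j B : ℕ} (hc : |c| ≤ B) (hB : 2 * B ≤ m) (hj : 1 ≤ j) : (m : ℝ) / 2 ≤ (el c m j : ℕ) := by
  have h1 : |c| ≤ (m : ℤ) := by
    have : (B : ℤ) ≤ m := by exact_mod_cast (by omega : B ≤ m)
    linarith
  have h2 := el_cast h1 hj
  have h3 := abs_le.1 hc
  have h4 : (m : ℤ) * 1 ≤ m * j := by
    apply mul_le_mul_of_nonneg_left _ (by positivity)
    exact_mod_cast hj
  have h5 : (2 : ℤ) * B ≤ m := by exact_mod_cast hB
  have h6 : (m : ℤ) ≤ 2 * (el c m j : ℕ) := by linarith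
  have h7 : (m : ℝ) ≤ 2 * (el c m j : ℕ) := by exact_mod_cast h6
  linarith

/-- Upper bound for the expected number. -/
theorem sum_level_le (hQ : 1 ≤ Q) {c : ℤ} {m B : ℕ} (hc : |c| ≤ B) (hB : 2 * B ≤ m)
    (hg : Int.gcd c (Nat.gcd m Q) = 1) (hm : 0 < Real.log ((m : ℝ) / 2)) (M : ℕ) :
    ∑ j ∈ Icc 1 M, level Q (el c m j) ≤ ((M : ℝ) + Q) * kap Q m / Real.log ((m : ℝ) / 2) := by
  have hcm : |c| ≤ (m : ℤ) := by
    have : (B : ℤ) ≤ m := by exact_mod_cast (by omega : B ≤ m)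
    linarith
  have hm0 : (0 : ℝ) < (m : ℝ) / 2 := by
    by_contra hcon
    push Not at hcon
    have h1 : (m : ℝ) / 2 = 0 := le_antisymm hcon (by positivity)
    rw [h1, Real.log_zero] at hm
    exact lt_irrefl _ hm
  have hI : Icc 1 M = Ico 1 (1 + M) := by
    ext j
    rw [mem_Icc, mem_Ico]
    omega
  have h1 : ∑ j ∈ Icc 1 M, level Q (el c m j) =
      ∑ j ∈ (Icc 1 M).filter (fun j : ℕ => Int.gcd (c + m * j) Q = 1), level Q (el c m j) := by
    refine (sum_filter_of_ne (fun j hj hne => ?_)).symm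
    rw [mem_Icc] at hj
    by_contra hcon
    apply hne
    unfold level
    rw [if_neg]
    rwa [coprime_el hcm hj.1]
  rw [h1]
  have h2 : ∀ j ∈ (Icc 1 M).filter (fun j : ℕ => Int.gcd (c + m * j) Q = 1),
      level Q (el c m j) ≤ qq Q / Real.log ((m : ℝ) / 2) := by
    intro j hj
    rw [mem_filter, mem_Icc] at hj
    exact level_le hm hm0 (le_el hc hB hj.1.1)
  refine (sum_le_sum h2).trans ?_
  rw [sum_const, nsmul_eq_mul, hI]
  have h4 := (count_per hQ _ (per_int Q c m) 1 M).2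
  have hq := qq_pos hQ
  have h5 := mul_le_mul_of_nonneg_right h4 (show 0 ≤ qq Q / Real.log ((m : ℝ) / 2) by positivity)
  refine h5.trans (le_of_eq ?_)
  have h6 := cnt_qq hQ hg
  unfold cnt at h6
  rw [← h6]
  ring

/-- Lower bound for the expected number. -/
theorem le_sum_level (hQ : 1 ≤ Q) {c : ℤ} {m B : ℕ} (hc : |c| ≤ B) (hB : 2 * B ≤ m)
    (hg : Int.gcd c (Nat.gcd m Q) = 1) (hm : 0 < Real.log ((m : ℝ) / 2)) (hm2 : qq Q ≤ Real.log ((m : ℝ) / 2))
    {M : ℕ} {Y : ℝ} (hY : ∀ j, 1 ≤ j → j ≤ M → ((el c m j : ℕ) : ℝ) ≤ Y) (hY1 : 1 < Y) :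
    ((M : ℝ) - Q) * kap Q m / Real.log Y ≤ ∑ j ∈ Icc 1 M, level Q (el c m j) := by
  have hcm : |c| ≤ (m : ℤ) := by
    have : (B : ℤ) ≤ m := by exact_mod_cast (by omega : B ≤ m)
    linarith
  have hm0 : (0 : ℝ) < (m : ℝ) / 2 := by
    by_contra hcon
    push Not at hcon
    have h1 : (m : ℝ) / 2 = 0 := le_antisymm hcon (by positivity)
    rw [h1, Real.log_zero] at hm
    exact lt_irrefl _ hm
  have hI : Icc 1 M = Ico 1 (1 + M) := by
    ext j
    rw [mem_Icc, mem_Ico]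
    omega
  have h3 : ∑ j ∈ (Icc 1 M).filter (fun j : ℕ => Int.gcd (c + m * j) Q = 1), level Q (el c m j) ≤
      ∑ j ∈ Icc 1 M, level Q (el c m j) :=
    sum_le_sum_of_subset_of_nonneg (filter_subset _ _) (fun j _ _ => level_nonneg _ _)
  refine le_trans ?_ h3
  have hlY : 0 < Real.log Y := Real.log_pos hY1
  have h2 : ∀ j ∈ (Icc 1 M).filter (fun j : ℕ => Int.gcd (c + m * j) Q = 1),
      qq Q / Real.log Y ≤ level Q (el c m j) := by
    intro j hj
    rw [mem_filter, mem_Icc] at hj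
    refine le_level hm2 hm hm0 (le_el hc hB hj.1.1) (hY j hj.1.1 hj.1.2) ?_
    rw [coprime_el hcm hj.1.1]
    exact hj.2
  refine le_trans ?_ (sum_le_sum h2)
  rw [sum_const, nsmul_eq_mul, hI]
  have h4 := (count_per hQ _ (per_int Q c m) 1 M).1
  have hq := qq_pos hQ
  have h5 := mul_le_mul_of_nonneg_right h4 (show 0 ≤ qq Q / Real.log Y by positivity)
  refine le_trans (le_of_eq ?_) h5
  have h6 := cnt_qq hQ hg
  unfold cnt at h6
  rw [← h6]
  ring

/-- The number of the elements up to `v φ_Q(m) log m`. -/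
noncomputable def MM (Q : ℕ) (c : ℤ) (m : ℕ) (v : ℝ) : ℕ := ⌊(v * phiQ Q m * Real.log m - c) / m⌋₊

theorem MM_le (hQ : 1 ≤ Q) {c : ℤ} {m : ℕ} (hc : |c| ≤ m) (hm : 1 ≤ m) {v : ℝ} (hv : 0 ≤ v) :
    (MM Q c m v : ℝ) * kap Q m ≤ v * Real.log m + kap Q m := by
  have hk := kap_pos hQ m
  have hm0 : (0 : ℝ) < m := by exact_mod_cast hm
  have hL : 0 ≤ Real.log m := Real.log_natCast_nonneg m
  have h1 : |(c : ℝ)| ≤ m := by exact_mod_cast hc
  have h2 := abs_le.1 h1
  unfold MM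
  rcases le_or_gt 0 ((v * phiQ Q m * Real.log m - c) / m) with h | h
  · have h3 := Nat.floor_le h
    have h4 : (v * phiQ Q m * Real.log m - c) / m ≤ v * Real.log m / kap Q m + 1 := by
      rw [phiQ_eq hQ, div_le_iff₀ hm0]
      have : (v * Real.log m / kap Q m + 1) * m = v * (m / kap Q m) * Real.log m + m := by field_simp
      rw [this]
      linarith
    have h5 : (⌊(v * phiQ Q m * Real.log m - c) / m⌋₊ : ℝ) ≤ v * Real.log m / kap Q m + 1 := h3.trans h4
    have h6 := mul_le_mul_of_nonneg_right h5 hk.le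
    refine h6.trans (le_of_eq ?_)
    field_simp
  · rw [Nat.floor_of_nonpos h.le]
    push_cast
    have : 0 ≤ v * Real.log m := by positivity
    linarith

theorem le_MM (hQ : 1 ≤ Q) {c : ℤ} {m : ℕ} (hc : |c| ≤ m) (hm : 1 ≤ m) {v : ℝ} :
    v * Real.log m - 2 * kap Q m ≤ (MM Q c m v : ℝ) * kap Q m := by
  have hk := kap_pos hQ m
  have hm0 : (0 : ℝ) < m := by exact_mod_cast hm
  have h1 : |(c : ℝ)| ≤ m := by exact_mod_cast hc
  have h2 := abs_le.1 h1
  unfold MM
  have h3 := (Nat.lt_floor_add_one ((v * phiQ Q m * Real.log m - c) / m)).le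
  have h4 : v * Real.log m / kap Q m - 1 ≤ (v * phiQ Q m * Real.log m - c) / m := by
    rw [phiQ_eq hQ, le_div_iff₀ hm0]
    have : (v * Real.log m / kap Q m - 1) * m = v * (m / kap Q m) * Real.log m - m := by field_simp
    rw [this]
    linarith
  have h5 : v * Real.log m / kap Q m - 2 ≤ (⌊(v * phiQ Q m * Real.log m - c) / m⌋₊ : ℝ) := by linarith
  have h6 := mul_le_mul_of_nonneg_right h5 hk.le
  refine le_trans (le_of_eq ?_) h6
  field_simp

/-- All the elements counted by `MM` are at most `v φ_Q(m) log m`. -/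
theorem el_le {c : ℤ} {m j : ℕ} (hc : |c| ≤ m) (hm : 1 ≤ m) {v : ℝ} (hj : 1 ≤ j) (hj2 : j ≤ MM Q c m v) :
    ((el c m j : ℕ) : ℝ) ≤ v * phiQ Q m * Real.log m := by
  have hm0 : (0 : ℝ) < m := by exact_mod_cast hm
  have h1 : (j : ℝ) ≤ (v * phiQ Q m * Real.log m - c) / m := by
    have h2 : ⌊(v * phiQ Q m * Real.log m - c) / m⌋₊ ≠ 0 := by
      unfold MM at hj2
      omega
    have h3 : 0 ≤ (v * phiQ Q m * Real.log m - c) / m := by
      by_contra hcon
      push Not at hcon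
      exact h2 (Nat.floor_of_nonpos hcon.le)
    refine le_trans ?_ (Nat.floor_le h3)
    exact_mod_cast hj2
  rw [le_div_iff₀ hm0] at h1
  have h2 : ((el c m j : ℕ) : ℝ) = c + m * j := by exact_mod_cast el_cast hc hj
  rw [h2]
  linarith

theorem lt_el_of {c : ℤ} {m j : ℕ} (hc : |c| ≤ m) (hm : 1 ≤ m) {v : ℝ} (hj : 1 ≤ j)
    (hj2 : ((el c m j : ℕ) : ℝ) ≤ v * phiQ Q m * Real.log m) : j ≤ MM Q c m v := by
  have hm0 : (0 : ℝ) < m := by exact_mod_cast hm
  unfold MM
  apply Nat.le_floor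
  rw [le_div_iff₀ hm0]
  have h2 : ((el c m j : ℕ) : ℝ) = c + m * j := by exact_mod_cast el_cast hc hj
  rw [h2] at hj2
  linarith

theorem tendsto_lo (v K : ℝ) (hv : 0 ≤ v) :
    Tendsto (fun m : ℕ => (v * Real.log m - K) / Real.log ((m : ℝ) * (v * Real.log m + 2))) atTop (𝓝 v) := by
  have hL : Tendsto (fun m : ℕ => Real.log (m : ℝ)) atTop atTop := Real.tendsto_log_atTop.comp tendsto_natCast_atTop_atTop
  have h1 : Tendsto (fun x : ℝ => (v - K / x) / (1 + Real.log (v * x + 2) / x)) atTop (𝓝 v) := by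
    have e1 : Tendsto (fun x : ℝ => v - K / x) atTop (𝓝 (v - 0)) :=
      tendsto_const_nhds.sub (tendsto_const_nhds.div_atTop tendsto_id)
    have e2 : Tendsto (fun x : ℝ => Real.log (v * x + 2) / x) atTop (𝓝 0) := by
      have e3 : Tendsto (fun x : ℝ => Real.log (v + 2) / x + Real.log x / x) atTop (𝓝 (0 + 0)) := by
        refine Tendsto.add (tendsto_const_nhds.div_atTop tendsto_id) ?_
        have := Real.isLittleO_log_id_atTop.tendsto_div_nhds_zero
        exact this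
      rw [add_zero] at e3
      refine tendsto_of_tendsto_of_tendsto_of_le_of_le' tendsto_const_nhds e3 ?_ ?_
      · filter_upwards [eventually_ge_atTop (1 : ℝ)] with x hx
        have : 1 ≤ v * x + 2 := by nlinarith
        exact div_nonneg (Real.log_nonneg this) (by linarith)
      · filter_upwards [eventually_ge_atTop (1 : ℝ)] with x hx
        rw [← add_div, ← Real.log_mul (by positivity) (by positivity)]
        refine div_le_div_of_nonneg_right ?_ (by linarith)
        apply Real.log_le_log (by positivity)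
        nlinarith
    have e4 : Tendsto (fun x : ℝ => (v - K / x) / (1 + Real.log (v * x + 2) / x)) atTop (𝓝 ((v - 0) / (1 + 0))) :=
      e1.div (tendsto_const_nhds (x := (1 : ℝ)).add e2) (by norm_num)
    rwa [sub_zero, add_zero, div_one] at e4
  have h2 := h1.comp hL
  refine h2.congr' ?_
  filter_upwards [hL.eventually_ge_atTop 1, eventually_ge_atTop 1] with m hm hm1
  have hm0 : (0 : ℝ) < m := by exact_mod_cast hm1
  have hp : 0 < v * Real.log m + 2 := by nlinarith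
  show (v - K / Real.log m) / (1 + Real.log (v * Real.log m + 2) / Real.log m) = _
  rw [Real.log_mul hm0.ne' hp.ne']
  have h3 : 0 < Real.log (m : ℝ) := by linarith
  rw [show v - K / Real.log (m : ℝ) = (v * Real.log m - K) / Real.log m by field_simp,
    show 1 + Real.log (v * Real.log m + 2) / Real.log (m : ℝ) =
      (Real.log m + Real.log (v * Real.log m + 2)) / Real.log m by field_simp,
    div_div_div_cancel_right₀ h3.ne']

theorem tendsto_hi (v K : ℝ) :
    Tendsto (fun m : ℕ => (v * Real.log m + K) / Real.log ((m : ℝ) / 2)) atTop (𝓝 v) := by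
  have hL : Tendsto (fun m : ℕ => Real.log (m : ℝ)) atTop atTop := Real.tendsto_log_atTop.comp tendsto_natCast_atTop_atTop
  have h1 : Tendsto (fun x : ℝ => (v + K / x) / (1 - Real.log 2 / x)) atTop (𝓝 v) := by
    have e1 : Tendsto (fun x : ℝ => v + K / x) atTop (𝓝 (v + 0)) :=
      tendsto_const_nhds.add (tendsto_const_nhds.div_atTop tendsto_id)
    have e2 : Tendsto (fun x : ℝ => Real.log 2 / x) atTop (𝓝 0) := tendsto_const_nhds.div_atTop tendsto_id
    have e4 : Tendsto (fun x : ℝ => (v + K / x) / (1 - Real.log 2 / x)) atTop (𝓝 ((v + 0) / (1 - 0))) :=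
      e1.div (tendsto_const_nhds (x := (1 : ℝ)).sub e2) (by norm_num)
    rwa [add_zero, sub_zero, div_one] at e4
  have h2 := h1.comp hL
  refine h2.congr' ?_
  filter_upwards [hL.eventually_ge_atTop 1, eventually_ge_atTop 1] with m hm hm1
  have hm0 : (0 : ℝ) < m := by exact_mod_cast hm1
  show (v + K / Real.log m) / (1 - Real.log 2 / Real.log m) = _
  rw [Real.log_div hm0.ne' (by norm_num)]
  have h3 : 0 < Real.log (m : ℝ) := by linarith
  rw [show v + K / Real.log (m : ℝ) = (v * Real.log m + K) / Real.log m by field_simp,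
    show 1 - Real.log 2 / Real.log (m : ℝ) = (Real.log m - Real.log 2) / Real.log m by field_simp,
    div_div_div_cancel_right₀ h3.ne']

/-- **The expected number of elements up to `v φ_Q(m) log m` tends to `v`.** -/
theorem sum_tendsto (hQ : 1 ≤ Q) (B : ℕ) {v : ℝ} (hv : 0 ≤ v) {ε : ℝ} (hε : 0 < ε) :
    ∀ᶠ m : ℕ in atTop, ∀ c : ℤ, |c| ≤ B → Int.gcd c (Nat.gcd m Q) = 1 →
      |∑ j ∈ Icc 1 (MM Q c m v), level Q (el c m j) - v| ≤ ε := by
  have hL : Tendsto (fun m : ℕ => Real.log ((m : ℝ) / 2)) atTop atTop :=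
    Real.tendsto_log_atTop.comp (tendsto_natCast_atTop_atTop.atTop_div_const (by norm_num))
  have g1 := (tendsto_lo v ((2 + Q) * Q) hv).eventually (lt_mem_nhds (show v - ε < v by linarith))
  have g2 := (tendsto_hi v ((1 + Q) * Q)).eventually (gt_mem_nhds (show v < v + ε by linarith))
  filter_upwards [g1, g2, hL.eventually_gt_atTop 0, hL.eventually_ge_atTop (qq Q), eventually_ge_atTop (2 * B),
    eventually_ge_atTop 2] with m h1 h2 h3 h4 h5 h6
  intro c hc hg
  have hcm : |c| ≤ (m : ℤ) := by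
    have : (B : ℤ) ≤ m := by exact_mod_cast (by omega : B ≤ m)
    linarith
  have hm1 : 1 ≤ m := by omega
  have hk := kap_pos hQ m
  have hk1 := kap_le hQ m
  have hQ0 : (0 : ℝ) ≤ Q := Nat.cast_nonneg Q
  have hm2 : (2 : ℝ) ≤ m := by exact_mod_cast h6
  have hlog : 0 ≤ Real.log m := Real.log_natCast_nonneg m
  rw [abs_le]
  constructor
  · have hY1 : 1 < (m : ℝ) * (v * Real.log m + 2) := by nlinarith [mul_nonneg hv hlog]
    have h7 := le_sum_level hQ hc h5 hg h3 h4 (M := MM Q c m v) (Y := (m : ℝ) * (v * Real.log m + 2))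
      (fun j hj hj2 => by
        refine (el_le hcm hm1 hj hj2).trans ?_
        have e1 : phiQ Q m ≤ m := by
          rw [phiQ_eq hQ, div_le_iff₀ hk]
          have := one_le_kap hQ m
          nlinarith
        have e2 : v * phiQ Q m * Real.log m ≤ v * m * Real.log m := by gcongr
        nlinarith) hY1
    have h8 := le_MM hQ hcm hm1 (v := v)
    have hlY := Real.log_pos hY1
    have h9 : (v * Real.log m - (2 + Q) * Q) / Real.log ((m : ℝ) * (v * Real.log m + 2)) ≤
        ((MM Q c m v : ℝ) - Q) * kap Q m / Real.log ((m : ℝ) * (v * Real.log m + 2)) := by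
      apply div_le_div_of_nonneg_right _ hlY.le
      nlinarith
    linarith
  · have h7 := sum_level_le hQ hc h5 hg h3 (MM Q c m v)
    have h8 := MM_le hQ hcm hm1 hv (Q := Q)
    have h9 : ((MM Q c m v : ℝ) + Q) * kap Q m / Real.log ((m : ℝ) / 2) ≤
        (v * Real.log m + (1 + Q) * Q) / Real.log ((m : ℝ) / 2) := by
      apply div_le_div_of_nonneg_right _ h3.le
      nlinarith
    linarith

end

end Pool.Agent.Q112.LE
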