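import Pool.Agent.Q112.LE.MomMain
import Pool.Agent.Q112.LE.FamLaw

/-!
# The least elements over many classes of one modulus: large values
-/

set_option autoImplicit false

namespace Pool.Agent.Q112.LE

open Finset Filter MeasureTheory ProbabilityTheory Pool.Agent.Q120.GM Pool.Agent.Q120.AD
open scoped Topology Nat

variable {Q : ℕ}
variable {Ω : Type*} [MeasurableSpace Ω] {μ : Measure Ω} [IsProbabilityMeasure μ] {A : Ω → Set ℕ}

/-- For every modulus a finite collection of `exp (d ^ o(1))` sets of classes of positive density. -/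
structure CollT (Q : ℕ) (𝒮 : ℕ → Finset (Finset ℕ)) : Prop where
  ok : ∀ d, ∀ S ∈ 𝒮 d, ∀ a ∈ S, a < d ∧ Nat.gcd a (Nat.gcd d Q) = 1
  few : ∀ δ : ℝ, 0 < δ → ∀ᶠ d : ℕ in atTop, Real.log (𝒮 d).card ≤ (d : ℝ) ^ δ

theorem log_le_rpow (K : ℝ) {δ : ℝ} (hδ : 0 < δ) : ∀ᶠ d : ℕ in atTop, K * Real.log (d : ℝ) ≤ (d : ℝ) ^ δ := by
  have h1 := (isLittleO_log_rpow_atTop hδ).bound (show 0 < 1 / (|K| + 1) by positivity)
  have h2 := tendsto_natCast_atTop_atTop.eventually h1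
  filter_upwards [h2, eventually_ge_atTop 1] with d h3 hd
  have hd0 : (0 : ℝ) < d := by exact_mod_cast hd
  have hl0 : 0 ≤ Real.log (d : ℝ) := Real.log_natCast_nonneg d
  rw [Real.norm_of_nonneg hl0, Real.norm_of_nonneg (by positivity)] at h3
  have h4 : 0 < |K| + 1 := by positivity
  have h5 : (|K| + 1) * Real.log (d : ℝ) ≤ (d : ℝ) ^ δ := by
    have := mul_le_mul_of_nonneg_left h3 h4.le
    rw [← mul_assoc, mul_one_div_cancel h4.ne', one_mul] at this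
    exact this
  have h6 := le_abs_self K
  nlinarith

/-- The event. -/
def lt (A : Ω → Set ℕ) (Q : ℕ) (t : ℝ) (a d : ℕ) : Set Ω := free A (cls a d (mt Q t a d))

theorem tail_up_one (hA : IsModel μ (level Q) A) (hQ : 1 ≤ Q) {𝒮 : ℕ → Finset (Finset ℕ)} (h𝒮 : CollT Q 𝒮)
    {t : ℝ} (ht : 0 ≤ t) {δ : ℝ} (hδ : 0 < δ) :
    ∀ᵐ ω ∂μ, ∀ᶠ d : ℕ in atTop, ∀ S ∈ 𝒮 d,
      num S (fun a => lt A Q t a d) ω ≤ S.card * (d : ℝ) ^ (-t + δ) + (d : ℝ) ^ δ := by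
  classical
  obtain ⟨E, hE⟩ : ∃ E : ℕ → Set Ω, E = fun d => ⋃ S ∈ 𝒮 d,
    {ω | 2 * (∑ a ∈ S, μ.real (lt A Q t a d)) + (2 * Real.log d + Real.log (𝒮 d).card) ≤
      num S (fun a => lt A Q t a d) ω} := ⟨_, rfl⟩
  have hEb : ∀ᶠ d : ℕ in atTop, μ.real (E d) ≤ (d : ℝ) ^ (-(2 : ℝ)) := by
    filter_upwards [eventually_ge_atTop 1] with d hd
    have hd0 : (0 : ℝ) < d := by exact_mod_cast hd
    rw [hE]
    refine (measureReal_biUnion_finset_le _ _).trans ?_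
    refine (sum_le_sum (g := fun _ => (d : ℝ) ^ (-(2 : ℝ)) / (𝒮 d).card) (fun S hS => ?_)).trans ?_
    · have h4 : (0 : ℝ) < (𝒮 d).card := by exact_mod_cast card_pos.2 ⟨S, hS⟩
      have h8 : (d : ℝ) ^ (-(2 : ℝ)) / (𝒮 d).card = Real.exp (-(2 * Real.log d + Real.log (𝒮 d).card)) := by
        rw [Real.rpow_def_of_pos hd0, neg_add, Real.exp_add, Real.exp_neg (Real.log ((𝒮 d).card : ℝ)), Real.exp_log h4]
        rw [div_eq_mul_inv]
        congr 2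
        ring
      rw [h8]
      exact dev_up (μ := μ) (fun a _ => meas_free hA _)
        (mutual_cls hA (fun a ha => (h𝒮.ok d S hS a ha).1) (fun a => mt Q t a d)) _
    · rw [sum_const, nsmul_eq_mul]
      rcases Nat.eq_zero_or_pos (𝒮 d).card with h4 | h4
      · rw [h4]
        simp
      · have h5 : (0 : ℝ) < (𝒮 d).card := by exact_mod_cast h4
        refine le_of_eq ?_
        field_simp
  have hsm : Summable (fun d : ℕ => (d : ℝ) ^ (-(2 : ℝ))) := Real.summable_nat_rpow.2 (by norm_num)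
  filter_upwards [bc hsm hEb] with ω hω
  filter_upwards [hω, fam_prob (μ := μ) hA hQ ht (show 0 < δ / 2 by linarith), log_le_rpow 4 hδ,
    h𝒮.few (δ / 2) (by linarith), ev_rpow 2 (show 0 < δ / 2 by linarith), eventually_ge_atTop 1]
    with d h1 h2 h3 h4 h5 hd S hS
  have hd0 : (0 : ℝ) < d := by exact_mod_cast hd
  have h6 : num S (fun a => lt A Q t a d) ω <
      2 * (∑ a ∈ S, μ.real (lt A Q t a d)) + (2 * Real.log d + Real.log (𝒮 d).card) := by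
    by_contra hcon
    push Not at hcon
    apply h1
    rw [hE]
    exact Set.mem_biUnion hS hcon
  have h7 : ∑ a ∈ S, μ.real (lt A Q t a d) ≤ S.card * (d : ℝ) ^ (-(t - δ / 2)) := by
    rw [← nsmul_eq_mul]
    exact Finset.sum_le_card_nsmul _ _ _ (fun a ha => (h2 a (h𝒮.ok d S hS a ha).1 (h𝒮.ok d S hS a ha).2).1)
  have h8 : (d : ℝ) ^ (-t + δ) = (d : ℝ) ^ (-(t - δ / 2)) * (d : ℝ) ^ (δ / 2) := by
    rw [← Real.rpow_add hd0]
    congr 1
    ring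
  have h9 : (d : ℝ) ^ δ = (d : ℝ) ^ (δ / 2) * (d : ℝ) ^ (δ / 2) := by
    rw [← Real.rpow_add hd0]
    congr 1
    ring
  have h10 : 0 < (d : ℝ) ^ (-(t - δ / 2)) := by positivity
  have h11 : (0 : ℝ) ≤ S.card := Nat.cast_nonneg _
  have h12 : 2 * (S.card * (d : ℝ) ^ (-(t - δ / 2))) ≤ S.card * (d : ℝ) ^ (-t + δ) := by
    rw [h8]
    have h13 : 0 ≤ S.card * (d : ℝ) ^ (-(t - δ / 2)) := by positivity
    nlinarith
  have h13 : 2 * (d : ℝ) ^ (δ / 2) ≤ (d : ℝ) ^ δ := by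
    rw [h9]
    nlinarith
  linarith

theorem tail_down_one (hA : IsModel μ (level Q) A) (hQ : 1 ≤ Q) {𝒮 : ℕ → Finset (Finset ℕ)} (h𝒮 : CollT Q 𝒮)
    {t : ℝ} (ht : 0 ≤ t) {δ : ℝ} (hδ : 0 < δ) :
    ∀ᵐ ω ∂μ, ∀ᶠ d : ℕ in atTop, ∀ S ∈ 𝒮 d, (d : ℝ) ^ (t + δ) ≤ S.card →
      S.card * (d : ℝ) ^ (-t - δ) ≤ num S (fun a => lt A Q t a d) ω := by
  classical
  obtain ⟨c₀, hc₀⟩ := level_small hQ (show (0 : ℝ) < 1 / 2 by norm_num)
  obtain ⟨E, hE⟩ : ∃ E : ℕ → Set Ω, E = fun d => ⋃ S ∈ (𝒮 d).filter (fun S => (d : ℝ) ^ (t + δ) ≤ S.card),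
    {ω | num S (fun a => lt A Q t a d) ω ≤ (∑ a ∈ S, μ.real (lt A Q t a d)) / 2} := ⟨_, rfl⟩
  -- the expected number
  have hexp : ∀ᶠ d : ℕ in atTop, ∀ S ∈ 𝒮 d, (d : ℝ) ^ (t + δ) ≤ S.card →
      (S.card : ℝ) / 2 * (d : ℝ) ^ (-(t + δ / 4)) ≤ ∑ a ∈ S, μ.real (lt A Q t a d) := by
    filter_upwards [fam_prob (μ := μ) hA hQ ht (show 0 < δ / 4 by linarith),
      ev_rpow (2 * c₀) (show 0 < t + δ by linarith), eventually_ge_atTop 1] with d h1 h2 hd S hS hcard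
    have hd0 : (0 : ℝ) < d := by exact_mod_cast hd
    have h3 : ∑ a ∈ S.filter (fun a => c₀ ≤ a), μ.real (lt A Q t a d) ≤ ∑ a ∈ S, μ.real (lt A Q t a d) :=
      sum_le_sum_of_subset_of_nonneg (filter_subset _ _) (fun _ _ _ => measureReal_nonneg)
    refine le_trans ?_ h3
    have h4 : ((S.filter (fun a => c₀ ≤ a)).card : ℝ) * (d : ℝ) ^ (-(t + δ / 4)) ≤
        ∑ a ∈ S.filter (fun a => c₀ ≤ a), μ.real (lt A Q t a d) := by
      rw [← nsmul_eq_mul]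
      refine Finset.card_nsmul_le_sum _ _ _ (fun a ha => ?_)
      rw [mem_filter] at ha
      exact (h1 a (h𝒮.ok d S hS a ha.1).1 (h𝒮.ok d S hS a ha.1).2).2 (hc₀ a ha.2)
    refine le_trans ?_ h4
    refine mul_le_mul_of_nonneg_right ?_ (by positivity)
    have h5 : S.card ≤ (S.filter (fun a => c₀ ≤ a)).card + c₀ := by
      have h6 := card_filter_add_card_filter_not (s := S) (fun a => c₀ ≤ a)
      have h7 : (S.filter (fun a => ¬ c₀ ≤ a)).card ≤ c₀ := by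
        have h9 : S.filter (fun a => ¬ c₀ ≤ a) ⊆ range c₀ := by
          intro a ha
          rw [mem_filter] at ha
          exact mem_range.2 (by omega)
        have h10 := card_le_card h9
        rwa [card_range] at h10
      omega
    have h6 : (S.card : ℝ) ≤ (S.filter (fun a => c₀ ≤ a)).card + c₀ := by exact_mod_cast h5
    linarith
  have hbig : ∀ᶠ d : ℕ in atTop, ∀ S ∈ 𝒮 d, (d : ℝ) ^ (t + δ) ≤ S.card →
      10 * (2 * Real.log d + Real.log (𝒮 d).card) ≤ ∑ a ∈ S, μ.real (lt A Q t a d) := by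
    filter_upwards [hexp, log_le_rpow 2 (show 0 < δ / 4 by linarith), h𝒮.few (δ / 4) (by linarith),
      ev_rpow 40 (show 0 < δ / 4 by linarith), eventually_ge_atTop 1] with d h1 h2 h3 h4 hd S hS hcard
    have hd0 : (0 : ℝ) < d := by exact_mod_cast hd
    have hd1 : (1 : ℝ) ≤ d := by exact_mod_cast hd
    refine le_trans ?_ (h1 S hS hcard)
    have h5 : (d : ℝ) ^ (t + δ) / 2 * (d : ℝ) ^ (-(t + δ / 4)) ≤ (S.card : ℝ) / 2 * (d : ℝ) ^ (-(t + δ / 4)) :=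
      mul_le_mul_of_nonneg_right (by linarith) (by positivity)
    refine le_trans ?_ h5
    have h6 : (d : ℝ) ^ (t + δ) / 2 * (d : ℝ) ^ (-(t + δ / 4)) = (d : ℝ) ^ (δ / 4 + δ / 4 + δ / 4) / 2 := by
      rw [div_mul_eq_mul_div, ← Real.rpow_add hd0]
      congr 2
      ring
    rw [h6, Real.rpow_add hd0, Real.rpow_add hd0]
    have h7 : 1 ≤ (d : ℝ) ^ (δ / 4) := by linarith
    nlinarith [mul_nonneg (mul_nonneg (by linarith : 0 ≤ (d : ℝ) ^ (δ / 4)) (by linarith : 0 ≤ (d : ℝ) ^ (δ / 4) - 1))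
      (by linarith : 0 ≤ (d : ℝ) ^ (δ / 4) - 40), mul_nonneg (by linarith : 0 ≤ (d : ℝ) ^ (δ / 4))
      (by linarith : 0 ≤ (d : ℝ) ^ (δ / 4) - 40)]
  have hEb : ∀ᶠ d : ℕ in atTop, μ.real (E d) ≤ (d : ℝ) ^ (-(2 : ℝ)) := by
    filter_upwards [hbig, eventually_ge_atTop 1] with d h1 hd
    have hd0 : (0 : ℝ) < d := by exact_mod_cast hd
    rw [hE]
    refine (measureReal_biUnion_finset_le _ _).trans ?_
    refine (sum_le_sum (g := fun _ => (d : ℝ) ^ (-(2 : ℝ)) / (𝒮 d).card) (fun S hS => ?_)).trans ?_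
    · rw [mem_filter] at hS
      have h4 : (0 : ℝ) < (𝒮 d).card := by exact_mod_cast card_pos.2 ⟨S, hS.1⟩
      have h8 : (d : ℝ) ^ (-(2 : ℝ)) / (𝒮 d).card = Real.exp (-(2 * Real.log d + Real.log (𝒮 d).card)) := by
        rw [Real.rpow_def_of_pos hd0, neg_add, Real.exp_add, Real.exp_neg (Real.log ((𝒮 d).card : ℝ)), Real.exp_log h4]
        rw [div_eq_mul_inv]
        congr 2
        ring
      rw [h8]
      refine (dev_down (μ := μ) (J := S) (G := fun a => lt A Q t a d) (fun a _ => meas_free hA _)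
        (mutual_cls hA (fun a ha => (h𝒮.ok d S hS.1 a ha).1) (fun a => mt Q t a d))).trans ?_
      rw [Real.exp_le_exp]
      have := h1 S hS.1 hS.2
      linarith
    · rw [sum_const, nsmul_eq_mul]
      rcases Nat.eq_zero_or_pos (𝒮 d).card with h4 | h4
      · rw [h4]
        simp
      · have h5 : (0 : ℝ) < (𝒮 d).card := by exact_mod_cast h4
        have h6 : (((𝒮 d).filter (fun S => (d : ℝ) ^ (t + δ) ≤ S.card)).card : ℝ) ≤ (𝒮 d).card := by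
          exact_mod_cast card_filter_le _ _
        have h7 : (0 : ℝ) ≤ (d : ℝ) ^ (-(2 : ℝ)) / (𝒮 d).card := by positivity
        refine (mul_le_mul_of_nonneg_right h6 h7).trans (le_of_eq ?_)
        field_simp
  have hsm : Summable (fun d : ℕ => (d : ℝ) ^ (-(2 : ℝ))) := Real.summable_nat_rpow.2 (by norm_num)
  filter_upwards [bc hsm hEb] with ω hω
  filter_upwards [hω, hexp, ev_rpow 4 (show 0 < 3 * δ / 4 by linarith), eventually_ge_atTop 1] with d h1 h2 h3 hd S hS hcard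
  have hd0 : (0 : ℝ) < d := by exact_mod_cast hd
  have h4 : (∑ a ∈ S, μ.real (lt A Q t a d)) / 2 < num S (fun a => lt A Q t a d) ω := by
    by_contra hcon
    push Not at hcon
    apply h1
    rw [hE]
    exact Set.mem_biUnion (x := S) (mem_coe.2 (mem_filter.2 ⟨hS, hcard⟩)) hcon
  have h5 := h2 S hS hcard
  have h6 : (d : ℝ) ^ (-(t + δ / 4)) = (d : ℝ) ^ (-t - δ) * (d : ℝ) ^ (3 * δ / 4) := by
    rw [← Real.rpow_add hd0]
    congr 1
    ring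
  have h7 : 0 ≤ S.card * (d : ℝ) ^ (-t - δ) := by positivity
  rw [h6] at h5
  nlinarith

/-- **The large values, for all thresholds.** -/
theorem tail_law (hA : IsModel μ (level Q) A) (hQ : 1 ≤ Q) {𝒮 : ℕ → Finset (Finset ℕ)} (h𝒮 : CollT Q 𝒮) :
    ∀ᵐ ω ∂μ, ∀ t : ℝ, 0 < t → ∀ δ : ℝ, 0 < δ → ∀ᶠ d : ℕ in atTop, ∀ T ∈ 𝒮 d,
      ((Set.ncard {a : ℕ | a ∈ T ∧ Late (A ω) a d (t * phiQ Q d * Real.log d ^ 2)} : ℝ) ≤
        T.card * (d : ℝ) ^ (-t + δ) + (d : ℝ) ^ δ) ∧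
      ((d : ℝ) ^ (t + δ) ≤ T.card → T.card * (d : ℝ) ^ (-t - δ) ≤
        (Set.ncard {a : ℕ | a ∈ T ∧ Late (A ω) a d (t * phiQ Q d * Real.log d ^ 2)} : ℝ)) := by
  classical
  have h1 : ∀ᵐ ω ∂μ, ∀ q : ℚ, 0 < (q : ℝ) → ∀ r : ℚ, 0 < (r : ℝ) → ∀ᶠ d : ℕ in atTop, ∀ S ∈ 𝒮 d,
      num S (fun a => lt A Q q a d) ω ≤ S.card * (d : ℝ) ^ (-(q : ℝ) + r) + (d : ℝ) ^ (r : ℝ) ∧
      ((d : ℝ) ^ ((q : ℝ) + r) ≤ S.card → S.card * (d : ℝ) ^ (-(q : ℝ) - r) ≤ num S (fun a => lt A Q q a d) ω) := by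
    rw [ae_all_iff]
    intro q
    by_cases hq : 0 < (q : ℝ)
    · have h2 : ∀ᵐ ω ∂μ, ∀ r : ℚ, 0 < (r : ℝ) → ∀ᶠ d : ℕ in atTop, ∀ S ∈ 𝒮 d,
          num S (fun a => lt A Q q a d) ω ≤ S.card * (d : ℝ) ^ (-(q : ℝ) + r) + (d : ℝ) ^ (r : ℝ) ∧
          ((d : ℝ) ^ ((q : ℝ) + r) ≤ S.card → S.card * (d : ℝ) ^ (-(q : ℝ) - r) ≤ num S (fun a => lt A Q q a d) ω) := by
        rw [ae_all_iff]
        intro r
        by_cases hr : 0 < (r : ℝ)
        · filter_upwards [tail_up_one hA hQ h𝒮 hq.le hr, tail_down_one hA hQ h𝒮 hq.le hr] with ω h3 h4 _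
          filter_upwards [h3, h4] with d h5 h6 S hS
          exact ⟨h5 S hS, h6 S hS⟩
        · filter_upwards with ω h
          exact absurd h hr
      filter_upwards [h2] with ω hω _
      exact hω
    · filter_upwards with ω h
      exact absurd h hq
  filter_upwards [h1] with ω hω t ht δ hδ
  obtain ⟨q₁, hq1, hq1'⟩ := exists_rat_btwn (show max 0 (t - δ / 2) < t from max_lt ht (by linarith))
  have hq10 : 0 < (q₁ : ℝ) := lt_of_le_of_lt (le_max_left _ _) hq1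
  have hq1δ : t - δ / 2 < q₁ := lt_of_le_of_lt (le_max_right _ _) hq1
  obtain ⟨q₂, hq2, hq2'⟩ := exists_rat_btwn (show t < t + δ / 2 by linarith)
  obtain ⟨r, hr, hr'⟩ := exists_rat_btwn (show (0 : ℝ) < δ / 2 by linarith)
  have hq20 : 0 < (q₂ : ℝ) := by linarith
  filter_upwards [hω q₁ hq10 r hr, hω q₂ hq20 r hr, late_iff_free hQ hq10, late_iff_free hQ hq20,
    eventually_ge_atTop 1] with d h2 h3 h4 h5 hd T hT
  have hd1 : (1 : ℝ) ≤ d := by exact_mod_cast hd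
  have hnum : ∀ q : ℝ, (∀ c, c < d → ∀ S : Set ℕ,
      (Late S c d (q * phiQ Q d * Real.log d ^ 2) ↔ ∀ n ∈ cls c d (mt Q q c d), n ∉ S)) →
      num T (fun a => lt A Q q a d) ω = Set.ncard {a : ℕ | a ∈ T ∧ Late (A ω) a d (q * phiQ Q d * Real.log d ^ 2)} := by
    intro q hq
    rw [num_card]
    have h6 : {a : ℕ | a ∈ T ∧ Late (A ω) a d (q * phiQ Q d * Real.log d ^ 2)} =
        ((T.filter (fun a => ω ∈ lt A Q q a d) : Finset ℕ) : Set ℕ) := by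
      ext a
      rw [mem_coe, mem_filter]
      constructor
      · rintro ⟨h7, h8⟩
        exact ⟨h7, (hq a (h𝒮.ok d T hT a h7).1 (A ω)).1 h8⟩
      · rintro ⟨h7, h8⟩
        exact ⟨h7, (hq a (h𝒮.ok d T hT a h7).1 (A ω)).2 h8⟩
    rw [h6, Set.ncard_coe_finset]
  have hfin : ∀ y : ℝ, Set.Finite {a : ℕ | a ∈ T ∧ Late (A ω) a d y} := fun y =>
    (Finset.finite_toSet T).subset (fun a ha => ha.1)
  have hY : ∀ s s' : ℝ, s ≤ s' → s * phiQ Q d * Real.log d ^ 2 ≤ s' * phiQ Q d * Real.log d ^ 2 := by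
    intro s s' hs
    have := phiQ_nonneg Q d
    gcongr
  have m1 : (Set.ncard {a : ℕ | a ∈ T ∧ Late (A ω) a d (t * phiQ Q d * Real.log d ^ 2)} : ℝ) ≤
      Set.ncard {a : ℕ | a ∈ T ∧ Late (A ω) a d (q₁ * phiQ Q d * Real.log d ^ 2)} := by
    have := Set.ncard_le_ncard (s := {a : ℕ | a ∈ T ∧ Late (A ω) a d (t * phiQ Q d * Real.log d ^ 2)})
      (t := {a : ℕ | a ∈ T ∧ Late (A ω) a d (q₁ * phiQ Q d * Real.log d ^ 2)})
      (fun a ha => ⟨ha.1, late_mono (hY _ _ hq1'.le) ha.2⟩) (hfin _)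
    exact_mod_cast this
  have m2 : (Set.ncard {a : ℕ | a ∈ T ∧ Late (A ω) a d (q₂ * phiQ Q d * Real.log d ^ 2)} : ℝ) ≤
      Set.ncard {a : ℕ | a ∈ T ∧ Late (A ω) a d (t * phiQ Q d * Real.log d ^ 2)} := by
    have := Set.ncard_le_ncard (s := {a : ℕ | a ∈ T ∧ Late (A ω) a d (q₂ * phiQ Q d * Real.log d ^ 2)})
      (t := {a : ℕ | a ∈ T ∧ Late (A ω) a d (t * phiQ Q d * Real.log d ^ 2)})
      (fun a ha => ⟨ha.1, late_mono (hY _ _ hq2.le) ha.2⟩) (hfin _)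
    exact_mod_cast this
  obtain ⟨h6, -⟩ := h2 T hT
  obtain ⟨-, h7⟩ := h3 T hT
  rw [hnum q₁ h4] at h6
  rw [hnum q₂ h5] at h7
  have hT0 : (0 : ℝ) ≤ T.card := Nat.cast_nonneg _
  constructor
  · refine m1.trans (h6.trans ?_)
    have e1 : (d : ℝ) ^ (-(q₁ : ℝ) + r) ≤ (d : ℝ) ^ (-t + δ) := Real.rpow_le_rpow_of_exponent_le hd1 (by linarith)
    have e2 : (d : ℝ) ^ (r : ℝ) ≤ (d : ℝ) ^ δ := Real.rpow_le_rpow_of_exponent_le hd1 (by linarith)
    exact add_le_add (mul_le_mul_of_nonneg_left e1 hT0) e2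
  · intro hcard
    refine le_trans ?_ ((h7 (le_trans (Real.rpow_le_rpow_of_exponent_le hd1 (by linarith)) hcard)).trans m2)
    exact mul_le_mul_of_nonneg_left (Real.rpow_le_rpow_of_exponent_le hd1 (by linarith)) hT0

end Pool.Agent.Q112.LE
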