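import Pool.Agent.Q112.LE.Sum
import Pool.Agent.Q120.GM.Free

/-!
# The probability that the least elements of some classes are late
-/

set_option autoImplicit false

namespace Pool.Agent.Q112.LE

open Finset Filter MeasureTheory ProbabilityTheory Pool.Agent.Q120.GM
open scoped Topology

/-- All elements of `S` which are congruent to `c` modulo `m`, except `c` itself, are larger than `y`. -/
def Beyond (S : Set ℕ) (c : ℤ) (m : ℕ) (y : ℝ) : Prop :=
  ∀ n ∈ S, (n : ℤ) ≡ c [ZMOD m] → (n : ℤ) ≠ c → y < n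

/-- The elements of the classes of `c ∈ C` modulo `m` up to `u(c) φ_Q(m) log m`. -/
noncomputable def WW (Q : ℕ) (C : Finset ℤ) (u : ℤ → ℝ) (m : ℕ) : Finset ℕ :=
  C.biUnion (fun c => cl c m (MM Q c m (u c)))

theorem mem_WW {Q : ℕ} {C : Finset ℤ} {u : ℤ → ℝ} {m n : ℕ} :
    n ∈ WW Q C u m ↔ ∃ c ∈ C, ∃ j, 1 ≤ j ∧ j ≤ MM Q c m (u c) ∧ n = el c m j := by
  unfold WW cl
  rw [mem_biUnion]
  constructor
  · rintro ⟨c, hc, h⟩
    rw [mem_image] at h
    obtain ⟨j, hj, rfl⟩ := h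
    rw [mem_Icc] at hj
    exact ⟨c, hc, j, hj.1, hj.2, rfl⟩
  · rintro ⟨c, hc, j, h1, h2, rfl⟩
    exact ⟨c, hc, mem_image.2 ⟨j, mem_Icc.2 ⟨h1, h2⟩, rfl⟩⟩

theorem beyond_iff {Q : ℕ} {C : Finset ℤ} {u : ℤ → ℝ} {m : ℕ} (hC : ∀ c ∈ C, |c| < (m : ℤ)) (S : Set ℕ) :
    (∀ c ∈ C, Beyond S c m (u c * phiQ Q m * Real.log m)) ↔ ∀ n ∈ WW Q C u m, n ∉ S := by
  constructor
  · intro h n hn hS
    rw [mem_WW] at hn
    obtain ⟨c, hc, j, h1, h2, rfl⟩ := hn
    have hcm := (hC c hc).le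
    have hm0 : 1 ≤ m := by
      have := (abs_nonneg c).trans_lt (hC c hc)
      exact_mod_cast this
    have h3 := el_cast hcm h1
    have h4 := h c hc (el c m j) hS (by
      rw [h3]
      exact (Int.modEq_iff_dvd.2 ⟨-j, by ring⟩)) (by
      rw [h3]
      intro h5
      have h6 : (0 : ℤ) < m * j := by
        have : (0 : ℤ) < m := by exact_mod_cast hm0
        have : (0 : ℤ) < j := by exact_mod_cast h1
        positivity
      linarith)
    have h5 := el_le hcm hm0 h1 h2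
    linarith
  · intro h c hc n hn hmod hne
    by_contra hcon
    push Not at hcon
    have hcm := (hC c hc).le
    have hm0 : 1 ≤ m := by
      have := (abs_nonneg c).trans_lt (hC c hc)
      exact_mod_cast this
    have hm0' : (0 : ℤ) < m := by exact_mod_cast hm0
    obtain ⟨t, ht⟩ := (Int.modEq_iff_dvd.1 hmod.symm)
    -- n - c = m t
    have h1 : 1 ≤ t := by
      by_contra h2
      push Not at h2
      have h3 : t ≠ 0 := by
        rintro rfl
        apply hne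
        linarith
      have h4 : t ≤ -1 := by omega
      have h5 : (m : ℤ) * t ≤ m * (-1) := mul_le_mul_of_nonneg_left h4 hm0'.le
      have h6 := (abs_lt.1 (hC c hc)).2
      have h7 : (0 : ℤ) ≤ n := by positivity
      linarith
    obtain ⟨j, rfl⟩ : ∃ j : ℕ, (j : ℤ) = t := ⟨t.toNat, Int.toNat_of_nonneg (by linarith)⟩
    have hj : 1 ≤ j := by exact_mod_cast h1
    have h2 : n = el c m j := by
      have h3 := el_cast hcm hj
      have h4 : (n : ℤ) = (el c m j : ℕ) := by rw [h3]; linarith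
      exact_mod_cast h4
    refine h n (mem_WW.2 ⟨c, hc, j, hj, ?_, h2⟩) hn
    rw [h2] at hcon
    exact lt_el_of hcm hm0 hj hcon

theorem el_inj {c c' : ℤ} {m j j' B : ℕ} (hc : |c| ≤ B) (hc' : |c'| ≤ B) (hB : 2 * B < m) (hj : 1 ≤ j) (hj' : 1 ≤ j')
    (h : el c m j = el c' m j') : c = c' ∧ j = j' := by
  have hBm : (B : ℤ) ≤ m := by exact_mod_cast (by omega : B ≤ m)
  have h1 := el_cast (hc.trans hBm) hj
  have h2 := el_cast (hc'.trans hBm) hj'
  rw [h, h2] at h1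
  have h3 := abs_le.1 hc
  have h4 := abs_le.1 hc'
  have h5 : (2 : ℤ) * B < m := by exact_mod_cast hB
  have h6 : (m : ℤ) * (j - j') = c' - c := by linarith
  have h7 : (j : ℤ) - j' = 0 := by
    by_contra hne
    rcases lt_or_gt_of_ne hne with h8 | h8
    · have h9 : (j : ℤ) - j' ≤ -1 := by omega
      have h10 : (m : ℤ) * (j - j') ≤ m * (-1) := mul_le_mul_of_nonneg_left h9 (by positivity)
      linarith
    · have h9 : 1 ≤ (j : ℤ) - j' := by omega
      have h10 : (m : ℤ) * 1 ≤ m * (j - j') := mul_le_mul_of_nonneg_left h9 (by positivity)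
      linarith
  rw [h7, mul_zero] at h6
  constructor
  · linarith
  · have : (j : ℤ) = j' := by linarith
    exact_mod_cast this

theorem sum_WW {Q : ℕ} {C : Finset ℤ} {u : ℤ → ℝ} {m B : ℕ} (hC : ∀ c ∈ C, |c| ≤ (B : ℤ)) (hB : 2 * B < m)
    (f : ℕ → ℝ) : ∑ n ∈ WW Q C u m, f n = ∑ c ∈ C, ∑ j ∈ Icc 1 (MM Q c m (u c)), f (el c m j) := by
  unfold WW
  rw [sum_biUnion]
  · refine sum_congr rfl (fun c hc => ?_)
    unfold cl
    rw [sum_image]
    intro j hj j' hj' h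
    rw [mem_coe, mem_Icc] at hj hj'
    exact (el_inj (hC c hc) (hC c hc) hB hj.1 hj'.1 h).2
  · intro c hc c' hc' hne
    rw [Function.onFun, Finset.disjoint_left]
    intro n hn hn'
    unfold cl at hn hn'
    rw [mem_image] at hn hn'
    obtain ⟨j, hj, h1⟩ := hn
    obtain ⟨j', hj', h2⟩ := hn'
    rw [mem_Icc] at hj hj'
    exact hne (el_inj (hC c hc) (hC c' hc') hB hj.1 hj'.1 (h1.trans h2.symm)).1

variable {Ω : Type*} [MeasurableSpace Ω] {μ : Measure Ω} [IsProbabilityMeasure μ] {A : Ω → Set ℕ} {Q : ℕ}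

/-- The product over a set of integers with small probabilities. -/
theorem prod_bounds {W : Finset ℕ} {t : ℝ} (ht2 : t ≤ 1 / 2)
    (h : ∀ n ∈ W, level Q n ≤ t) :
    Real.exp (-((1 + 2 * t) * ∑ n ∈ W, level Q n)) ≤ ∏ n ∈ W, (1 - level Q n) ∧
      ∏ n ∈ W, (1 - level Q n) ≤ Real.exp (-∑ n ∈ W, level Q n) := by
  constructor
  · rw [mul_sum, ← sum_neg_distrib, Real.exp_sum]
    refine Finset.prod_le_prod (fun n _ => (Real.exp_pos _).le) (fun n hn => ?_)
    have h1 := level_nonneg Q n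
    have h2 := h n hn
    refine le_trans ?_ (Pool.Agent.Q120.TD.one_sub_ge h1 (h2.trans ht2))
    rw [Real.exp_le_exp]
    nlinarith
  · rw [← sum_neg_distrib, Real.exp_sum]
    refine Finset.prod_le_prod (fun n _ => by linarith [level_le_one Q n]) (fun n _ => ?_)
    have := Real.add_one_le_exp (-level Q n)
    linarith

/-- A bound for the probabilities of the elements. -/
theorem level_WW_le {C : Finset ℤ} {u : ℤ → ℝ} {m B : ℕ} (hC : ∀ c ∈ C, |c| ≤ (B : ℤ)) (hB : 2 * B < m)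
    (hm : 0 < Real.log ((m : ℝ) / 2)) {n : ℕ} (hn : n ∈ WW Q C u m) :
    level Q n ≤ qq Q / Real.log ((m : ℝ) / 2) := by
  rw [mem_WW] at hn
  obtain ⟨c, hc, j, h1, h2, rfl⟩ := hn
  have hm0 : (0 : ℝ) < (m : ℝ) / 2 := by
    have : 0 < m := by omega
    positivity
  exact level_le hm hm0 (le_el (hC c hc) hB.le h1)

/-- **The void probability tends to `exp (-∑ u)`.** -/
theorem void_tendsto (hA : IsModel μ (level Q) A) (hQ : 1 ≤ Q) (C : Finset ℤ) {u : ℤ → ℝ} (hu : ∀ c ∈ C, 0 ≤ u c)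
    {ε : ℝ} (hε : 0 < ε) :
    ∀ᶠ m : ℕ in atTop, (∀ c ∈ C, Int.gcd c (Nat.gcd m Q) = 1) →
      |μ.real (free A (WW Q C u m)) - Real.exp (-∑ c ∈ C, u c)| ≤ ε := by
  obtain ⟨B, hB⟩ : ∃ B : ℕ, ∀ c ∈ C, |c| ≤ (B : ℤ) := by
    refine ⟨∑ c ∈ C, c.natAbs, fun c hc => ?_⟩
    rw [Int.abs_eq_natAbs]
    exact_mod_cast single_le_sum (f := fun c : ℤ => c.natAbs) (fun _ _ => Nat.zero_le _) hc
  obtain ⟨U, hU⟩ : ∃ U, U = ∑ c ∈ C, u c := ⟨_, rfl⟩
  rw [← hU]
  -- continuity of the exponential function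
  obtain ⟨δ, hδ, hδe⟩ : ∃ δ : ℝ, 0 < δ ∧ ∀ s : ℝ, |s - U| < δ → |Real.exp (-s) - Real.exp (-U)| < ε := by
    have h1 : Continuous (fun s : ℝ => Real.exp (-s)) := by fun_prop
    have h2 := Metric.continuous_iff.1 h1 U ε hε
    obtain ⟨δ, h3, h4⟩ := h2
    refine ⟨δ, h3, fun s hs => ?_⟩
    have := h4 s (by rwa [Real.dist_eq])
    rwa [Real.dist_eq] at this
  obtain ⟨η, hη⟩ : ∃ η : ℝ, η = δ / (4 * ((C.card : ℝ) + 1)) := ⟨_, rfl⟩
  have hη0 : 0 < η := by rw [hη]; positivity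
  have hηC : (C.card : ℝ) * η ≤ δ / 4 := by
    rw [hη, mul_div_assoc', div_le_div_iff₀ (by positivity) (by norm_num)]
    nlinarith
  have hL : Tendsto (fun m : ℕ => Real.log ((m : ℝ) / 2)) atTop atTop :=
    Real.tendsto_log_atTop.comp (tendsto_natCast_atTop_atTop.atTop_div_const (by norm_num))
  have g1 : ∀ᶠ m : ℕ in atTop, ∀ c ∈ C, ∀ c' : ℤ, |c'| ≤ B → Int.gcd c' (Nat.gcd m Q) = 1 →
      |∑ j ∈ Icc 1 (MM Q c' m (u c)), level Q (el c' m j) - u c| ≤ η :=
    (Filter.eventually_all_finset C).2 (fun c hc => sum_tendsto hQ B (hu c hc) hη0)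
  have hq := qq_pos hQ
  have g2 : Tendsto (fun m : ℕ => qq Q / Real.log ((m : ℝ) / 2)) atTop (𝓝 0) := tendsto_const_nhds.div_atTop hL
  have hU0 : 0 ≤ U := by rw [hU]; exact sum_nonneg hu
  have g3 := g2.eventually (gt_mem_nhds (show (0 : ℝ) < min (1 / 2) (δ / (8 * (U + δ + 1))) by positivity))
  filter_upwards [g1, g3, hL.eventually_gt_atTop 0, eventually_gt_atTop (2 * B)] with m h1 h2 h3 h4 hg
  obtain ⟨t, ht⟩ : ∃ t, t = qq Q / Real.log ((m : ℝ) / 2) := ⟨_, rfl⟩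
  rw [← ht] at h2
  have ht0 : 0 ≤ t := by rw [ht]; positivity
  have ht2 : t ≤ 1 / 2 := h2.le.trans (min_le_left _ _)
  have ht3 : t ≤ δ / (8 * (U + δ + 1)) := h2.le.trans (min_le_right _ _)
  obtain ⟨S, hS⟩ : ∃ S, S = ∑ n ∈ WW Q C u m, level Q n := ⟨_, rfl⟩
  have hSU : |S - U| ≤ δ / 4 := by
    rw [hS, sum_WW hB h4, hU, ← sum_sub_distrib]
    refine (Finset.abs_sum_le_sum_abs _ _).trans ?_
    refine (sum_le_sum (g := fun _ => η) (fun c hc => ?_)).trans ?_
    · exact h1 c hc c (hB c hc) (hg c hc)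
    · rw [sum_const, nsmul_eq_mul]
      exact hηC
  obtain ⟨b1, b2⟩ := prod_bounds (Q := Q) ht2 (W := WW Q C u m) (fun n hn => by
    rw [ht]
    exact level_WW_le hB h4 h3 hn)
  rw [real_free hA]
  rw [← hS] at b1 b2
  have hab := abs_le.1 hSU
  have e1 := hδe S (by linarith)
  have e2 := hδe ((1 + 2 * t) * S) (by
    have h5 : |2 * t * S| ≤ δ / 4 := by
      rw [abs_mul, abs_of_nonneg (by linarith : 0 ≤ 2 * t)]
      have h6 : |S| ≤ U + δ + 1 := by
        rw [abs_le]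
        constructor <;> linarith
      have h7 : 2 * t * |S| ≤ 2 * (δ / (8 * (U + δ + 1))) * (U + δ + 1) := by gcongr
      refine h7.trans (le_of_eq ?_)
      field_simp
      ring
    have h8 : (1 + 2 * t) * S - U = (S - U) + 2 * t * S := by ring
    rw [h8]
    refine (abs_add_le _ _).trans_lt ?_
    linarith)
  rw [abs_le]
  rw [abs_lt] at e1 e2
  constructor <;> linarith

end Pool.Agent.Q112.LE
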